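import Pool.Agent.Rnc.Inp

/-!
# Rnc CORE: the averaged Chowla theorem with arbitrary coefficients, and sums `∑_v |∑_m μ(m) (m/v') μ(um + v)|`
-/

set_option autoImplicit false

namespace Rnc

open Finset Filter Topology Rnt

-- BEGIN circ
private theorem circ_mu (n : ℕ) : ‖((ArithmeticFunction.moebius n : ℤ) : ℂ)‖ ≤ 1 := by
  rw [Complex.norm_intCast]
  have h := ArithmeticFunction.abs_moebius_le_one (n := n)
  exact_mod_cast h

private theorem circ_le (l : ℂ) (hl : ‖l‖ = 1) (m H : ℕ) :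
    ‖∑ n ∈ Ioc m (m + H), l ^ n * ((ArithmeticFunction.moebius n : ℤ) : ℂ)‖ ≤ H := by
  calc ‖∑ n ∈ Ioc m (m + H), l ^ n * ((ArithmeticFunction.moebius n : ℤ) : ℂ)‖
      ≤ ∑ n ∈ Ioc m (m + H), ‖l ^ n * ((ArithmeticFunction.moebius n : ℤ) : ℂ)‖ := norm_sum_le _ _
    _ ≤ ∑ _n ∈ Ioc m (m + H), (1 : ℝ) := by
        refine Finset.sum_le_sum fun n _ => ?_
        rw [norm_mul, norm_pow, hl, one_pow, one_mul]
        exact circ_mu n
    _ = H := by simp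

private theorem circ_pow (l l₀ : ℂ) (hl : ‖l‖ = 1) (hl₀ : ‖l₀‖ = 1) (j : ℕ) :
    ‖l ^ j - l₀ ^ j‖ ≤ j * ‖l - l₀‖ := by
  induction j with
  | zero => simp
  | succ j ih =>
    have e : l ^ (j + 1) - l₀ ^ (j + 1) = l ^ j * (l - l₀) + (l ^ j - l₀ ^ j) * l₀ := by ring
    rw [e]
    refine (norm_add_le _ _).trans ?_
    rw [norm_mul, norm_mul, norm_pow, hl, hl₀, one_pow, one_mul, mul_one]
    push_cast
    linarith

private theorem circ_range (f : ℕ → ℂ) (m H : ℕ) :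
    ∑ n ∈ Ioc m (m + H), f n = ∑ j ∈ range H, f (m + 1 + j) := by
  induction H with
  | zero => simp
  | succ H ih =>
    rw [Finset.sum_range_succ, ← ih, ← add_assoc, Finset.sum_Ioc_succ_top (by omega)]
    have e : m + 1 + H = m + H + 1 := by omega
    rw [e]

private theorem circ_norm (l : ℂ) (hl : ‖l‖ = 1) (m H : ℕ) :
    ‖∑ n ∈ Ioc m (m + H), l ^ n * ((ArithmeticFunction.moebius n : ℤ) : ℂ)‖ =
      ‖∑ j ∈ range H, l ^ j * ((ArithmeticFunction.moebius (m + 1 + j) : ℤ) : ℂ)‖ := by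
  rw [circ_range]
  have e : ∑ j ∈ range H, l ^ (m + 1 + j) * ((ArithmeticFunction.moebius (m + 1 + j) : ℤ) : ℂ) =
      l ^ (m + 1) * ∑ j ∈ range H, l ^ j * ((ArithmeticFunction.moebius (m + 1 + j) : ℤ) : ℂ) := by
    rw [Finset.mul_sum]
    refine Finset.sum_congr rfl fun j _ => ?_
    rw [pow_add, mul_assoc]
  rw [e, norm_mul, norm_pow, hl, one_pow, one_mul]

private theorem circ_pert (l l₀ : ℂ) (hl : ‖l‖ = 1) (hl₀ : ‖l₀‖ = 1) (m H : ℕ) :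
    ‖∑ n ∈ Ioc m (m + H), l ^ n * ((ArithmeticFunction.moebius n : ℤ) : ℂ)‖ ≤
      ‖∑ n ∈ Ioc m (m + H), l₀ ^ n * ((ArithmeticFunction.moebius n : ℤ) : ℂ)‖ + H * (H * ‖l - l₀‖) := by
  rw [circ_norm l hl, circ_norm l₀ hl₀]
  have e : ∑ j ∈ range H, l ^ j * ((ArithmeticFunction.moebius (m + 1 + j) : ℤ) : ℂ) =
      ∑ j ∈ range H, l₀ ^ j * ((ArithmeticFunction.moebius (m + 1 + j) : ℤ) : ℂ) +
      ∑ j ∈ range H, (l ^ j - l₀ ^ j) * ((ArithmeticFunction.moebius (m + 1 + j) : ℤ) : ℂ) := by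
    rw [← Finset.sum_add_distrib]
    refine Finset.sum_congr rfl fun j _ => ?_
    ring
  rw [e]
  refine (norm_add_le _ _).trans ?_
  gcongr
  calc ‖∑ j ∈ range H, (l ^ j - l₀ ^ j) * ((ArithmeticFunction.moebius (m + 1 + j) : ℤ) : ℂ)‖
      ≤ ∑ j ∈ range H, ‖(l ^ j - l₀ ^ j) * ((ArithmeticFunction.moebius (m + 1 + j) : ℤ) : ℂ)‖ :=
        norm_sum_le _ _
    _ ≤ ∑ _j ∈ range H, ((H : ℝ) * ‖l - l₀‖) := by
        refine Finset.sum_le_sum fun j hj => ?_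
        rw [norm_mul]
        have h1 := circ_pow l l₀ hl hl₀ j
        have h2 := circ_mu (m + 1 + j)
        have h3 : (j : ℝ) ≤ H := by
          have := Finset.mem_range.1 hj
          exact_mod_cast this.le
        calc ‖l ^ j - l₀ ^ j‖ * ‖((ArithmeticFunction.moebius (m + 1 + j) : ℤ) : ℂ)‖
            ≤ ‖l ^ j - l₀ ^ j‖ * 1 := mul_le_mul_of_nonneg_left h2 (norm_nonneg _)
          _ = ‖l ^ j - l₀ ^ j‖ := mul_one _
          _ ≤ j * ‖l - l₀‖ := h1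
          _ ≤ H * ‖l - l₀‖ := mul_le_mul_of_nonneg_right h3 (norm_nonneg _)
    _ = H * (H * ‖l - l₀‖) := by rw [Finset.sum_const, Finset.card_range, nsmul_eq_mul]

private theorem circ_split0 (l : ℂ) (m H₁ K : ℕ) :
    ‖∑ n ∈ Ioc m (m + K * H₁), l ^ n * ((ArithmeticFunction.moebius n : ℤ) : ℂ)‖ ≤
      ∑ k ∈ range K, ‖∑ n ∈ Ioc (m + k * H₁) (m + k * H₁ + H₁), l ^ n * ((ArithmeticFunction.moebius n : ℤ) : ℂ)‖ := by
  induction K with
  | zero => simp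
  | succ K ih =>
    rw [Finset.sum_range_succ]
    have e : m + (K + 1) * H₁ = m + K * H₁ + H₁ := by ring
    rw [e, ← Finset.sum_Ioc_consecutive _ (show m ≤ m + K * H₁ by omega)
      (show m + K * H₁ ≤ m + K * H₁ + H₁ by omega)]
    refine (norm_add_le _ _).trans ?_
    gcongr

private theorem circ_split (l : ℂ) (hl : ‖l‖ = 1) (m H₁ H : ℕ) (hH₁ : 0 < H₁) :
    ‖∑ n ∈ Ioc m (m + H), l ^ n * ((ArithmeticFunction.moebius n : ℤ) : ℂ)‖ ≤
      ∑ k ∈ range (H / H₁), ‖∑ n ∈ Ioc (m + k * H₁) (m + k * H₁ + H₁),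
        l ^ n * ((ArithmeticFunction.moebius n : ℤ) : ℂ)‖ + H₁ := by
  have h1 : H / H₁ * H₁ ≤ H := Nat.div_mul_le_self H H₁
  obtain ⟨r, hr⟩ := Nat.exists_eq_add_of_le h1
  have h2 : r < H₁ := by
    have h3 := Nat.lt_div_mul_add (a := H) hH₁
    omega
  have e : m + H = m + H / H₁ * H₁ + r := by omega
  rw [e, ← Finset.sum_Ioc_consecutive _ (show m ≤ m + H / H₁ * H₁ by omega)
    (show m + H / H₁ * H₁ ≤ m + H / H₁ * H₁ + r by omega)]
  refine (norm_add_le _ _).trans ?_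
  have h4 := circ_le l hl (m + H / H₁ * H₁) r
  have h5 : (r : ℝ) ≤ H₁ := by exact_mod_cast h2.le
  have h6 := circ_split0 l m H₁ (H / H₁)
  linarith

private theorem circ_shift (f : ℕ → ℝ) (B : ℝ) (hf0 : ∀ n, 0 ≤ f n) (hfB : ∀ n, f n ≤ B) (N s : ℕ) :
    ∑ m ∈ range N, f (m + s) ≤ ∑ m ∈ range N, f m + s * B := by
  have h1 : ∑ m ∈ range N, f (m + s) ≤ ∑ m ∈ range (s + N), f m := by
    rw [Finset.sum_range_add]
    have h2 : ∑ m ∈ range N, f (m + s) = ∑ m ∈ range N, f (s + m) :=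
      Finset.sum_congr rfl fun m _ => by rw [add_comm]
    rw [h2]
    have h3 : 0 ≤ ∑ m ∈ range s, f m := Finset.sum_nonneg fun m _ => hf0 m
    linarith
  have h4 : ∑ m ∈ range (N + s), f m ≤ ∑ m ∈ range N, f m + s * B := by
    rw [Finset.sum_range_add]
    have h5 : ∑ m ∈ range s, f (N + m) ≤ ∑ _m ∈ range s, B := Finset.sum_le_sum fun m _ => hfB _
    rw [Finset.sum_const, Finset.card_range, nsmul_eq_mul] at h5
    linarith
  rw [add_comm s N] at h1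
  exact h1.trans h4

private theorem circ_loc (ε : ℝ) (hε : 0 < ε) (l₀ : ℂ) (hl₀ : ‖l₀‖ = 1) :
    ∃ H₁ : ℕ, 0 < H₁ ∧ ∃ N₁ : ℕ, ∀ N : ℕ, N₁ ≤ N →
      ∑ m ∈ range N, ‖∑ n ∈ Ioc m (m + H₁), l₀ ^ n * ((ArithmeticFunction.moebius n : ℤ) : ℂ)‖ ≤ ε * N * H₁ := by
  by_cases h : ∃ q : ℕ, 1 ≤ q ∧ l₀ ^ q = 1
  · obtain ⟨q, hq, hlq⟩ := h
    obtain ⟨H₀, hH₀⟩ := mr_mu l₀ q hq hlq ε hε
    obtain ⟨N₀, hN₀⟩ := hH₀ (H₀ + 1) (by omega)
    exact ⟨H₀ + 1, by omega, N₀, hN₀⟩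
  · push Not at h
    obtain ⟨H₀, hH₀⟩ := irr l₀ hl₀ h ε hε
    obtain ⟨N₀, hN₀⟩ := hH₀ (H₀ + 1) (by omega)
    exact ⟨H₀ + 1, by omega, N₀, hN₀⟩

private theorem circ_nbhd (ε : ℝ) (hε : 0 < ε) (l₀ : ℂ) (hl₀ : ‖l₀‖ = 1) :
    ∃ δ : ℝ, 0 < δ ∧ ∃ H₀ : ℕ, ∀ H : ℕ, H₀ ≤ H → ∃ N₀ : ℕ, ∀ N : ℕ, N₀ ≤ N → ∀ l : ℂ, ‖l - l₀‖ < δ → ‖l‖ = 1 →
      ∑ m ∈ range N, ‖∑ n ∈ Ioc m (m + H), l ^ n * ((ArithmeticFunction.moebius n : ℤ) : ℂ)‖ ≤ ε * N * H := by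
  obtain ⟨H₁, hH₁, N₁, hN₁⟩ := circ_loc (ε / 4) (by positivity) l₀ hl₀
  have hH₁' : (0 : ℝ) < H₁ := by exact_mod_cast hH₁
  refine ⟨ε / (4 * H₁), by positivity, ⌈4 * H₁ / ε⌉₊, fun H hH => ⟨max N₁ ⌈4 * H / ε⌉₊, fun N hN l hll hl => ?_⟩⟩
  have hNN : N₁ ≤ N := (le_max_left _ _).trans hN
  have hN2 : 4 * (H : ℝ) / ε ≤ N := (Nat.le_ceil _).trans (by exact_mod_cast (le_max_right _ _).trans hN)
  have hH2 : 4 * (H₁ : ℝ) / ε ≤ H := (Nat.le_ceil _).trans (by exact_mod_cast hH)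
  rw [div_le_iff₀ hε] at hN2 hH2
  have hd : (H₁ : ℝ) * ‖l - l₀‖ ≤ ε / 4 := by
    have h1 : ‖l - l₀‖ ≤ ε / (4 * H₁) := hll.le
    have h2 : (H₁ : ℝ) * (ε / (4 * H₁)) = ε / 4 := by field_simp
    calc (H₁ : ℝ) * ‖l - l₀‖ ≤ H₁ * (ε / (4 * H₁)) := mul_le_mul_of_nonneg_left h1 hH₁'.le
      _ = ε / 4 := h2
  -- the sum of the short windows
  set F : ℕ → ℝ := fun m => ‖∑ n ∈ Ioc m (m + H₁), l ^ n * ((ArithmeticFunction.moebius n : ℤ) : ℂ)‖ with hF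
  have hF0 : ∀ m, 0 ≤ F m := fun m => norm_nonneg _
  have hFB : ∀ m, F m ≤ H₁ := fun m => circ_le l hl m H₁
  have hFs : ∑ m ∈ range N, F m ≤ ε / 2 * N * H₁ := by
    have h1 : ∑ m ∈ range N, F m ≤ ∑ m ∈ range N,
        (‖∑ n ∈ Ioc m (m + H₁), l₀ ^ n * ((ArithmeticFunction.moebius n : ℤ) : ℂ)‖ + H₁ * (ε / 4)) := by
      refine Finset.sum_le_sum fun m _ => ?_
      have h2 := circ_pert l l₀ hl hl₀ m H₁
      have h3 : (H₁ : ℝ) * (H₁ * ‖l - l₀‖) ≤ H₁ * (ε / 4) := mul_le_mul_of_nonneg_left hd hH₁'.le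
      exact h2.trans (by linarith)
    rw [Finset.sum_add_distrib, Finset.sum_const, Finset.card_range, nsmul_eq_mul] at h1
    have h4 := hN₁ N hNN
    nlinarith
  have hmain : ∑ m ∈ range N, ‖∑ n ∈ Ioc m (m + H), l ^ n * ((ArithmeticFunction.moebius n : ℤ) : ℂ)‖ ≤
      ∑ k ∈ range (H / H₁), (∑ m ∈ range N, F m + H * H₁) + N * H₁ := by
    calc ∑ m ∈ range N, ‖∑ n ∈ Ioc m (m + H), l ^ n * ((ArithmeticFunction.moebius n : ℤ) : ℂ)‖
        ≤ ∑ m ∈ range N, (∑ k ∈ range (H / H₁), F (m + k * H₁) + H₁) :=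
          Finset.sum_le_sum fun m _ => circ_split l hl m H₁ H hH₁
      _ = ∑ k ∈ range (H / H₁), ∑ m ∈ range N, F (m + k * H₁) + N * H₁ := by
          rw [Finset.sum_add_distrib, Finset.sum_comm, Finset.sum_const, Finset.card_range, nsmul_eq_mul]
      _ ≤ ∑ k ∈ range (H / H₁), (∑ m ∈ range N, F m + H * H₁) + N * H₁ := by
          gcongr with k hk
          refine (circ_shift F H₁ hF0 hFB N (k * H₁)).trans ?_
          have h1 : k * H₁ ≤ H := by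
            have h2 := Finset.mem_range.1 hk
            calc k * H₁ ≤ H / H₁ * H₁ := Nat.mul_le_mul_right _ h2.le
              _ ≤ H := Nat.div_mul_le_self H H₁
          have h3 : ((k * H₁ : ℕ) : ℝ) ≤ H := by exact_mod_cast h1
          gcongr
  rw [Finset.sum_const, Finset.card_range, nsmul_eq_mul] at hmain
  have hK : ((H / H₁ : ℕ) : ℝ) * H₁ ≤ H := by exact_mod_cast Nat.div_mul_le_self H H₁
  have hK0 : (0 : ℝ) ≤ ((H / H₁ : ℕ) : ℝ) := Nat.cast_nonneg _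
  have hN0 : (0 : ℝ) ≤ N := Nat.cast_nonneg _
  have hH0 : (0 : ℝ) ≤ H := Nat.cast_nonneg _
  have h5 : ((H / H₁ : ℕ) : ℝ) * (∑ m ∈ range N, F m + H * H₁) ≤ (H : ℝ) * (ε / 2 * N + H) := by
    calc ((H / H₁ : ℕ) : ℝ) * (∑ m ∈ range N, F m + H * H₁)
        ≤ ((H / H₁ : ℕ) : ℝ) * (ε / 2 * N * H₁ + H * H₁) := mul_le_mul_of_nonneg_left (by linarith) hK0
      _ = (((H / H₁ : ℕ) : ℝ) * H₁) * (ε / 2 * N + H) := by ring
      _ ≤ (H : ℝ) * (ε / 2 * N + H) := mul_le_mul_of_nonneg_right hK (by positivity)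
  have h6 : (H : ℝ) * H ≤ H * (N * ε / 4) := mul_le_mul_of_nonneg_left (by linarith) hH0
  have h7 : (N : ℝ) * H₁ ≤ N * (H * ε / 4) := mul_le_mul_of_nonneg_left (by linarith) hN0
  nlinarith

/-- K1. Compactness of the circle. For `‖l₀‖ = 1`: `mr_mu` or `irr` with `ε / 4` gives `H₁ = H₀(l₀) ≥ 1`, and `N₁` for this `H₁`. For `‖l - l₀‖ ≤ ε / (4 H₁)` each window of length `H₁` changes by at most `H₁ · max_(j ≤ H₁) ‖l^j - l₀^j‖ ≤ ε H₁ / 4`
(take out `l^m`), and for `H ≥ 8 H₁ / ε` a window of length `H` is the union of `H / H₁` windows of length `H₁` and at most `H₁` further terms. Finitely many `l₀` (`isCompact_sphere`, `elim_finite_subcover`); `N₀` (depending on `H`) absorbs the shifts of `m` by at most `H`. -/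
theorem circ (ε : ℝ) (hε : 0 < ε) : ∃ H₀ : ℕ, ∀ H : ℕ, H₀ ≤ H → ∃ N₀ : ℕ, ∀ N : ℕ, N₀ ≤ N → ∀ l : ℂ, ‖l‖ = 1 →
      ∑ m ∈ range N, ‖∑ n ∈ Ioc m (m + H), l ^ n * ((ArithmeticFunction.moebius n : ℤ) : ℂ)‖ ≤ ε * N * H := by
  have key : ∃ H₀ : ℕ, ∀ H : ℕ, H₀ ≤ H → ∃ N₀ : ℕ, ∀ N : ℕ, N₀ ≤ N → ∀ l : ℂ, l ∈ Metric.sphere (0 : ℂ) 1 → ‖l‖ = 1 →
      ∑ m ∈ range N, ‖∑ n ∈ Ioc m (m + H), l ^ n * ((ArithmeticFunction.moebius n : ℤ) : ℂ)‖ ≤ ε * N * H := by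
    refine (isCompact_sphere (0 : ℂ) 1).induction_on (p := fun s => ∃ H₀ : ℕ, ∀ H : ℕ, H₀ ≤ H → ∃ N₀ : ℕ, ∀ N : ℕ, N₀ ≤ N →
      ∀ l : ℂ, l ∈ s → ‖l‖ = 1 →
      ∑ m ∈ range N, ‖∑ n ∈ Ioc m (m + H), l ^ n * ((ArithmeticFunction.moebius n : ℤ) : ℂ)‖ ≤ ε * N * H) ?_ ?_ ?_ ?_
    · exact ⟨0, fun H _ => ⟨0, fun N _ l hl => absurd hl (Set.notMem_empty l)⟩⟩
    · rintro s t hst ⟨H₀, hH₀⟩
      refine ⟨H₀, fun H hH => ?_⟩
      obtain ⟨N₀, hN₀⟩ := hH₀ H hH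
      exact ⟨N₀, fun N hN l hl => hN₀ N hN l (hst hl)⟩
    · rintro s t ⟨H₀, hH₀⟩ ⟨H₁, hH₁⟩
      refine ⟨max H₀ H₁, fun H hH => ?_⟩
      obtain ⟨N₀, hN₀⟩ := hH₀ H ((le_max_left _ _).trans hH)
      obtain ⟨N₁, hN₁⟩ := hH₁ H ((le_max_right _ _).trans hH)
      refine ⟨max N₀ N₁, fun N hN l hl => ?_⟩
      rcases hl with hl | hl
      · exact hN₀ N ((le_max_left _ _).trans hN) l hl
      · exact hN₁ N ((le_max_right _ _).trans hN) l hl
    · intro l₀ hl₀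
      have hl₀' : ‖l₀‖ = 1 := by simpa using hl₀
      obtain ⟨δ, hδ, H₀, hH₀⟩ := circ_nbhd ε hε l₀ hl₀'
      refine ⟨Metric.ball l₀ δ, mem_nhdsWithin_of_mem_nhds (Metric.ball_mem_nhds l₀ hδ), H₀, fun H hH => ?_⟩
      obtain ⟨N₀, hN₀⟩ := hH₀ H hH
      refine ⟨N₀, fun N hN l hl => hN₀ N hN l ?_⟩
      rw [Metric.mem_ball, dist_eq_norm] at hl
      exact hl
  obtain ⟨H₀, hH₀⟩ := key
  refine ⟨H₀, fun H hH => ?_⟩
  obtain ⟨N₀, hN₀⟩ := hH₀ H hH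
  refine ⟨N₀, fun N hN l hl => hN₀ N hN l ?_ hl⟩
  simpa using hl
-- END circ

-- BEGIN pars
private theorem pars_zpow (Q a : ℕ) (h : ℤ) : lr Q a ^ h = lr Q 1 ^ (a * h) := by
  unfold lr
  rw [← Complex.exp_int_mul, ← Complex.exp_int_mul]
  congr 1
  push_cast
  ring

private theorem pars_norm (Q a : ℕ) (h : ℤ) : ‖lr Q a ^ h‖ = 1 := by
  have h1 : ‖lr Q a‖ = 1 := by
    unfold lr
    rw [show (2 * Real.pi * Complex.I * a / Q : ℂ) = ((2 * Real.pi * a / Q : ℝ) : ℂ) * Complex.I by push_cast; ring]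
    exact Complex.norm_exp_ofReal_mul_I _
  rw [norm_zpow, h1, one_zpow]

private theorem pars_geom (Q : ℕ) (hQ : 0 < Q) (k : ℤ) :
    ∑ a ∈ range Q, lr Q a ^ k = if (Q : ℤ) ∣ k then (Q : ℂ) else 0 := by
  have hQ' : (Q : ℂ) ≠ 0 := by exact_mod_cast hQ.ne'
  have hw : ∀ a : ℕ, lr Q a ^ k = (lr Q 1 ^ k) ^ a := by
    intro a
    rw [pars_zpow, mul_comm, zpow_mul, zpow_natCast]
  rw [Finset.sum_congr rfl (fun a _ => hw a)]
  have hprim : IsPrimitiveRoot (lr Q 1) Q := by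
    have := Complex.isPrimitiveRoot_exp Q hQ.ne'
    unfold lr
    simpa using this
  split_ifs with hd
  · obtain ⟨c, rfl⟩ := hd
    have : lr Q 1 ^ ((Q : ℤ) * c) = 1 := by
      rw [zpow_mul, zpow_natCast, hprim.pow_eq_one, one_zpow]
    rw [this]
    simp
  · have hne : lr Q 1 ^ k ≠ 1 := by
      intro h
      exact hd ((hprim.zpow_eq_one_iff_dvd k).1 h)
    have hpow : (lr Q 1 ^ k) ^ Q = 1 := by
      rw [← zpow_natCast, ← zpow_mul, mul_comm, zpow_mul, zpow_natCast, hprim.pow_eq_one, one_zpow]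
    rw [geom_sum_eq hne, hpow, sub_self, zero_div]

/-- K2. -/
theorem pars (Q : ℕ) (hQ : 0 < Q) (S : Finset ℤ) (hS : ∀ a ∈ S, ∀ b ∈ S, (Q : ℤ) ∣ a - b → a = b) (φ : ℤ → ℂ) :
    ∑ a ∈ range Q, ‖∑ h ∈ S, φ h * lr Q a ^ h‖ ^ 2 = Q * ∑ h ∈ S, ‖φ h‖ ^ 2 := by
  have key : ((∑ a ∈ range Q, ‖∑ h ∈ S, φ h * lr Q a ^ h‖ ^ 2 : ℝ) : ℂ) = ((Q * ∑ h ∈ S, ‖φ h‖ ^ 2 : ℝ) : ℂ) := by
    push_cast
    have h1 : ∀ a ∈ range Q, ((‖∑ h ∈ S, φ h * lr Q a ^ h‖ : ℝ) : ℂ) ^ 2 =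
        ∑ h ∈ S, ∑ h' ∈ S, φ h * (starRingEnd ℂ) (φ h') * lr Q a ^ (h - h') := by
      intro a _
      rw [← Complex.mul_conj', map_sum, Finset.sum_mul_sum]
      refine Finset.sum_congr rfl fun h _ => Finset.sum_congr rfl fun h' _ => ?_
      have hc : (starRingEnd ℂ) (lr Q a ^ h') = lr Q a ^ (-h') := by
        have hn := pars_norm Q a h'
        have h2 : lr Q a ^ h' * (starRingEnd ℂ) (lr Q a ^ h') = 1 := by
          rw [Complex.mul_conj', hn]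
          norm_num
        rw [zpow_neg]
        exact eq_inv_of_mul_eq_one_right h2
      have hne : lr Q a ≠ 0 := by
        intro h0
        have := pars_norm Q a 1
        rw [h0] at this
        simp at this
      rw [map_mul, hc, sub_eq_add_neg, zpow_add₀ hne]
      ring
    rw [Finset.sum_congr rfl h1, Finset.sum_comm, Finset.mul_sum]
    refine Finset.sum_congr rfl fun h hh => ?_
    rw [Finset.sum_comm]
    have h3 : ∀ h' ∈ S, ∑ a ∈ range Q, φ h * (starRingEnd ℂ) (φ h') * lr Q a ^ (h - h') =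
        if h' = h then (Q : ℂ) * (φ h * (starRingEnd ℂ) (φ h)) else 0 := by
      intro h' hh'
      rw [← Finset.mul_sum, pars_geom Q hQ]
      by_cases he : h' = h
      · rw [if_pos he, he, sub_self, if_pos (dvd_zero _)]
        ring
      · rw [if_neg he, if_neg, mul_zero]
        intro hd
        exact he (hS h hh h' hh' hd).symm
    rw [Finset.sum_congr rfl h3, Finset.sum_ite_eq' S h, if_pos hh, Complex.mul_conj']
  exact_mod_cast key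
-- END pars

-- BEGIN auto
private theorem auto_cnt (N L : ℕ) (n n' : ℤ) (hn : n ∈ Icc (1 : ℤ) N) (hn' : n' ∈ Icc (1 : ℤ) N) :
    ((((Icc (-(L : ℤ)) N).filter (fun x : ℤ => n ∈ Ioc x (x + (L : ℤ)) ∧ n' ∈ Ioc x (x + (L : ℤ)))).card : ℕ) : ℝ) =
      if n' ∈ Ioo (n - (L : ℤ)) (n + (L : ℤ)) then (L : ℝ) - |((n' - n : ℤ) : ℝ)| else 0 := by
  rw [mem_Icc] at hn hn'
  have h1 : (Icc (-(L : ℤ)) N).filter (fun x : ℤ => n ∈ Ioc x (x + (L : ℤ)) ∧ n' ∈ Ioc x (x + (L : ℤ))) =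
      Icc (max n n' - (L : ℤ)) (min n n' - 1) := by
    ext x
    rw [mem_filter, mem_Icc, mem_Ioc, mem_Ioc, mem_Icc]
    omega
  rw [h1, Int.card_Icc]
  rcases le_total n n' with h | h
  · rw [max_eq_right h, min_eq_left h]
    have hc : |((n' - n : ℤ) : ℝ)| = ((n' - n : ℤ) : ℝ) := abs_of_nonneg (by exact_mod_cast (by linarith : (0 : ℤ) ≤ n' - n))
    rw [hc]
    split_ifs with hm
    · rw [mem_Ioo] at hm
      have e : ((n - 1 + 1 - (n' - L)).toNat : ℤ) = L - (n' - n) := by omega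
      have e' : (((n - 1 + 1 - (n' - L)).toNat : ℕ) : ℝ) = (((n - 1 + 1 - (n' - L)).toNat : ℤ) : ℝ) := by push_cast; rfl
      rw [e', e]
      push_cast
      ring
    · rw [mem_Ioo] at hm
      have e : (n - 1 + 1 - (n' - L)).toNat = 0 := by omega
      rw [e]
      simp
  · rw [max_eq_left h, min_eq_right h]
    have hc : |((n' - n : ℤ) : ℝ)| = -((n' - n : ℤ) : ℝ) := abs_of_nonpos (by exact_mod_cast (by linarith : n' - n ≤ (0 : ℤ)))
    rw [hc]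
    split_ifs with hm
    · rw [mem_Ioo] at hm
      have e : ((n' - 1 + 1 - (n - L)).toNat : ℤ) = L + (n' - n) := by omega
      have e' : (((n' - 1 + 1 - (n - L)).toNat : ℕ) : ℝ) = (((n' - 1 + 1 - (n - L)).toNat : ℤ) : ℝ) := by push_cast; rfl
      rw [e', e]
      push_cast
      ring
    · rw [mem_Ioo] at hm
      have e : (n' - 1 + 1 - (n - L)).toNat = 0 := by omega
      rw [e]
      simp

/-- K3. `‖S_x‖² = ∑_(n,n') l^(n-n') g n g n'`, and the number of `x` with `n, n' ∈ Ioc x (x + L)` is `L - |n - n'|` (`0` if `|n - n'| ≥ L`); all these `x` are in `Icc (-L) N` for `1 ≤ n, n' ≤ N`. -/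
theorem auto (g : ℤ → ℝ) (N L : ℕ) (hg : ∀ n, n ∉ Icc (1 : ℤ) N → g n = 0) (l : ℂ) (hl : ‖l‖ = 1) :
    (((∑ x ∈ Icc (-(L : ℤ)) N, ‖∑ n ∈ Ioc x (x + L), l ^ n * (g n : ℂ)‖ ^ 2 : ℝ)) : ℂ) =
      ∑ h ∈ Ioo (-(L : ℤ)) L, ((((L : ℝ) - |(h : ℝ)|) * Cr g N h : ℝ) : ℂ) * l ^ h := by
  have hl0 : l ≠ 0 := by
    intro h
    rw [h, norm_zero] at hl
    exact zero_ne_one hl
  -- the sums over `Icc 1 N`
  have hS : ∀ x : ℤ, ∑ n ∈ Ioc x (x + L), l ^ n * (g n : ℂ) =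
      ∑ n ∈ Icc (1 : ℤ) N, if n ∈ Ioc x (x + (L : ℤ)) then l ^ n * (g n : ℂ) else 0 := by
    intro x
    rw [← Finset.sum_filter, Finset.filter_mem_eq_inter]
    symm
    apply Finset.sum_subset Finset.inter_subset_right
    intro n hn hn2
    have : n ∉ Icc (1 : ℤ) N := fun h => hn2 (Finset.mem_inter.2 ⟨h, hn⟩)
    rw [hg n this]
    simp
  have hconj : ∀ n n' : ℤ, l ^ n' * (starRingEnd ℂ) (l ^ n) = l ^ (n' - n) := by
    intro n n'
    have h1 : ‖l ^ n‖ = 1 := by rw [norm_zpow, hl, one_zpow]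
    rw [← Complex.inv_eq_conj h1, zpow_sub₀ hl0]
    rfl
  have hsq : ∀ x : ℤ, (((‖∑ n ∈ Ioc x (x + L), l ^ n * (g n : ℂ)‖ ^ 2 : ℝ)) : ℂ) =
      ∑ n ∈ Icc (1 : ℤ) N, ∑ n' ∈ Icc (1 : ℤ) N, (if n ∈ Ioc x (x + (L : ℤ)) ∧ n' ∈ Ioc x (x + (L : ℤ)) then (1 : ℂ) else 0) *
        ((g n : ℂ) * (g n' : ℂ) * l ^ (n' - n)) := by
    intro x
    push_cast
    rw [← Complex.conj_mul', hS x, map_sum, Finset.sum_mul_sum]
    apply Finset.sum_congr rfl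
    intro n _
    apply Finset.sum_congr rfl
    intro n' _
    by_cases h1 : n ∈ Ioc x (x + (L : ℤ))
    · by_cases h2 : n' ∈ Ioc x (x + (L : ℤ))
      · rw [if_pos h1, if_pos h2, if_pos ⟨h1, h2⟩, one_mul, ← hconj n n', map_mul, Complex.conj_ofReal]
        ring
      · rw [if_neg h2, if_neg (fun h : n ∈ Ioc x (x + (L : ℤ)) ∧ n' ∈ Ioc x (x + (L : ℤ)) => h2 h.2)]
        ring
    · rw [if_neg h1, if_neg (fun h : n ∈ Ioc x (x + (L : ℤ)) ∧ n' ∈ Ioc x (x + (L : ℤ)) => h1 h.1)]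
      simp
  rw [Complex.ofReal_sum]
  rw [Finset.sum_congr rfl (fun x _ => hsq x), Finset.sum_comm]
  have hL : ∀ n ∈ Icc (1 : ℤ) N, ∑ x ∈ Icc (-(L : ℤ)) N, ∑ n' ∈ Icc (1 : ℤ) N,
      (if n ∈ Ioc x (x + (L : ℤ)) ∧ n' ∈ Ioc x (x + (L : ℤ)) then (1 : ℂ) else 0) * ((g n : ℂ) * (g n' : ℂ) * l ^ (n' - n)) =
      ∑ n' ∈ Icc (1 : ℤ) N, if n' ∈ Ioo (n - (L : ℤ)) (n + (L : ℤ)) then
        ((((L : ℝ) - |((n' - n : ℤ) : ℝ)|) * (g n * g n') : ℝ) : ℂ) * l ^ (n' - n) else 0 := by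
    intro n hn
    rw [Finset.sum_comm]
    apply Finset.sum_congr rfl
    intro n' hn'
    rw [← Finset.sum_mul, Finset.sum_boole]
    have hc := auto_cnt N L n n' hn hn'
    have hc' : ((((Icc (-(L : ℤ)) N).filter (fun x : ℤ => n ∈ Ioc x (x + (L : ℤ)) ∧ n' ∈ Ioc x (x + (L : ℤ)))).card : ℕ) : ℂ) =
        (((if n' ∈ Ioo (n - (L : ℤ)) (n + (L : ℤ)) then (L : ℝ) - |((n' - n : ℤ) : ℝ)| else 0 : ℝ)) : ℂ) := by
      rw [← hc]
      push_cast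
      rfl
    rw [hc']
    split_ifs
    · push_cast
      ring
    · simp
  rw [Finset.sum_congr rfl hL]
  -- the right side
  have hR : ∀ h ∈ Ioo (-(L : ℤ)) L, ((((L : ℝ) - |(h : ℝ)|) * Cr g N h : ℝ) : ℂ) * l ^ h =
      ∑ n ∈ Icc (1 : ℤ) N, ((((L : ℝ) - |(h : ℝ)|) * (g n * g (n + h)) : ℝ) : ℂ) * l ^ h := by
    intro h _
    unfold Cr
    rw [Finset.mul_sum, Complex.ofReal_sum, Finset.sum_mul]
  rw [Finset.sum_congr rfl hR]
  conv_rhs => rw [Finset.sum_comm]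
  apply Finset.sum_congr rfl
  intro n _
  rw [← Finset.sum_filter, Finset.filter_mem_eq_inter]
  have e1 : ∑ n' ∈ Icc (1 : ℤ) N ∩ Ioo (n - L) (n + L), ((((L : ℝ) - |((n' - n : ℤ) : ℝ)|) * (g n * g n') : ℝ) : ℂ) * l ^ (n' - n) =
      ∑ n' ∈ Ioo (n - L) (n + L), ((((L : ℝ) - |((n' - n : ℤ) : ℝ)|) * (g n * g n') : ℝ) : ℂ) * l ^ (n' - n) := by
    apply Finset.sum_subset Finset.inter_subset_right
    intro n' hn hn2
    have : n' ∉ Icc (1 : ℤ) N := fun h => hn2 (Finset.mem_inter.2 ⟨h, hn⟩)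
    rw [hg n' this]
    simp
  rw [e1]
  symm
  apply Finset.sum_bij' (fun h _ => n + h) (fun n' _ => n' - n)
  · intro h hh
    rw [mem_Ioo] at hh ⊢
    constructor <;> linarith [hh.1, hh.2]
  · intro n' hn'
    rw [mem_Ioo] at hn' ⊢
    constructor <;> linarith [hn'.1, hn'.2]
  · intro h _
    ring
  · intro n' _
    ring
  · intro h _
    rw [add_sub_cancel_left]
-- END auto

-- BEGIN four
private theorem four_norm_lr (Q a : ℕ) : ‖lr Q a‖ = 1 := by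
  have e : lr Q a = Complex.exp (((2 * Real.pi * a / Q : ℝ) : ℂ) * Complex.I) := by
    unfold lr
    congr 1
    push_cast
    ring
  rw [e, Complex.norm_exp_ofReal_mul_I]

/-- K4. `Q = 4H`, `L = 2H`. `H² ∑_(|h|<H) Cr² ≤ ∑_(|h|<L) (L-|h|)² Cr² = Q⁻¹ ∑_a (∑_x ‖S_x(l_a)‖²)²` (`auto`, `pars` for `S = Ioo (-L) L`) `≤ B Q⁻¹ ∑_x ∑_a ‖S_x(l_a)‖²`, and `Q⁻¹ ∑_a ‖S_x(l_a)‖² = ∑_(n ∈ Ioc x (x+L)) (g n)² ≤ L` (`pars`), at most
`N + L + 1` values of `x`. -/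
theorem four (g : ℤ → ℝ) (hg1 : ∀ n, |g n| ≤ 1) (N H : ℕ) (hH : 0 < H) (hg : ∀ n, n ∉ Icc (1 : ℤ) N → g n = 0) (B : ℝ)
    (hB : ∀ l : ℂ, ‖l‖ = 1 → ∑ x ∈ Icc (-((2 * H : ℕ) : ℤ)) N, ‖∑ n ∈ Ioc x (x + ((2 * H : ℕ) : ℤ)), l ^ n * (g n : ℂ)‖ ^ 2 ≤ B) :
    (H : ℝ) ^ 2 * ∑ h ∈ Ioo (-(H : ℤ)) H, Cr g N h ^ 2 ≤ B * (2 * H * (N + 2 * H + 1)) := by
  obtain ⟨L, hL⟩ : ∃ L : ℕ, L = 2 * H := ⟨_, rfl⟩
  rw [← hL] at hB
  obtain ⟨Q, hQ⟩ : ∃ Q : ℕ, Q = 4 * H := ⟨_, rfl⟩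
  have hQ0 : 0 < Q := by omega
  have hQR : (0 : ℝ) < Q := by exact_mod_cast hQ0
  obtain ⟨T, hT⟩ : ∃ T : ℕ → ℝ, ∀ a, T a =
      ∑ x ∈ Icc (-(L : ℤ)) N, ‖∑ n ∈ Ioc x (x + (L : ℤ)), lr Q a ^ n * (g n : ℂ)‖ ^ 2 := ⟨_, fun a => rfl⟩
  have hT0 : ∀ a, 0 ≤ T a := fun a => by rw [hT]; exact Finset.sum_nonneg fun _ _ => by positivity
  have hTB : ∀ a, T a ≤ B := fun a => by rw [hT]; exact hB _ (four_norm_lr Q a)
  have hB0 : 0 ≤ B := le_trans (hT0 0) (hTB 0)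
  obtain ⟨f, hf⟩ : ∃ f : ℤ → ℝ, ∀ h, f h = ((L : ℝ) - |(h : ℝ)|) * Cr g N h := ⟨_, fun h => rfl⟩
  -- first Parseval
  have h1 : ∑ a ∈ range Q, T a ^ 2 = Q * ∑ h ∈ Ioo (-(L : ℤ)) L, f h ^ 2 := by
    have h2 := pars Q hQ0 (Ioo (-(L : ℤ)) L) (by
      intro a ha b hb hab
      rw [mem_Ioo] at ha hb
      obtain ⟨c, hc⟩ := hab
      have hc0 : c = 0 := by
        by_contra hne
        have h3 : |a - b| < Q := by
          rw [abs_lt]
          constructor <;> push_cast [hQ, hL] at * <;> linarith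
        rw [hc, abs_mul, Nat.abs_cast] at h3
        have h4 : 1 ≤ |c| := Int.one_le_abs hne
        nlinarith
      rw [hc0, mul_zero] at hc
      linarith) (fun h => (f h : ℂ))
    have h3 : ∀ a ∈ range Q, ‖∑ h ∈ Ioo (-(L : ℤ)) L, (f h : ℂ) * lr Q a ^ h‖ ^ 2 = T a ^ 2 := by
      intro a _
      have h4 := auto g N L hg (lr Q a) (four_norm_lr Q a)
      rw [← hT a] at h4
      have h5 : ∑ h ∈ Ioo (-(L : ℤ)) L, (f h : ℂ) * lr Q a ^ h = (T a : ℂ) := by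
        rw [h4]
        refine Finset.sum_congr rfl fun h _ => ?_
        rw [hf]
      rw [h5, Complex.norm_real, Real.norm_eq_abs, sq_abs]
    rw [Finset.sum_congr rfl h3] at h2
    rw [h2]
    congr 1
    refine Finset.sum_congr rfl fun h _ => ?_
    rw [Complex.norm_real, Real.norm_eq_abs, sq_abs]
  -- second Parseval
  have h6 : ∑ a ∈ range Q, T a ≤ Q * (L * (N + L + 1)) := by
    have h7 : ∀ x : ℤ, ∑ a ∈ range Q, ‖∑ n ∈ Ioc x (x + (L : ℤ)), lr Q a ^ n * (g n : ℂ)‖ ^ 2 ≤ Q * L := by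
      intro x
      have h8 := pars Q hQ0 (Ioc x (x + (L : ℤ))) (by
        intro a ha b hb hab
        rw [mem_Ioc] at ha hb
        obtain ⟨c, hc⟩ := hab
        have hc0 : c = 0 := by
          by_contra hne
          have h3 : |a - b| < Q := by
            rw [abs_lt]
            constructor <;> push_cast [hQ, hL] at * <;> linarith
          rw [hc, abs_mul, Nat.abs_cast] at h3
          have h4 : 1 ≤ |c| := Int.one_le_abs hne
          nlinarith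
        rw [hc0, mul_zero] at hc
        linarith) (fun n => (g n : ℂ))
      have h9 : ∑ a ∈ range Q, ‖∑ n ∈ Ioc x (x + (L : ℤ)), lr Q a ^ n * (g n : ℂ)‖ ^ 2 =
          Q * ∑ n ∈ Ioc x (x + (L : ℤ)), ‖(g n : ℂ)‖ ^ 2 := by
        rw [← h8]
        refine Finset.sum_congr rfl fun a _ => ?_
        congr 2
        exact Finset.sum_congr rfl fun n _ => mul_comm _ _
      rw [h9]
      refine mul_le_mul_of_nonneg_left ?_ hQR.le
      calc ∑ n ∈ Ioc x (x + (L : ℤ)), ‖(g n : ℂ)‖ ^ 2 ≤ ∑ n ∈ Ioc x (x + (L : ℤ)), (1 : ℝ) := by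
            refine Finset.sum_le_sum fun n _ => ?_
            rw [Complex.norm_real, Real.norm_eq_abs]
            exact pow_le_one₀ (abs_nonneg _) (hg1 n)
        _ = L := by
            rw [Finset.sum_const, Int.card_Ioc, nsmul_eq_mul, mul_one]
            congr 1
            omega
    have h10 : ∑ a ∈ range Q, T a = ∑ x ∈ Icc (-(L : ℤ)) N, ∑ a ∈ range Q,
        ‖∑ n ∈ Ioc x (x + (L : ℤ)), lr Q a ^ n * (g n : ℂ)‖ ^ 2 := by
      rw [Finset.sum_comm]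
      exact Finset.sum_congr rfl fun a _ => hT a
    rw [h10]
    calc ∑ x ∈ Icc (-(L : ℤ)) N, ∑ a ∈ range Q, ‖∑ n ∈ Ioc x (x + (L : ℤ)), lr Q a ^ n * (g n : ℂ)‖ ^ 2
        ≤ ∑ x ∈ Icc (-(L : ℤ)) (N : ℤ), ((Q : ℝ) * L) := Finset.sum_le_sum fun x _ => h7 x
      _ = Q * (L * (N + L + 1)) := by
          rw [Finset.sum_const, Int.card_Icc, nsmul_eq_mul]
          have e : ((N : ℤ) + 1 - -(L : ℤ)).toNat = N + L + 1 := by omega
          rw [e]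
          push_cast
          ring
  have h11 : ∑ a ∈ range Q, T a ^ 2 ≤ B * ∑ a ∈ range Q, T a := by
    rw [Finset.mul_sum]
    refine Finset.sum_le_sum fun a _ => ?_
    rw [sq]
    exact mul_le_mul_of_nonneg_right (hTB a) (hT0 a)
  have h12 : ∑ h ∈ Ioo (-(L : ℤ)) L, f h ^ 2 ≤ B * (L * (N + L + 1)) := by
    have h13 : (Q : ℝ) * ∑ h ∈ Ioo (-(L : ℤ)) L, f h ^ 2 ≤ Q * (B * (L * (N + L + 1))) := by
      calc (Q : ℝ) * ∑ h ∈ Ioo (-(L : ℤ)) L, f h ^ 2 ≤ B * ∑ a ∈ range Q, T a := by rw [← h1]; exact h11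
        _ ≤ B * (Q * (L * (N + L + 1))) := mul_le_mul_of_nonneg_left h6 hB0
        _ = Q * (B * (L * (N + L + 1))) := by ring
    exact le_of_mul_le_mul_left h13 hQR
  have h14 : (H : ℝ) ^ 2 * ∑ h ∈ Ioo (-(H : ℤ)) H, Cr g N h ^ 2 ≤ ∑ h ∈ Ioo (-(L : ℤ)) L, f h ^ 2 := by
    have hsub : Ioo (-(H : ℤ)) (H : ℤ) ⊆ Ioo (-(L : ℤ)) (L : ℤ) := by
      intro h hh
      rw [mem_Ioo] at hh ⊢
      push_cast [hL]
      constructor <;> linarith [hh.1, hh.2]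
    refine le_trans ?_ (Finset.sum_le_sum_of_subset_of_nonneg hsub fun _ _ _ => sq_nonneg _)
    rw [Finset.mul_sum]
    refine Finset.sum_le_sum fun h hh => ?_
    rw [hf, mul_pow]
    rw [mem_Ioo] at hh
    have h15 : |(h : ℝ)| ≤ H := by
      rw [abs_le]
      constructor
      · have := hh.1.le
        exact_mod_cast this
      · have := hh.2.le
        exact_mod_cast this
    have h16 : (H : ℝ) ≤ (L : ℝ) - |(h : ℝ)| := by
      have : (L : ℝ) = 2 * H := by rw [hL]; push_cast; ring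
      linarith
    exact mul_le_mul_of_nonneg_right (pow_le_pow_left₀ (by positivity) h16 2) (sq_nonneg _)
  have h17 : (L : ℝ) = 2 * H := by rw [hL]; push_cast; ring
  rw [h17] at h12
  linarith
-- END four

-- BEGIN mrt0
private theorem mrt0_cast {M : Type*} [AddCommMonoid M] (f : ℤ → M) (a b : ℕ) :
    ∑ n ∈ Ioc (a : ℤ) b, f n = ∑ n ∈ Ioc a b, f (n : ℤ) := by
  symm
  refine Finset.sum_nbij' (fun n : ℕ => (n : ℤ)) (fun n : ℤ => n.toNat) ?_ ?_ ?_ ?_ ?_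
  · intro n hn
    rw [mem_Ioc] at hn ⊢
    omega
  · intro n hn
    rw [mem_Ioc] at hn ⊢
    omega
  · intro n _
    simp
  · intro n hn
    rw [mem_Ioc] at hn
    omega
  · intro n _
    rfl

/-- the part of `mob` on `[1, N]` -/
private noncomputable def mrt0_g (N : ℕ) (n : ℤ) : ℝ := if n ∈ Icc (1 : ℤ) N then mob n else 0

private theorem mrt0_mob_le (n : ℤ) : |mob n| ≤ 1 := by
  unfold mob
  have h1 : |ArithmeticFunction.moebius n.natAbs| ≤ 1 := ArithmeticFunction.abs_moebius_le_one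
  exact_mod_cast h1

private theorem mrt0_g_le (N : ℕ) (n : ℤ) : |mrt0_g N n| ≤ 1 := by
  unfold mrt0_g
  split_ifs
  · exact mrt0_mob_le n
  · simp

private theorem mrt0_g_out (N : ℕ) (n : ℤ) (h : n ∉ Icc (1 : ℤ) N) : mrt0_g N n = 0 := by
  unfold mrt0_g
  rw [if_neg h]

private theorem mrt0_g_in (N : ℕ) (n : ℤ) (h0 : 0 ≤ n) (h1 : n ≤ N) : mrt0_g N n = mob n := by
  unfold mrt0_g
  rcases h0.eq_or_lt with h | h
  · subst h
    split_ifs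
    · rfl
    · simp [mob]
  · rw [if_pos]
    rw [mem_Icc]
    omega

/-- window sums for `g` -/
private theorem mrt0_win (l : ℂ) (hl : ‖l‖ = 1) (N L : ℕ) (x : ℤ) :
    ‖∑ n ∈ Ioc x (x + (L : ℤ)), l ^ n * (mrt0_g N n : ℂ)‖ ≤ L := by
  refine (norm_sum_le _ _).trans ?_
  have h1 : ∀ n ∈ Ioc x (x + (L : ℤ)), ‖l ^ n * (mrt0_g N n : ℂ)‖ ≤ 1 := by
    intro n _
    rw [norm_mul, norm_zpow, hl, one_zpow, one_mul, Complex.norm_real]
    exact mrt0_g_le N n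
  refine (Finset.sum_le_card_nsmul _ _ 1 h1).trans ?_
  rw [Int.card_Ioc]
  simp

private theorem mrt0_B (l : ℂ) (hl : ‖l‖ = 1) (N L : ℕ) (hL : 0 < L) (D : ℝ)
    (hD : ∑ m ∈ range N, ‖∑ n ∈ Ioc m (m + L), l ^ n * ((ArithmeticFunction.moebius n : ℤ) : ℂ)‖ ≤ D) :
    ∑ x ∈ Icc (-(L : ℤ)) N, ‖∑ n ∈ Ioc x (x + (L : ℤ)), l ^ n * (mrt0_g N n : ℂ)‖ ^ 2 ≤
      L * (D + 2 * (L : ℝ) ^ 2) := by
  have h1 : ∑ x ∈ Icc (-(L : ℤ)) N, ‖∑ n ∈ Ioc x (x + (L : ℤ)), l ^ n * (mrt0_g N n : ℂ)‖ ^ 2 ≤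
      L * ∑ x ∈ Icc (-(L : ℤ)) N, ‖∑ n ∈ Ioc x (x + (L : ℤ)), l ^ n * (mrt0_g N n : ℂ)‖ := by
    rw [Finset.mul_sum]
    refine Finset.sum_le_sum fun x _ => ?_
    rw [sq]
    exact mul_le_mul_of_nonneg_right (mrt0_win l hl N L x) (norm_nonneg _)
  refine h1.trans (mul_le_mul_of_nonneg_left ?_ (Nat.cast_nonneg L))
  rw [← Finset.sum_filter_add_sum_filter_not (Icc (-(L : ℤ)) N) (fun x : ℤ => 0 ≤ x ∧ x + L ≤ N)]
  refine add_le_add ?_ ?_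
  · refine le_trans ?_ hD
    have h2 : ∀ x ∈ (Icc (-(L : ℤ)) N).filter (fun x : ℤ => 0 ≤ x ∧ x + L ≤ N),
        ‖∑ n ∈ Ioc x (x + (L : ℤ)), l ^ n * (mrt0_g N n : ℂ)‖ =
        ‖∑ n ∈ Ioc x.toNat (x.toNat + L), l ^ n * ((ArithmeticFunction.moebius n : ℤ) : ℂ)‖ := by
      intro x hx
      rw [mem_filter] at hx
      obtain ⟨m, hm⟩ := Int.eq_ofNat_of_zero_le hx.2.1
      subst hm
      congr 1
      rw [Int.toNat_natCast, ← Nat.cast_add, mrt0_cast]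
      refine Finset.sum_congr rfl fun n hn => ?_
      rw [mem_Ioc] at hn
      rw [mrt0_g_in N n (by omega) (by omega), zpow_natCast]
      unfold mob
      simp
    rw [Finset.sum_congr rfl h2]
    rw [← Finset.sum_image (f := fun m : ℕ => ‖∑ n ∈ Ioc m (m + L), l ^ n * ((ArithmeticFunction.moebius n : ℤ) : ℂ)‖)
      (g := Int.toNat)]
    · refine Finset.sum_le_sum_of_subset_of_nonneg ?_ fun _ _ _ => norm_nonneg _
      intro m hm
      rw [mem_image] at hm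
      obtain ⟨x, hx, hxm⟩ := hm
      rw [mem_filter] at hx
      rw [mem_range]
      omega
    · intro x hx y hy hxy
      rw [Finset.mem_coe, mem_filter] at hx hy
      omega
  · refine (Finset.sum_le_card_nsmul _ _ (L : ℝ) fun x _ => mrt0_win l hl N L x).trans ?_
    have h3 : ((Icc (-(L : ℤ)) N).filter (fun x : ℤ => ¬ (0 ≤ x ∧ x + L ≤ N))).card ≤ 2 * L := by
      have h4 : (Icc (-(L : ℤ)) N).filter (fun x : ℤ => ¬ (0 ≤ x ∧ x + L ≤ N)) ⊆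
          Ico (-(L : ℤ)) 0 ∪ Ioc ((N : ℤ) - L) N := by
        intro x hx
        rw [mem_filter, mem_Icc] at hx
        rw [mem_union, mem_Ico, mem_Ioc]
        omega
      refine (Finset.card_le_card h4).trans ((Finset.card_union_le _ _).trans ?_)
      rw [Int.card_Ico, Int.card_Ioc]
      omega
    rw [nsmul_eq_mul]
    have h5 : (((Icc (-(L : ℤ)) N).filter (fun x : ℤ => ¬ (0 ≤ x ∧ x + L ≤ N))).card : ℝ) ≤ 2 * L := by
      exact_mod_cast h3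
    nlinarith [Nat.cast_nonneg (α := ℝ) L]

/-- correlations as sums over all shifts -/
private theorem mrt0_cr (N H : ℕ) (i j : ℕ) (hi : i < H) :
    ∑ w ∈ Icc (-(H : ℤ)) N, mrt0_g N (w + i) * mrt0_g N (w + j) = Cr (mrt0_g N) N ((j : ℤ) - i) := by
  unfold Cr
  have h1 : ∑ w ∈ Icc (-(H : ℤ)) N, mrt0_g N (w + i) * mrt0_g N (w + j) =
      ∑ n ∈ Icc (-(H : ℤ) + i) (N + i), mrt0_g N n * mrt0_g N (n + ((j : ℤ) - i)) := by
    refine Finset.sum_nbij' (fun w => w + i) (fun n => n - i) ?_ ?_ ?_ ?_ ?_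
    · intro w hw
      rw [mem_Icc] at hw ⊢
      omega
    · intro w hw
      rw [mem_Icc] at hw ⊢
      omega
    · intro w _
      ring
    · intro w _
      ring
    · intro w _
      congr 2
      ring
  rw [h1]
  symm
  refine Finset.sum_subset ?_ ?_
  · intro n hn
    rw [mem_Icc] at hn ⊢
    omega
  · intro n _ hn
    rw [mrt0_g_out N n hn, zero_mul]

private theorem mrt0_sq (N H : ℕ) (c : ℕ → ℝ) (hc : ∀ i, |c i| ≤ 1) :
    ∑ w ∈ Icc (-(H : ℤ)) N, (∑ i ∈ range H, c i * mrt0_g N (w + i)) ^ 2 ≤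
      H * ∑ h ∈ Ioo (-(H : ℤ)) H, |Cr (mrt0_g N) N h| := by
  have h1 : ∑ w ∈ Icc (-(H : ℤ)) N, (∑ i ∈ range H, c i * mrt0_g N (w + i)) ^ 2 =
      ∑ i ∈ range H, ∑ j ∈ range H, c i * c j * Cr (mrt0_g N) N ((j : ℤ) - i) := by
    have h2 : ∀ w : ℤ, (∑ i ∈ range H, c i * mrt0_g N (w + i)) ^ 2 =
        ∑ i ∈ range H, ∑ j ∈ range H, c i * c j * (mrt0_g N (w + i) * mrt0_g N (w + j)) := by
      intro w
      rw [sq, Finset.sum_mul_sum]
      refine Finset.sum_congr rfl fun i _ => Finset.sum_congr rfl fun j _ => ?_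
      ring
    rw [Finset.sum_congr rfl fun w _ => h2 w, Finset.sum_comm]
    refine Finset.sum_congr rfl fun i hi => ?_
    rw [Finset.sum_comm]
    refine Finset.sum_congr rfl fun j _ => ?_
    rw [← Finset.mul_sum, mrt0_cr N H i j (mem_range.1 hi)]
  rw [h1]
  have h3 : ∀ i ∈ range H, ∑ j ∈ range H, c i * c j * Cr (mrt0_g N) N ((j : ℤ) - i) ≤
      ∑ h ∈ Ioo (-(H : ℤ)) H, |Cr (mrt0_g N) N h| := by
    intro i hi
    rw [mem_range] at hi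
    have h4 : ∑ j ∈ range H, c i * c j * Cr (mrt0_g N) N ((j : ℤ) - i) ≤
        ∑ j ∈ range H, |Cr (mrt0_g N) N ((j : ℤ) - i)| := by
      refine Finset.sum_le_sum fun j _ => ?_
      refine (le_abs_self _).trans ?_
      rw [abs_mul, abs_mul]
      have h5 : |c i| * |c j| ≤ 1 := mul_le_one₀ (hc i) (abs_nonneg _) (hc j)
      calc |c i| * |c j| * |Cr (mrt0_g N) N ((j : ℤ) - i)| ≤ 1 * |Cr (mrt0_g N) N ((j : ℤ) - i)| :=
            mul_le_mul_of_nonneg_right h5 (abs_nonneg _)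
        _ = |Cr (mrt0_g N) N ((j : ℤ) - i)| := one_mul _
    refine h4.trans ?_
    rw [← Finset.sum_image (f := fun h : ℤ => |Cr (mrt0_g N) N h|) (g := fun j : ℕ => (j : ℤ) - i)]
    · refine Finset.sum_le_sum_of_subset_of_nonneg ?_ fun _ _ _ => abs_nonneg _
      intro h hh
      rw [mem_image] at hh
      obtain ⟨j, hj, hjh⟩ := hh
      rw [mem_range] at hj
      rw [mem_Ioo]
      omega
    · intro a _ b _ hab
      dsimp only at hab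
      omega
  refine (Finset.sum_le_card_nsmul _ _ _ h3).trans ?_
  rw [card_range, nsmul_eq_mul]

/-- K5. Matomaki-Radziwill-Tao. `g = μ` on `[1, N']`, `N' = N + H`. Cauchy-Schwarz over `w`; `∑_w (∑_i c_i g (w+i))² ≤ ∑_(i,i') |Cr g N' (i - i')|`-ish `≤ H ∑_(|h|<H) |Cr h| ≤ H √(2H) √(∑ Cr²)`; `four` with `B = 2H (δ N' 2H + 20 H²)`: `‖S_x‖² ≤ 2H ‖S_x‖`, and `circ` with
`2H` for `H`, `N'` for `N` (the `x < 0` and the `x > N' - 2H` give at most `10 H²`). -/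
theorem mrt0 (ε : ℝ) (hε : 0 < ε) : ∃ H₀ : ℕ, ∀ H : ℕ, H₀ ≤ H → ∃ N₀ : ℕ, ∀ N : ℕ, N₀ ≤ N → ∀ c : ℕ → ℝ, (∀ i, |c i| ≤ 1) →
      ∑ w ∈ range N, |∑ i ∈ range H, c i * mob ((w : ℤ) + i)| ≤ ε * N * H := by
  obtain ⟨δ, hδ⟩ : ∃ δ : ℝ, δ = ε ^ 4 / 80 := ⟨_, rfl⟩
  have hδ0 : 0 < δ := by rw [hδ]; positivity
  obtain ⟨H₁, hH₁⟩ := circ δ hδ0
  refine ⟨H₁ + 1, fun H hH => ?_⟩
  have hHpos : 0 < H := by omega
  obtain ⟨N₁, hN₁⟩ := hH₁ (2 * H) (by omega)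
  obtain ⟨N₂, hN₂⟩ := exists_nat_ge (8 * (H : ℝ) / δ)
  refine ⟨N₁ + N₂ + 3 * H + 1, fun N hN c hc => ?_⟩
  have hHr : (1 : ℝ) ≤ H := by exact_mod_cast hHpos
  have hNr : (N₂ : ℝ) + 3 * H + 1 ≤ N := by
    have : N₂ + 3 * H + 1 ≤ N := by omega
    exact_mod_cast this
  have hNpos : (0 : ℝ) < N := by
    have := Nat.cast_nonneg (α := ℝ) N₂
    linarith
  -- the bound of `four`
  obtain ⟨B, hB⟩ : ∃ B : ℝ, B = ((2 * H : ℕ) : ℝ) *
    (δ * ((N + H : ℕ) : ℝ) * ((2 * H : ℕ) : ℝ) + 2 * ((2 * H : ℕ) : ℝ) ^ 2) := ⟨_, rfl⟩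
  have h4 := four (mrt0_g (N + H)) (mrt0_g_le (N + H)) (N + H) H hHpos (mrt0_g_out (N + H)) B (by
    intro l hl
    rw [hB]
    exact mrt0_B l hl (N + H) (2 * H) (by omega) _ (hN₁ (N + H) (by omega) l hl))
  -- Cauchy-Schwarz twice
  obtain ⟨S, hS⟩ : ∃ S : ℝ, S = ∑ w ∈ range N, |∑ i ∈ range H, c i * mob ((w : ℤ) + i)| := ⟨_, rfl⟩
  obtain ⟨T, hT⟩ : ∃ T : ℝ, T = ∑ h ∈ Ioo (-(H : ℤ)) H, |Cr (mrt0_g (N + H)) (N + H) h| := ⟨_, rfl⟩
  obtain ⟨Q, hQ⟩ : ∃ Q : ℝ, Q = ∑ h ∈ Ioo (-(H : ℤ)) H, Cr (mrt0_g (N + H)) (N + H) h ^ 2 := ⟨_, rfl⟩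
  rw [← hQ] at h4
  rw [← hS]
  have hS0 : 0 ≤ S := by
    rw [hS]
    exact Finset.sum_nonneg fun _ _ => abs_nonneg _
  have hT0 : 0 ≤ T := by
    rw [hT]
    exact Finset.sum_nonneg fun _ _ => abs_nonneg _
  have h5 : S ^ 2 ≤ N * (H * T) := by
    have h6 : S ^ 2 ≤ N * ∑ w ∈ range N, |∑ i ∈ range H, c i * mob ((w : ℤ) + i)| ^ 2 := by
      rw [hS]
      have h7 := sq_sum_le_card_mul_sum_sq (s := range N)
        (f := fun w : ℕ => |∑ i ∈ range H, c i * mob ((w : ℤ) + i)|)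
      rwa [card_range] at h7
    refine h6.trans (mul_le_mul_of_nonneg_left ?_ (Nat.cast_nonneg N))
    rw [hT]
    refine le_trans ?_ (mrt0_sq (N + H) H c hc)
    have h8 : ∀ w ∈ range N, |∑ i ∈ range H, c i * mob ((w : ℤ) + i)| ^ 2 =
        (∑ i ∈ range H, c i * mrt0_g (N + H) ((w : ℤ) + i)) ^ 2 := by
      intro w hw
      rw [mem_range] at hw
      rw [sq_abs]
      congr 1
      refine Finset.sum_congr rfl fun i hi => ?_
      rw [mem_range] at hi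
      rw [mrt0_g_in (N + H) ((w : ℤ) + i) (by omega) (by push_cast; omega)]
    rw [Finset.sum_congr rfl h8]
    rw [← Finset.sum_image (f := fun w : ℤ => (∑ i ∈ range H, c i * mrt0_g (N + H) (w + i)) ^ 2)
      (g := fun w : ℕ => (w : ℤ))]
    · refine Finset.sum_le_sum_of_subset_of_nonneg ?_ fun _ _ _ => sq_nonneg _
      intro w hw
      rw [mem_image] at hw
      obtain ⟨m, hm, hmw⟩ := hw
      rw [mem_range] at hm
      rw [mem_Icc]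
      push_cast
      omega
    · intro a _ b _ hab
      dsimp only at hab
      omega
  have h9 : T ^ 2 ≤ 2 * H * Q := by
    rw [hT, hQ]
    have h10 := sq_sum_le_card_mul_sum_sq (s := Ioo (-(H : ℤ)) H)
      (f := fun h : ℤ => |Cr (mrt0_g (N + H)) (N + H) h|)
    simp only [sq_abs] at h10
    refine h10.trans (mul_le_mul_of_nonneg_right ?_ (Finset.sum_nonneg fun _ _ => sq_nonneg _))
    have h11 : (Ioo (-(H : ℤ)) H).card ≤ 2 * H := by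
      rw [Int.card_Ioo]
      omega
    exact_mod_cast h11
  by_contra hcon
  rw [not_le] at hcon
  have hNH : 0 < (N : ℝ) * H := by positivity
  have h12 : (ε * N * H) ^ 2 < N * (H * T) := by
    refine lt_of_lt_of_le ?_ h5
    exact pow_lt_pow_left₀ hcon (by positivity) two_ne_zero
  have h13 : ε ^ 2 * (N * H) < T := by
    have h14 : (N * H : ℝ) * (ε ^ 2 * (N * H)) < (N * H : ℝ) * T := by
      calc (N * H : ℝ) * (ε ^ 2 * (N * H)) = (ε * N * H) ^ 2 := by ring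
        _ < N * (H * T) := h12
        _ = (N * H : ℝ) * T := by ring
    exact lt_of_mul_lt_mul_left h14 hNH.le
  have h15 : (ε ^ 2 * (N * H)) ^ 2 < 2 * H * Q := by
    refine lt_of_lt_of_le ?_ h9
    exact pow_lt_pow_left₀ h13 (by positivity) two_ne_zero
  -- upper bound
  have hN'1 : ((N + H : ℕ) : ℝ) ≤ 2 * N := by
    push_cast
    linarith [Nat.cast_nonneg (α := ℝ) N₂]
  have hN'2 : ((N + H : ℕ) : ℝ) + 2 * H + 1 ≤ 2 * N := by
    push_cast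
    linarith [Nat.cast_nonneg (α := ℝ) N₂]
  have h16 : 8 * (H : ℝ) ≤ δ * N := by
    have h17 : 8 * (H : ℝ) / δ ≤ N := by linarith
    rw [div_le_iff₀ hδ0] at h17
    linarith
  have hB1 : B ≤ 10 * δ * N * H ^ 2 := by
    rw [hB]
    push_cast
    push_cast at hN'1
    have h18 : δ * ((N : ℝ) + H) * (2 * H) ≤ δ * (2 * N) * (2 * H) := by
      have : δ * ((N : ℝ) + H) ≤ δ * (2 * N) := mul_le_mul_of_nonneg_left hN'1 hδ0.le
      exact mul_le_mul_of_nonneg_right this (by positivity)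
    have h19 : 2 * (2 * (H : ℝ)) ^ 2 ≤ δ * N * H := by
      calc 2 * (2 * (H : ℝ)) ^ 2 = 8 * (H : ℝ) * H := by ring
        _ ≤ δ * N * H := mul_le_mul_of_nonneg_right h16 (by positivity)
    calc 2 * (H : ℝ) * (δ * ((N : ℝ) + H) * (2 * H) + 2 * (2 * (H : ℝ)) ^ 2)
        ≤ 2 * (H : ℝ) * (δ * (2 * N) * (2 * H) + δ * N * H) :=
          mul_le_mul_of_nonneg_left (add_le_add h18 h19) (by positivity)
      _ = 10 * δ * N * H ^ 2 := by ring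
  have hB0 : 0 ≤ B := by
    rw [hB]
    positivity
  have h20 : (H : ℝ) ^ 2 * Q ≤ 10 * δ * N * H ^ 2 * (2 * H * (2 * N)) := by
    refine h4.trans ?_
    refine mul_le_mul hB1 ?_ (by positivity) (by positivity)
    exact mul_le_mul_of_nonneg_left hN'2 (by positivity)
  have h21 : (H : ℝ) ^ 2 * (ε ^ 2 * (N * H)) ^ 2 < 2 * H * ((H : ℝ) ^ 2 * Q) := by
    calc (H : ℝ) ^ 2 * (ε ^ 2 * (N * H)) ^ 2 < (H : ℝ) ^ 2 * (2 * H * Q) :=
          mul_lt_mul_of_pos_left h15 (by positivity)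
      _ = 2 * H * ((H : ℝ) ^ 2 * Q) := by ring
  have h22 : 2 * (H : ℝ) * ((H : ℝ) ^ 2 * Q) ≤ 2 * H * (10 * δ * N * H ^ 2 * (2 * H * (2 * N))) :=
    mul_le_mul_of_nonneg_left h20 (by positivity)
  have h23 : 2 * (H : ℝ) * (10 * δ * N * H ^ 2 * (2 * H * (2 * N))) = (H : ℝ) ^ 2 * (ε ^ 2 * (N * H)) ^ 2 := by
    rw [hδ]
    ring
  linarith
-- END mrt0

-- BEGIN mrtp
/-- the coefficients of the windows of the `w = v k + r`, `k = κ` mod `M` -/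
private noncomputable def mrtp_c (M v : ℕ) (n₀ : ℤ) (H : ℕ) (c : ℕ → ℝ) (r κ j : ℕ) : ℝ :=
  if (r ≤ v * j ∧ v * j - r < H) ∧ (M : ℤ) ∣ (v : ℤ) * ((κ : ℤ) + j) - n₀ then c (v * j - r) else 0

private theorem mrtp_key (M v : ℕ) (hM : 0 < M) (hv : 0 < v) (n₀ : ℤ) (H : ℕ) (c : ℕ → ℝ) (w : ℕ) :
    ∑ i ∈ range H, c i * gg M v n₀ ((w : ℤ) + i) =
      ∑ j ∈ range H, mrtp_c M v n₀ H c (w % v) (w / v % M) j * mob (((w / v : ℕ) : ℤ) + j) := by
  have hL : ∑ i ∈ range H, c i * gg M v n₀ ((w : ℤ) + i) =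
      ∑ i ∈ (range H).filter (fun i => v ∣ w + i), c i * gg M v n₀ ((w : ℤ) + i) := by
    rw [Finset.sum_filter]
    refine Finset.sum_congr rfl fun i _ => ?_
    split_ifs with h
    · rfl
    · unfold gg
      rw [if_neg, mul_zero]
      rintro ⟨h1, _⟩
      exact h (by exact_mod_cast h1)
  have hR : ∑ j ∈ range H, mrtp_c M v n₀ H c (w % v) (w / v % M) j * mob (((w / v : ℕ) : ℤ) + j) =
      ∑ j ∈ (range H).filter (fun j => w % v ≤ v * j ∧ v * j - w % v < H),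
        mrtp_c M v n₀ H c (w % v) (w / v % M) j * mob (((w / v : ℕ) : ℤ) + j) := by
    rw [Finset.sum_filter]
    refine Finset.sum_congr rfl fun j _ => ?_
    split_ifs with h
    · rfl
    · unfold mrtp_c
      rw [if_neg (fun h' => h h'.1), zero_mul]
  rw [hL, hR]
  have hw : v * (w / v) + w % v = w := Nat.div_add_mod w v
  have hr : w % v < v := Nat.mod_lt w hv
  refine Finset.sum_bij' (fun i _ => (w % v + i) / v) (fun j _ => v * j - w % v) ?_ ?_ ?_ ?_ ?_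
  · intro i hi
    rw [Finset.mem_filter, Finset.mem_range] at hi
    obtain ⟨hi1, hi2⟩ := hi
    have hd : v ∣ w % v + i := by
      rw [← hw, Nat.add_assoc] at hi2
      exact (Nat.dvd_add_right (Dvd.intro _ rfl)).mp hi2
    obtain ⟨j, hj⟩ := hd
    have hj' : (w % v + i) / v = j := by rw [hj]; exact Nat.mul_div_cancel_left j hv
    rw [Finset.mem_filter, Finset.mem_range, hj']
    refine ⟨?_, by omega, by omega⟩
    by_contra hcon
    push Not at hcon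
    have h1 : v * H ≤ v * j := Nat.mul_le_mul_left v hcon
    have h2 : v * H < v + H := by omega
    have h3 : 1 ≤ H := by omega
    obtain ⟨v', rfl⟩ : ∃ v', v = v' + 1 := ⟨v - 1, by omega⟩
    obtain ⟨H', rfl⟩ : ∃ H', H = H' + 1 := ⟨H - 1, by omega⟩
    have h4 : (v' + 1) * (H' + 1) = v' * H' + v' + H' + 1 := by ring
    have h5 : v' * H' < 1 := by omega
    have h6 : v' * H' = 0 := by omega
    rcases Nat.mul_eq_zero.mp h6 with h7 | h7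
    · subst h7; omega
    · subst h7
      have : j = 0 ∨ 1 ≤ j := by omega
      omega
  · intro j hj
    rw [Finset.mem_filter, Finset.mem_range] at hj
    obtain ⟨_, hj1, hj2⟩ := hj
    rw [Finset.mem_filter, Finset.mem_range]
    refine ⟨hj2, ?_⟩
    have : w + (v * j - w % v) = v * (w / v + j) := by
      rw [Nat.mul_add]; omega
    rw [this]
    exact Dvd.intro _ rfl
  · intro i hi
    rw [Finset.mem_filter, Finset.mem_range] at hi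
    obtain ⟨hi1, hi2⟩ := hi
    have hd : v ∣ w % v + i := by
      rw [← hw, Nat.add_assoc] at hi2
      exact (Nat.dvd_add_right (Dvd.intro _ rfl)).mp hi2
    show v * ((w % v + i) / v) - w % v = i
    rw [Nat.mul_div_cancel' hd]
    omega
  · intro j hj
    rw [Finset.mem_filter, Finset.mem_range] at hj
    obtain ⟨_, hj1, hj2⟩ := hj
    show (w % v + (v * j - w % v)) / v = j
    have : w % v + (v * j - w % v) = v * j := by omega
    rw [this]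
    exact Nat.mul_div_cancel_left j hv
  · intro i hi
    rw [Finset.mem_filter, Finset.mem_range] at hi
    obtain ⟨hi1, hi2⟩ := hi
    have hd : v ∣ w % v + i := by
      rw [← hw, Nat.add_assoc] at hi2
      exact (Nat.dvd_add_right (Dvd.intro _ rfl)).mp hi2
    obtain ⟨j, hj⟩ := hd
    have hj' : (w % v + i) / v = j := by rw [hj]; exact Nat.mul_div_cancel_left j hv
    show c i * gg M v n₀ ((w : ℤ) + i) = mrtp_c M v n₀ H c (w % v) (w / v % M) ((w % v + i) / v) *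
      mob (((w / v : ℕ) : ℤ) + (((w % v + i) / v : ℕ) : ℤ))
    rw [hj']
    have hi' : v * j - w % v = i := by omega
    have hwi : (w : ℤ) + i = (v : ℤ) * (((w / v : ℕ) : ℤ) + j) := by
      have : w + i = v * (w / v + j) := by rw [Nat.mul_add]; omega
      exact_mod_cast this
    have hv0 : (v : ℤ) ≠ 0 := by exact_mod_cast hv.ne'
    have hiff : ((M : ℤ) ∣ (v : ℤ) * (((w / v % M : ℕ) : ℤ) + j) - n₀) ↔
        ((M : ℤ) ∣ (v : ℤ) * (((w / v : ℕ) : ℤ) + j) - n₀) := by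
      have h1 : (v : ℤ) * (((w / v : ℕ) : ℤ) + j) - n₀ =
          (v : ℤ) * (((w / v % M : ℕ) : ℤ) + j) - n₀ + (M : ℤ) * ((v : ℤ) * ((w / v / M : ℕ) : ℤ)) := by
        have h2 : ((w / v : ℕ) : ℤ) = (M : ℤ) * ((w / v / M : ℕ) : ℤ) + ((w / v % M : ℕ) : ℤ) := by
          exact_mod_cast (Nat.div_add_mod (w / v) M).symm
        rw [h2]
        have h3 : (((w / v % M : ℕ) : ℤ)) = (((w / v % M : ℕ) : ℤ)) := rfl
        ring
      rw [h1]
      exact (Int.dvd_add_left (Dvd.intro _ rfl)).symm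
    unfold mrtp_c gg
    rw [hwi, Int.mul_ediv_cancel_left _ hv0, hi']
    by_cases hM' : (M : ℤ) ∣ (v : ℤ) * (((w / v : ℕ) : ℤ) + j) - n₀
    · rw [if_pos ⟨Dvd.intro _ rfl, hM'⟩, if_pos ⟨⟨by omega, hi1⟩, hiff.mpr hM'⟩]
    · rw [if_neg (fun h => hM' h.2), if_neg (fun h => hM' (hiff.mp h.2)), mul_zero, zero_mul]

/-- K6. `w = v k + r`, `0 ≤ r < v`, `k` in the class `κ` mod `M`: the `i` with `v ∣ w + i` are `i = v j - r`, `(w + i) / v = k + j`, and the coefficient `c'_j = c_(vj-r) [0 ≤ vj - r < H] [M ∣ v (κ + j) - n₀]` does not depend on `k`. `mrt0` with `J = H / v + 1`, `ε / (4 M v)`-ish, for each of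
the `v M` pairs `(r, κ)`, `c'` depending on them; `k < N / v + 1`. -/
theorem mrtp (M v : ℕ) (hM : 0 < M) (hv : 0 < v) (n₀ : ℤ) (ε : ℝ) (hε : 0 < ε) :
    ∃ H₀ : ℕ, ∀ H : ℕ, H₀ ≤ H → ∃ N₀ : ℕ, ∀ N : ℕ, N₀ ≤ N → ∀ c : ℕ → ℝ, (∀ i, |c i| ≤ 1) →
      ∑ w ∈ range N, |∑ i ∈ range H, c i * gg M v n₀ ((w : ℤ) + i)| ≤ ε * N * H := by
  have hMr : (0 : ℝ) < M := by exact_mod_cast hM
  have hvr : (0 : ℝ) < v := by exact_mod_cast hv
  obtain ⟨H₀, h⟩ := mrt0 (ε / (M * v)) (by positivity)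
  refine ⟨H₀, fun H hH => ?_⟩
  obtain ⟨N₀, hN₀⟩ := h H hH
  refine ⟨N₀, fun N hN c hc => ?_⟩
  have hc' : ∀ r κ j, |mrtp_c M v n₀ H c r κ j| ≤ 1 := by
    intro r κ j
    unfold mrtp_c
    split_ifs with h1
    · exact hc _
    · simp
  have h1 : ∑ w ∈ range N, |∑ i ∈ range H, c i * gg M v n₀ ((w : ℤ) + i)| =
      ∑ w ∈ range N, (fun x : ℕ × ℕ × ℕ =>
        |∑ j ∈ range H, mrtp_c M v n₀ H c x.1 x.2.1 j * mob ((x.2.2 : ℤ) + j)|) (w % v, w / v % M, w / v) := by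
    refine Finset.sum_congr rfl fun w _ => ?_
    rw [mrtp_key M v hM hv n₀ H c w]
  have hinj : Set.InjOn (fun w : ℕ => (w % v, w / v % M, w / v)) (range N : Set ℕ) := by
    intro a _ b _ hab
    simp only [Prod.mk.injEq] at hab
    rw [← Nat.div_add_mod a v, ← Nat.div_add_mod b v, hab.1, hab.2.2]
  rw [h1, ← Finset.sum_image (f := fun x : ℕ × ℕ × ℕ =>
        |∑ j ∈ range H, mrtp_c M v n₀ H c x.1 x.2.1 j * mob ((x.2.2 : ℤ) + j)|) hinj]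
  have h2 : (range N).image (fun w : ℕ => (w % v, w / v % M, w / v)) ⊆ range v ×ˢ (range M ×ˢ range N) := by
    intro x hx
    rw [Finset.mem_image] at hx
    obtain ⟨w, hw, rfl⟩ := hx
    rw [Finset.mem_range] at hw
    simp only [Finset.mem_product, Finset.mem_range]
    exact ⟨Nat.mod_lt _ hv, Nat.mod_lt _ hM, lt_of_le_of_lt (Nat.div_le_self w v) hw⟩
  refine (Finset.sum_le_sum_of_subset_of_nonneg h2 (fun _ _ _ => abs_nonneg _)).trans ?_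
  rw [Finset.sum_product]
  have h3 : ∀ r ∈ range v, ∑ y ∈ range M ×ˢ range N,
      |∑ j ∈ range H, mrtp_c M v n₀ H c r y.1 j * mob ((y.2 : ℤ) + j)| ≤ (M : ℝ) * (ε / (M * v) * N * H) := by
    intro r _
    rw [Finset.sum_product]
    refine (Finset.sum_le_card_nsmul (range M) _ (ε / (M * v) * N * H) fun κ _ => ?_).trans_eq ?_
    · exact hN₀ N hN (mrtp_c M v n₀ H c r κ) (hc' r κ)
    · rw [Finset.card_range, nsmul_eq_mul]
  refine (Finset.sum_le_card_nsmul (range v) _ _ h3).trans_eq ?_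
  rw [Finset.card_range, nsmul_eq_mul]
  field_simp
-- END mrtp

-- BEGIN mrtg
private theorem mrtg_neg (M v : ℕ) (n₀ n : ℤ) : gg M v n₀ (-n) = gg M v (-n₀) n := by
  unfold gg
  have h1 : ((v : ℤ) ∣ -n ∧ (M : ℤ) ∣ -n - n₀) ↔ ((v : ℤ) ∣ n ∧ (M : ℤ) ∣ n - -n₀) := by
    rw [dvd_neg, show -n - n₀ = -(n - -n₀) by ring, dvd_neg]
  by_cases h : (v : ℤ) ∣ n ∧ (M : ℤ) ∣ n - -n₀
  · rw [if_pos (h1.2 h), if_pos h]
    unfold mob
    rw [Int.neg_ediv_of_dvd h.1, Int.natAbs_neg]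
  · rw [if_neg fun h' => h (h1.1 h'), if_neg h]

/-- a progression of positive difference `d` -/
private theorem mrtg_pos (M v : ℕ) (hM : 0 < M) (hv : 0 < v) (d : ℕ) (hd : 0 < d) (n₀ : ℤ) (ε : ℝ)
    (hε : 0 < ε) :
    ∃ H₀ : ℕ, ∀ H : ℕ, H₀ ≤ H → ∃ N₀ : ℕ, ∀ N : ℕ, N₀ ≤ N → ∀ c : ℕ → ℝ, (∀ i, |c i| ≤ 1) →
      ∑ w ∈ range N, |∑ i ∈ range H, c i * gg M v n₀ ((w : ℤ) + d * i)| ≤ ε * N * H := by
  have hd' : (0 : ℝ) < d := by exact_mod_cast hd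
  obtain ⟨H₀, hH₀⟩ := mrtp M v hM hv n₀ (ε / d) (div_pos hε hd')
  refine ⟨H₀, fun H hH => ?_⟩
  obtain ⟨N₀, hN₀⟩ := hH₀ (d * H) (hH.trans (Nat.le_mul_of_pos_left H hd))
  refine ⟨N₀, fun N hN c hc => ?_⟩
  have h1 := hN₀ N hN (fun j => if d ∣ j then c (j / d) else 0) (fun j => by
    beta_reduce
    split_ifs
    · exact hc _
    · simp)
  have h2 : ∀ w : ℕ, ∑ j ∈ range (d * H), (if d ∣ j then c (j / d) else 0) *
      gg M v n₀ ((w : ℤ) + j) = ∑ i ∈ range H, c i * gg M v n₀ ((w : ℤ) + d * i) := by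
    intro w
    have h3 : ∑ i ∈ range H, c i * gg M v n₀ ((w : ℤ) + d * i) =
        ∑ j ∈ (range H).image (fun i => d * i), (if d ∣ j then c (j / d) else 0) *
          gg M v n₀ ((w : ℤ) + j) := by
      rw [Finset.sum_image fun a _ b _ hab => Nat.eq_of_mul_eq_mul_left hd hab]
      refine Finset.sum_congr rfl fun i _ => ?_
      rw [if_pos (Dvd.intro i rfl), Nat.mul_div_cancel_left i hd]
      push_cast
      rfl
    rw [h3]
    symm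
    refine Finset.sum_subset ?_ ?_
    · intro j hj
      obtain ⟨i, hi, rfl⟩ := Finset.mem_image.1 hj
      exact Finset.mem_range.2 ((Nat.mul_lt_mul_left hd).2 (Finset.mem_range.1 hi))
    · intro j hj hj'
      rw [if_neg, zero_mul]
      rintro ⟨i, rfl⟩
      exact hj' (Finset.mem_image.2 ⟨i, Finset.mem_range.2
        ((Nat.mul_lt_mul_left hd).1 (Finset.mem_range.1 hj)), rfl⟩)
  rw [Finset.sum_congr rfl fun w _ => by rw [h2 w]] at h1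
  refine h1.trans (le_of_eq ?_)
  push_cast
  field_simp

/-- the coefficients in reverse order -/
private theorem mrtg_rev (M v : ℕ) (n₀ : ℤ) (H : ℕ) (c : ℕ → ℝ) (x e : ℤ) :
    ∑ i ∈ range H, c i * gg M v n₀ (x - e * i) =
      ∑ i ∈ range H, c (H - 1 - i) * gg M v n₀ (x - e * ((H : ℤ) - 1) + e * i) := by
  rw [← Finset.sum_range_reflect]
  refine Finset.sum_congr rfl fun i hi => ?_
  have hi' := Finset.mem_range.1 hi
  congr 2
  have h1 : ((H - 1 - i : ℕ) : ℤ) = (H : ℤ) - 1 - i := by omega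
  rw [h1]
  ring

/-- one window is at most its length -/
private theorem mrtg_le (M v : ℕ) (n₀ : ℤ) (H : ℕ) (c : ℕ → ℝ) (hc : ∀ i, |c i| ≤ 1) (y : ℕ → ℤ) :
    |∑ i ∈ range H, c i * gg M v n₀ (y i)| ≤ H := by
  refine (Finset.abs_sum_le_sum_abs _ _).trans ?_
  calc ∑ i ∈ range H, |c i * gg M v n₀ (y i)| ≤ ∑ _i ∈ range H, (1 : ℝ) := by
        refine Finset.sum_le_sum fun i _ => ?_
        rw [abs_mul]
        exact mul_le_one₀ (hc i) (abs_nonneg _) (gg_le M v n₀ (y i))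
    _ = H := by simp

/-- both signs of `w`, positive difference -/
private theorem mrtg_two (M v : ℕ) (hM : 0 < M) (hv : 0 < v) (d : ℕ) (hd : 0 < d) (n₀ : ℤ) (ε : ℝ)
    (hε : 0 < ε) :
    ∃ H₀ : ℕ, ∀ H : ℕ, H₀ ≤ H → ∃ N₀ : ℕ, ∀ N : ℕ, N₀ ≤ N → ∀ c : ℕ → ℝ, (∀ i, |c i| ≤ 1) →
      ∑ w ∈ Icc (-(N : ℤ)) N, |∑ i ∈ range H, c i * gg M v n₀ (w + (d : ℤ) * i)| ≤
        ε * (N + 1) * H + d * H * H := by
  obtain ⟨H₁, hH₁⟩ := mrtg_pos M v hM hv d hd n₀ (ε / 2) (half_pos hε)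
  obtain ⟨H₂, hH₂⟩ := mrtg_pos M v hM hv d hd (-n₀) (ε / 2) (half_pos hε)
  refine ⟨max H₁ H₂, fun H hH => ?_⟩
  obtain ⟨N₁, hN₁⟩ := hH₁ H ((le_max_left _ _).trans hH)
  obtain ⟨N₂, hN₂⟩ := hH₂ H ((le_max_right _ _).trans hH)
  refine ⟨max N₁ N₂, fun N hN c hc => ?_⟩
  set G : ℤ → ℝ := fun w => |∑ i ∈ range H, c i * gg M v n₀ (w + (d : ℤ) * i)| with hG
  have hG0 : ∀ w, 0 ≤ G w := fun w => abs_nonneg _
  -- the two halves
  have h1 : ∑ w ∈ Icc (-(N : ℤ)) N, G w ≤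
      ∑ x ∈ range (N + 1), G (x : ℤ) + ∑ x ∈ range (N + 1), G (-(x : ℤ)) := by
    have e1 : ∑ x ∈ range (N + 1), G (x : ℤ) =
        ∑ w ∈ (range (N + 1)).image (fun x : ℕ => (x : ℤ)), G w := by
      rw [Finset.sum_image fun a _ b _ hab => by exact_mod_cast hab]
    have e2 : ∑ x ∈ range (N + 1), G (-(x : ℤ)) =
        ∑ w ∈ (range (N + 1)).image (fun x : ℕ => -(x : ℤ)), G w := by
      rw [Finset.sum_image fun a _ b _ hab => by
        have := neg_injective hab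
        exact_mod_cast this]
    rw [e1, e2]
    refine le_trans (Finset.sum_le_sum_of_subset_of_nonneg
      (t := (range (N + 1)).image (fun x : ℕ => (x : ℤ)) ∪ (range (N + 1)).image (fun x : ℕ => -(x : ℤ)))
      ?_ fun w _ _ => hG0 w) ?_
    swap
    · rw [← Finset.sum_union_inter]
      exact le_add_of_nonneg_right (Finset.sum_nonneg fun w _ => hG0 w)
    intro w hw
    rw [Finset.mem_Icc] at hw
    rw [Finset.mem_union, Finset.mem_image, Finset.mem_image]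
    rcases le_total 0 w with h | h
    · exact Or.inl ⟨w.toNat, Finset.mem_range.2 (by omega), by omega⟩
    · exact Or.inr ⟨(-w).toNat, Finset.mem_range.2 (by omega), by omega⟩
  refine h1.trans ?_
  have h2 := hN₁ (N + 1) ((le_max_left _ _).trans (hN.trans (Nat.le_succ N))) c hc
  have h3 := hN₂ (N + 1) ((le_max_right _ _).trans (hN.trans (Nat.le_succ N)))
    (fun i => c (H - 1 - i)) (fun i => hc _)
  have h4 : ∑ x ∈ range (N + 1), G (-(x : ℤ)) ≤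
      d * H * H + ∑ w ∈ range (N + 1), |∑ i ∈ range H, c (H - 1 - i) *
        gg M v (-n₀) ((w : ℤ) + d * i)| := by
    have e1 : ∑ x ∈ range (N + 1), G (-(x : ℤ)) ≤
        ∑ x ∈ range (d * (H - 1) + (N + 1)), G (-(x : ℤ)) :=
      Finset.sum_le_sum_of_subset_of_nonneg (Finset.range_subset_range.2 (Nat.le_add_left _ _))
        fun w _ _ => hG0 _
    refine e1.trans ?_
    rw [Finset.sum_range_add]
    refine add_le_add ?_ (le_of_eq (Finset.sum_congr rfl fun w _ => ?_))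
    · have e2 : ∑ x ∈ range (d * (H - 1)), G (-(x : ℤ)) ≤ ∑ _x ∈ range (d * (H - 1)), (H : ℝ) :=
        Finset.sum_le_sum fun x _ => mrtg_le M v n₀ H c hc _
      refine e2.trans ?_
      rw [Finset.sum_const, Finset.card_range, nsmul_eq_mul]
      refine mul_le_mul_of_nonneg_right ?_ (Nat.cast_nonneg H)
      push_cast
      refine mul_le_mul_of_nonneg_left ?_ (Nat.cast_nonneg d)
      exact_mod_cast Nat.sub_le H 1
    · rw [hG]
      beta_reduce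
      congr 1
      rcases Nat.eq_zero_or_pos H with h0 | h0
      · rw [h0]
        simp
      have e3 : ∀ i ∈ range H, c i * gg M v n₀ (-((d * (H - 1) + w : ℕ) : ℤ) + (d : ℤ) * i) =
          c i * gg M v (-n₀) (((d * (H - 1) + w : ℕ) : ℤ) - (d : ℤ) * i) := by
        intro i _
        rw [← mrtg_neg]
        congr 2
        ring
      rw [Finset.sum_congr rfl e3, mrtg_rev]
      refine Finset.sum_congr rfl fun i _ => ?_
      congr 2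
      push_cast [Nat.cast_sub h0]
      ring
  have h5 : ∑ x ∈ range (N + 1), G (x : ℤ) ≤ ε / 2 * ((N + 1 : ℕ) : ℝ) * H := h2
  push_cast at h5 h3
  linarith

/-- K7. `D ≠ 0` and both signs of `w`. A progression of difference `|D|` and length `H` is a window of length `|D| H` with coefficients `c'_(|D| i) = c_i`, else `0` (`mrtp` with `ε / (4 |D|)`); for `D < 0` put `i ↦ H - 1 - i` and shift `w` by `D (H - 1)`; for `w < 0` use
`gg M v n₀ (-n) = gg M v (-n₀) n`; windows containing both signs: at most `2 |D| H` values of `w`. -/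
theorem mrtg (M v : ℕ) (hM : 0 < M) (hv : 0 < v) (D : ℤ) (hD : D ≠ 0) (n₀ : ℤ) (ε : ℝ) (hε : 0 < ε) :
    ∃ H₀ : ℕ, ∀ H : ℕ, H₀ ≤ H → ∃ N₀ : ℕ, ∀ N : ℕ, N₀ ≤ N → ∀ c : ℕ → ℝ, (∀ i, |c i| ≤ 1) →
      ∑ w ∈ Icc (-(N : ℤ)) N, |∑ i ∈ range H, c i * gg M v n₀ (w + D * i)| ≤ ε * N * H := by
  obtain ⟨d, hd⟩ : ∃ d : ℕ, d = D.natAbs := ⟨_, rfl⟩
  have hd0 : 0 < d := by omega
  obtain ⟨H₀, hH₀⟩ := mrtg_two M v hM hv d hd0 n₀ (ε / 8) (by positivity)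
  refine ⟨H₀, fun H hH => ?_⟩
  obtain ⟨N₁, hN₁⟩ := hH₀ H hH
  obtain ⟨N₂, hN₂⟩ := exists_nat_ge (2 * d * H / ε)
  refine ⟨max N₁ (max N₂ (d * H + 1)), fun N hN c hc => ?_⟩
  have hNa : N₁ ≤ N := (le_max_left _ _).trans hN
  have hNb : N₂ ≤ N := ((le_max_left _ _).trans (le_max_right _ _)).trans hN
  have hNc : d * H + 1 ≤ N := ((le_max_right _ _).trans (le_max_right _ _)).trans hN
  have key : ∀ c : ℕ → ℝ, (∀ i, |c i| ≤ 1) →
      ∑ w ∈ Icc (-((N + d * H : ℕ) : ℤ)) ((N + d * H : ℕ) : ℤ),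
        |∑ i ∈ range H, c i * gg M v n₀ (w + (d : ℤ) * i)| ≤ ε * N * H := by
    intro c hc
    refine (hN₁ (N + d * H) (hNa.trans (Nat.le_add_right _ _)) c hc).trans ?_
    have h1 : (((N + d * H : ℕ) : ℝ) + 1) ≤ 2 * N := by
      have : N + d * H + 1 ≤ 2 * N := by omega
      exact_mod_cast this
    have h2 : (d : ℝ) * H ≤ ε / 2 * N := by
      have h3 : 2 * d * H / ε ≤ (N : ℝ) := hN₂.trans (by exact_mod_cast hNb)
      rw [div_le_iff₀ hε] at h3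
      linarith
    have h3 : (0 : ℝ) ≤ H := Nat.cast_nonneg H
    have h4 : ε / 8 * (((N + d * H : ℕ) : ℝ) + 1) * H ≤ ε / 8 * (2 * N) * H := by gcongr
    have h5 : (d : ℝ) * H * H ≤ ε / 2 * N * H := by gcongr
    have h6 : 0 ≤ ε * N * H := by positivity
    linarith
  rcases lt_or_gt_of_ne hD with h | h
  · -- `D < 0`
    have hDd : D = -(d : ℤ) := by omega
    have e1 : ∀ w : ℤ, |∑ i ∈ range H, c i * gg M v n₀ (w + D * i)| =
        |∑ i ∈ range H, c (H - 1 - i) * gg M v n₀ ((w - (d : ℤ) * ((H : ℤ) - 1)) + (d : ℤ) * i)| := by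
      intro w
      rw [← mrtg_rev]
      congr 1
      refine Finset.sum_congr rfl fun i _ => ?_
      rw [hDd]
      congr 2
      ring
    rw [Finset.sum_congr rfl fun w _ => e1 w]
    rcases Nat.eq_zero_or_pos H with h0 | h0
    · rw [h0]
      simp
    refine le_trans ?_ (key (fun i => c (H - 1 - i)) (fun i => hc _))
    set G : ℤ → ℝ := fun w => |∑ i ∈ range H, c (H - 1 - i) * gg M v n₀ (w + (d : ℤ) * i)| with hG
    have hG0 : ∀ w, 0 ≤ G w := fun w => abs_nonneg _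
    have e2 : ∑ w ∈ Icc (-(N : ℤ)) N, G (w - (d : ℤ) * ((H : ℤ) - 1)) =
        ∑ x ∈ (Icc (-(N : ℤ)) N).image (fun w => w - (d : ℤ) * ((H : ℤ) - 1)), G x := by
      rw [Finset.sum_image fun a _ b _ hab => sub_left_injective hab]
    refine le_trans (le_of_eq e2) (Finset.sum_le_sum_of_subset_of_nonneg ?_ fun w _ _ => hG0 w)
    intro x hx
    obtain ⟨w, hw, rfl⟩ := Finset.mem_image.1 hx
    rw [Finset.mem_Icc] at hw ⊢
    have h1 : (0 : ℤ) ≤ (d : ℤ) * ((H : ℤ) - 1) := mul_nonneg (by omega) (by omega)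
    have h2 : (d : ℤ) * ((H : ℤ) - 1) ≤ (d : ℤ) * H := by nlinarith
    push_cast
    constructor <;> linarith [hw.1, hw.2]
  · -- `D > 0`
    have hDd : D = (d : ℤ) := by omega
    rw [hDd]
    refine le_trans (Finset.sum_le_sum_of_subset_of_nonneg ?_ fun w _ _ => abs_nonneg _) (key c hc)
    intro x hx
    rw [Finset.mem_Icc] at hx ⊢
    push_cast
    have h1 : (0 : ℤ) ≤ (d : ℤ) * H := by positivity
    constructor <;> linarith [hx.1, hx.2]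
-- END mrtg

-- BEGIN c0
private theorem c0_step (G : ℤ → ℝ) (m₁ m₂ : ℕ) (h : m₁ ≤ m₂) :
    ∑ m ∈ Ioc m₁ m₂, G (m : ℤ) - ∑ m ∈ Ioc m₁ m₂, G ((m : ℤ) + 1) = G ((m₁ : ℤ) + 1) - G ((m₂ : ℤ) + 1) := by
  induction m₂, h using Nat.le_induction with
  | base => simp
  | succ n hn ih =>
    rw [Finset.sum_Ioc_succ_top (by omega), Finset.sum_Ioc_succ_top (by omega)]
    push_cast at ih ⊢
    linarith

private theorem c0_shift (F : ℤ → ℝ) (hF : ∀ n, |F n| ≤ 1) (m₁ m₂ : ℕ) (i : ℕ) :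
    |∑ m ∈ Ioc m₁ m₂, F (m : ℤ) - ∑ m ∈ Ioc m₁ m₂, F ((m : ℤ) + i)| ≤ 2 * i := by
  induction i with
  | zero => simp
  | succ i ih =>
    have h1 : |∑ m ∈ Ioc m₁ m₂, F ((m : ℤ) + i) - ∑ m ∈ Ioc m₁ m₂, F ((m : ℤ) + (i + 1 : ℕ))| ≤ 2 := by
      rcases le_total m₁ m₂ with h | h
      · have h2 := c0_step (fun n => F (n + i)) m₁ m₂ h
        have h3 : ∑ m ∈ Ioc m₁ m₂, F ((m : ℤ) + (i + 1 : ℕ)) = ∑ m ∈ Ioc m₁ m₂, (fun n => F (n + i)) ((m : ℤ) + 1) := by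
          apply Finset.sum_congr rfl
          intro m _
          push_cast
          ring_nf
        rw [h3, h2]
        have h4 := abs_le.1 (hF ((m₁ : ℤ) + 1 + i))
        have h5 := abs_le.1 (hF ((m₂ : ℤ) + 1 + i))
        rw [abs_le]
        constructor <;> linarith [h4.1, h4.2, h5.1, h5.2]
      · rw [Finset.Ioc_eq_empty (by omega)]
        simp
    have h2 := abs_sub_le (∑ m ∈ Ioc m₁ m₂, F (m : ℤ)) (∑ m ∈ Ioc m₁ m₂, F ((m : ℤ) + i)) (∑ m ∈ Ioc m₁ m₂, F ((m : ℤ) + (i + 1 : ℕ)))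
    push_cast at h1 h2 ⊢
    linarith

private theorem c0_fin (g f : ℤ → ℝ) (hg : ∀ n, |g n| ≤ 1) (hf : ∀ n, |f n| ≤ 1) (α β α₀ β₀ : ℤ) (hβ : β ≠ 0)
    (N H Z R m₁ m₂ : ℕ) (hm : m₂ ≤ N) (hZ : (N : ℤ) + |α| * H ≤ Z) (hR : |β| * N + |β₀| + Z ≤ R) (B : ℝ)
    (hB : ∀ c : ℕ → ℝ, (∀ i, |c i| ≤ 1) → ∑ W ∈ Icc (-(R : ℤ)) R, |∑ i ∈ range H, c i * g (W + (β - α) * i)| ≤ B) :
    (H : ℝ) * ∑ w ∈ Icc (-(N : ℤ)) N, |∑ m ∈ Ioc m₁ m₂, f (α * m + α₀ + w) * g (β * m + β₀ + w)| ≤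
      (2 * Z + 1) * B + 2 * H ^ 2 * (2 * N + 1) := by
  obtain ⟨S, hS⟩ : ∃ S : ℤ → ℝ, ∀ w, S w = ∑ m ∈ Ioc m₁ m₂, f (α * m + α₀ + w) * g (β * m + β₀ + w) := ⟨_, fun _ => rfl⟩
  obtain ⟨T, hT⟩ : ∃ T : ℤ → ℕ → ℝ, ∀ w i, T w i = ∑ m ∈ Ioc m₁ m₂, f (α * ((m : ℤ) + i) + α₀ + w) * g (β * ((m : ℤ) + i) + β₀ + w) :=
    ⟨_, fun _ _ => rfl⟩
  obtain ⟨X, hX⟩ : ∃ X : ℤ → ℝ, ∀ w, X w = ∑ i ∈ range H, T w i := ⟨_, fun _ => rfl⟩
  have h1 : ∀ w i, |S w - T w i| ≤ 2 * i := by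
    intro w i
    have h2 := c0_shift (fun n => f (α * n + α₀ + w) * g (β * n + β₀ + w)) (by
      intro n
      rw [abs_mul]
      exact mul_le_one₀ (hf _) (abs_nonneg _) (hg _)) m₁ m₂ i
    rw [hS, hT]
    exact h2
  have h2 : ∀ w, (H : ℝ) * |S w| ≤ |X w| + 2 * H ^ 2 := by
    intro w
    have e1 : (H : ℝ) * S w = X w + ∑ i ∈ range H, (S w - T w i) := by
      rw [Finset.sum_sub_distrib, ← hX, Finset.sum_const, Finset.card_range, nsmul_eq_mul]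
      ring
    have e2 : |(H : ℝ) * S w| = H * |S w| := by rw [abs_mul, Nat.abs_cast]
    rw [← e2, e1]
    have e3 : |∑ i ∈ range H, (S w - T w i)| ≤ 2 * (H : ℝ) ^ 2 := by
      calc |∑ i ∈ range H, (S w - T w i)| ≤ ∑ i ∈ range H, |S w - T w i| := Finset.abs_sum_le_sum_abs _ _
        _ ≤ ∑ i ∈ range H, 2 * (H : ℝ) := by
            apply Finset.sum_le_sum
            intro i hi
            have h3 : (i : ℝ) ≤ H := by exact_mod_cast (Finset.mem_range.1 hi).le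
            linarith [h1 w i]
        _ = 2 * (H : ℝ) ^ 2 := by
            rw [Finset.sum_const, Finset.card_range, nsmul_eq_mul]
            ring
    linarith [abs_add_le (X w) (∑ i ∈ range H, (S w - T w i))]
  -- the signs
  obtain ⟨c, hc⟩ : ∃ c : ℤ → ℝ, ∀ w, c w = if w ∈ Icc (-(N : ℤ)) N then (if 0 ≤ X w then 1 else -1) else 0 := ⟨_, fun _ => rfl⟩
  have hc1 : ∀ w, |c w| ≤ 1 := by
    intro w
    rw [hc]
    split_ifs <;> simp
  have hc0 : ∀ w, w ∉ Icc (-(N : ℤ)) N → c w = 0 := by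
    intro w hw
    rw [hc, if_neg hw]
  have hcX : ∀ w ∈ Icc (-(N : ℤ)) N, |X w| = c w * X w := by
    intro w hw
    rw [hc, if_pos hw]
    split_ifs with h
    · rw [abs_of_nonneg h, one_mul]
    · rw [abs_of_neg (not_le.1 h)]
      ring
  obtain ⟨Φ, hΦ⟩ : ∃ Φ : ℤ → ℤ → ℝ, ∀ z W, Φ z W = ∑ i ∈ range H, c (z - α * i) * g (W + (β - α) * i) := ⟨_, fun _ _ => rfl⟩
  have hsub : ∀ i ∈ range H, ∀ m : ℕ, ∑ w ∈ Icc (-(N : ℤ)) N, c w * (f (α * ((m : ℤ) + i) + α₀ + w) * g (β * ((m : ℤ) + i) + β₀ + w)) =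
      ∑ z ∈ Icc (-(Z : ℤ)) Z, c (z - α * i) * (f (α * m + α₀ + z) * g (β * m + β₀ + z + (β - α) * i)) := by
    intro i hi m
    have hi' : |α * (i : ℤ)| ≤ |α| * H := by
      rw [abs_mul, Nat.abs_cast]
      exact mul_le_mul_of_nonneg_left (by exact_mod_cast (Finset.mem_range.1 hi).le) (abs_nonneg _)
    have hi2 := abs_le.1 hi'
    apply Finset.sum_of_injOn (fun w => w + α * i)
    · intro a _ b _ hab
      exact add_right_cancel hab
    · intro w hw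
      rw [Finset.mem_coe, mem_Icc] at hw ⊢
      constructor <;> linarith [hw.1, hw.2, hi2.1, hi2.2]
    · intro z _ hz2
      have : z - α * i ∉ Icc (-(N : ℤ)) N := by
        intro h
        apply hz2
        exact ⟨z - α * i, Finset.mem_coe.2 h, by ring⟩
      rw [hc0 _ this, zero_mul]
    · intro w _
      have e1 : w + α * i - α * i = w := by ring
      have e2 : α * ((m : ℤ) + i) + α₀ + w = α * m + α₀ + (w + α * i) := by ring
      have e3 : β * ((m : ℤ) + i) + β₀ + w = β * m + β₀ + (w + α * i) + (β - α) * i := by ring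
      simp only [e1, e2, e3]
  have hmain : ∑ w ∈ Icc (-(N : ℤ)) N, |X w| ≤ (2 * Z + 1) * B := by
    have e1 : ∑ w ∈ Icc (-(N : ℤ)) N, |X w| = ∑ m ∈ Ioc m₁ m₂, ∑ z ∈ Icc (-(Z : ℤ)) Z, f (α * m + α₀ + z) * Φ z (β * m + β₀ + z) := by
      calc ∑ w ∈ Icc (-(N : ℤ)) N, |X w| = ∑ w ∈ Icc (-(N : ℤ)) N, ∑ i ∈ range H, ∑ m ∈ Ioc m₁ m₂,
            c w * (f (α * ((m : ℤ) + i) + α₀ + w) * g (β * ((m : ℤ) + i) + β₀ + w)) := by
            apply Finset.sum_congr rfl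
            intro w hw
            rw [hcX w hw, hX, Finset.mul_sum]
            apply Finset.sum_congr rfl
            intro i _
            rw [hT, Finset.mul_sum]
        _ = ∑ i ∈ range H, ∑ m ∈ Ioc m₁ m₂, ∑ w ∈ Icc (-(N : ℤ)) N,
            c w * (f (α * ((m : ℤ) + i) + α₀ + w) * g (β * ((m : ℤ) + i) + β₀ + w)) := by
            rw [Finset.sum_comm]
            apply Finset.sum_congr rfl
            intro i _
            rw [Finset.sum_comm]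
        _ = ∑ i ∈ range H, ∑ m ∈ Ioc m₁ m₂, ∑ z ∈ Icc (-(Z : ℤ)) Z, c (z - α * i) * (f (α * m + α₀ + z) * g (β * m + β₀ + z + (β - α) * i)) := by
            apply Finset.sum_congr rfl
            intro i hi
            apply Finset.sum_congr rfl
            intro m _
            exact hsub i hi m
        _ = ∑ m ∈ Ioc m₁ m₂, ∑ z ∈ Icc (-(Z : ℤ)) Z, f (α * m + α₀ + z) * Φ z (β * m + β₀ + z) := by
            rw [Finset.sum_comm]
            apply Finset.sum_congr rfl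
            intro m _
            rw [Finset.sum_comm]
            apply Finset.sum_congr rfl
            intro z _
            rw [hΦ, Finset.mul_sum]
            apply Finset.sum_congr rfl
            intro i _
            ring
    rw [e1]
    have e2 : ∑ m ∈ Ioc m₁ m₂, ∑ z ∈ Icc (-(Z : ℤ)) Z, f (α * m + α₀ + z) * Φ z (β * m + β₀ + z) ≤
        ∑ m ∈ Ioc m₁ m₂, ∑ z ∈ Icc (-(Z : ℤ)) Z, |Φ z (β * m + β₀ + z)| := by
      apply Finset.sum_le_sum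
      intro m _
      apply Finset.sum_le_sum
      intro z _
      calc f (α * m + α₀ + z) * Φ z (β * m + β₀ + z) ≤ |f (α * m + α₀ + z) * Φ z (β * m + β₀ + z)| := le_abs_self _
        _ = |f (α * m + α₀ + z)| * |Φ z (β * m + β₀ + z)| := abs_mul _ _
        _ ≤ 1 * |Φ z (β * m + β₀ + z)| := mul_le_mul_of_nonneg_right (hf _) (abs_nonneg _)
        _ = |Φ z (β * m + β₀ + z)| := one_mul _
    refine e2.trans ?_
    rw [Finset.sum_comm]
    have e3 : ∀ z ∈ Icc (-(Z : ℤ)) Z, ∑ m ∈ Ioc m₁ m₂, |Φ z (β * m + β₀ + z)| ≤ B := by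
      intro z hz
      rw [mem_Icc] at hz
      have e4 : ∑ m ∈ Ioc m₁ m₂, |Φ z (β * m + β₀ + z)| = ∑ W ∈ (Ioc m₁ m₂).image (fun m : ℕ => β * (m : ℤ) + β₀ + z), |Φ z W| := by
        rw [Finset.sum_image]
        intro a _ b _ hab
        have h3 : β * (a : ℤ) = β * (b : ℤ) := by
          have h4 : β * (a : ℤ) + β₀ + z = β * (b : ℤ) + β₀ + z := hab
          linarith
        exact_mod_cast mul_left_cancel₀ hβ h3
      have e5 : (Ioc m₁ m₂).image (fun m : ℕ => β * (m : ℤ) + β₀ + z) ⊆ Icc (-(R : ℤ)) R := by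
        intro W hW
        rw [Finset.mem_image] at hW
        obtain ⟨m, hm1, rfl⟩ := hW
        rw [mem_Ioc] at hm1
        have h3 : |β * (m : ℤ)| ≤ |β| * N := by
          rw [abs_mul, Nat.abs_cast]
          exact mul_le_mul_of_nonneg_left (by exact_mod_cast hm1.2.trans hm) (abs_nonneg _)
        have h4 := abs_le.1 h3
        have h5 := abs_le.1 (le_refl |β₀|)
        rw [mem_Icc]
        constructor <;> linarith [h4.1, h4.2, h5.1, h5.2, hz.1, hz.2]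
      rw [e4]
      refine (Finset.sum_le_sum_of_subset_of_nonneg e5 (fun _ _ _ => abs_nonneg _)).trans ?_
      have h3 := hB (fun i => c (z - α * i)) (fun i => hc1 _)
      refine le_trans (le_of_eq ?_) h3
      apply Finset.sum_congr rfl
      intro W _
      rw [hΦ]
    refine (Finset.sum_le_sum e3).trans (le_of_eq ?_)
    rw [Finset.sum_const, Int.card_Icc, nsmul_eq_mul]
    have e6 : (((Z : ℤ) + 1 - -(Z : ℤ)).toNat : ℤ) = 2 * Z + 1 := by omega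
    have e7 : ((((Z : ℤ) + 1 - -(Z : ℤ)).toNat : ℕ) : ℝ) = ((((Z : ℤ) + 1 - -(Z : ℤ)).toNat : ℤ) : ℝ) := by push_cast; rfl
    rw [e7, e6]
    push_cast
    ring
  have hlast : (H : ℝ) * ∑ w ∈ Icc (-(N : ℤ)) N, |S w| ≤ ∑ w ∈ Icc (-(N : ℤ)) N, |X w| + 2 * H ^ 2 * (2 * N + 1) := by
    rw [Finset.mul_sum]
    calc ∑ w ∈ Icc (-(N : ℤ)) N, (H : ℝ) * |S w| ≤ ∑ w ∈ Icc (-(N : ℤ)) N, (|X w| + 2 * H ^ 2) := Finset.sum_le_sum (fun w _ => h2 w)
      _ = ∑ w ∈ Icc (-(N : ℤ)) N, |X w| + 2 * H ^ 2 * (2 * N + 1) := by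
          rw [Finset.sum_add_distrib, Finset.sum_const, Int.card_Icc, nsmul_eq_mul]
          have e6 : (((N : ℤ) + 1 - -(N : ℤ)).toNat : ℤ) = 2 * N + 1 := by omega
          have e7 : ((((N : ℤ) + 1 - -(N : ℤ)).toNat : ℕ) : ℝ) = ((((N : ℤ) + 1 - -(N : ℤ)).toNat : ℤ) : ℝ) := by push_cast; rfl
          rw [e7, e6]
          push_cast
          ring
  have hfin : ∑ w ∈ Icc (-(N : ℤ)) N, |∑ m ∈ Ioc m₁ m₂, f (α * m + α₀ + w) * g (β * m + β₀ + w)| = ∑ w ∈ Icc (-(N : ℤ)) N, |S w| := by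
    apply Finset.sum_congr rfl
    intro w _
    rw [hS]
  rw [hfin]
  linarith

/-- K8. Signs `c_v` (`|c_v| ≤ 1`, `0` outside `Icc (-N) N`) with `|∑_m ..| = c_v ∑_m ..`. For each `i < H` replace `m` by `m + i` (the interval for `m` changes by at most `2i` elements for each `v`: cost `≤ 2H (2N+1)`), average over `i`. For fixed `m`, `i` put `x = α (m + i) + α₀ + v`; the sum is
`H⁻¹ ∑_m ∑_x f x ∑_i c_(x - α(m+i) - α₀) g (x + (β - α)(m + i) + β₀ - α₀)`. Put `z = x - α m - α₀`, `w = x + (β - α) m + β₀ - α₀`: `(m, x) ↦ (z, w)` is injective (`w - z = β m + β₀`), `|z|, |w| ≤ C N`: at most `H⁻¹ ∑_z ∑_w |∑_i c_(z - α i) g (w + (β - α) i)|`, `mrtg` with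
`D = β - α` and the coefficients `c_(z - α i)`, for each `z`. -/
theorem c0 (M v : ℕ) (hM : 0 < M) (hv : 0 < v) (n₀ : ℤ) (α β α₀ β₀ : ℤ) (hβ : β ≠ 0) (hαβ : α ≠ β) (ε : ℝ) (hε : 0 < ε) :
    ∃ N₀ : ℕ, ∀ N : ℕ, N₀ ≤ N → ∀ f : ℤ → ℝ, (∀ n, |f n| ≤ 1) → ∀ m₁ m₂ : ℕ, m₂ ≤ N →
      ∑ w ∈ Icc (-(N : ℤ)) N, |∑ m ∈ Ioc m₁ m₂, f (α * m + α₀ + w) * gg M v n₀ (β * m + β₀ + w)| ≤ ε * N ^ 2 := by
  have hD : β - α ≠ 0 := sub_ne_zero.2 (fun h => hαβ h.symm)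
  have hA0 : (0 : ℝ) < (β.natAbs : ℝ) + 2 := by positivity
  obtain ⟨H₀, hH₀⟩ := mrtg M v hM hv (β - α) hD n₀ (ε / (10 * ((β.natAbs : ℝ) + 2))) (by positivity)
  obtain ⟨H, hH, hH1⟩ : ∃ H : ℕ, H₀ ≤ H ∧ 1 ≤ H := ⟨max H₀ 1, le_max_left _ _, le_max_right _ _⟩
  obtain ⟨N₁, hN₁⟩ := hH₀ H hH
  refine ⟨N₁ + (α.natAbs * H + β₀.natAbs + 1) + ⌈24 * (H : ℝ) / ε⌉₊, ?_⟩
  intro N hN f hf m₁ m₂ hm
  have hHr : (1 : ℝ) ≤ H := by exact_mod_cast hH1
  have hN1 : (1 : ℝ) ≤ N := by exact_mod_cast (by omega : 1 ≤ N)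
  have hNH : 24 * (H : ℝ) ≤ ε * N := by
    have h1 : ⌈24 * (H : ℝ) / ε⌉₊ ≤ N := by omega
    have h2 : 24 * (H : ℝ) / ε ≤ N := (Nat.le_ceil _).trans (by exact_mod_cast h1)
    rw [div_le_iff₀ hε] at h2
    linarith
  have ha : |α| = (α.natAbs : ℤ) := (Int.natCast_natAbs α).symm
  have hb : |β| = (β.natAbs : ℤ) := (Int.natCast_natAbs β).symm
  have hb0 : |β₀| = (β₀.natAbs : ℤ) := (Int.natCast_natAbs β₀).symm
  have hNN : α.natAbs * H + β₀.natAbs + 1 ≤ N := by omega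
  have hR1 : N₁ ≤ (β.natAbs + 2) * N + N := by nlinarith
  have hfin := c0_fin (gg M v n₀) f (gg_le M v n₀) hf α β α₀ β₀ hβ N H (2 * N) ((β.natAbs + 2) * N + N) m₁ m₂ hm
    (by
      rw [ha]
      have : ((α.natAbs * H + β₀.natAbs + 1 : ℕ) : ℤ) ≤ (N : ℤ) := by exact_mod_cast hNN
      push_cast at this ⊢
      have h0 : (0 : ℤ) ≤ (β₀.natAbs : ℤ) := by positivity
      push_cast at h0
      linarith)
    (by
      rw [hb, hb0]
      have : ((α.natAbs * H + β₀.natAbs + 1 : ℕ) : ℤ) ≤ (N : ℤ) := by exact_mod_cast hNN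
      have h0 : (0 : ℤ) ≤ ((α.natAbs * H : ℕ) : ℤ) := by positivity
      push_cast at this h0 ⊢
      nlinarith)
    ((ε / (10 * ((β.natAbs : ℝ) + 2))) * (((β.natAbs + 2) * N + N : ℕ) : ℝ) * H)
    (fun c hc => hN₁ _ hR1 c hc)
  have hA1 : (ε / (10 * ((β.natAbs : ℝ) + 2))) * (((β.natAbs + 2) * N + N : ℕ) : ℝ) ≤ 3 * ε / 20 * N := by
    have e1 : (((β.natAbs + 2) * N + N : ℕ) : ℝ) = (((β.natAbs : ℝ) + 2) + 1) * N := by push_cast; ring
    rw [e1, div_mul_eq_mul_div, div_le_iff₀ (by positivity)]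
    have : (1 : ℝ) ≤ ((β.natAbs : ℝ) + 2) / 2 := by
      have h0 : (0 : ℝ) ≤ (β.natAbs : ℝ) := by positivity
      linarith
    have h3 : 0 ≤ ε * N := by positivity
    nlinarith
  have hX0 : 0 ≤ ∑ w ∈ Icc (-(N : ℤ)) N, |∑ m ∈ Ioc m₁ m₂, f (α * m + α₀ + w) * gg M v n₀ (β * m + β₀ + w)| :=
    Finset.sum_nonneg (fun _ _ => abs_nonneg _)
  obtain ⟨Y, hY⟩ : ∃ Y : ℝ, Y = ∑ w ∈ Icc (-(N : ℤ)) N, |∑ m ∈ Ioc m₁ m₂, f (α * m + α₀ + w) * gg M v n₀ (β * m + β₀ + w)| := ⟨_, rfl⟩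
  rw [← hY] at hfin hX0 ⊢
  have h5 : (H : ℝ) * Y ≤ H * ((4 * N + 1) * (3 * ε / 20 * N) + 2 * H * (2 * N + 1)) := by
    have h6 : (2 * ((2 * N : ℕ) : ℝ) + 1) * ((ε / (10 * ((β.natAbs : ℝ) + 2))) * (((β.natAbs + 2) * N + N : ℕ) : ℝ) * H) ≤
        (4 * N + 1) * (3 * ε / 20 * N * H) := by
      have e1 : (2 * ((2 * N : ℕ) : ℝ) + 1) = 4 * N + 1 := by push_cast; ring
      rw [e1]
      apply mul_le_mul_of_nonneg_left _ (by positivity)
      exact mul_le_mul_of_nonneg_right hA1 (by positivity)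
    calc (H : ℝ) * Y ≤ _ := hfin
      _ ≤ (4 * N + 1) * (3 * ε / 20 * N * H) + 2 * H ^ 2 * (2 * N + 1) := by linarith
      _ = H * ((4 * N + 1) * (3 * ε / 20 * N) + 2 * H * (2 * N + 1)) := by ring
  have h7 : Y ≤ (4 * N + 1) * (3 * ε / 20 * N) + 2 * H * (2 * N + 1) := le_of_mul_le_mul_left h5 (by linarith)
  refine h7.trans ?_
  have h8 : (4 * (N : ℝ) + 1) * (3 * ε / 20 * N) ≤ 3 / 4 * ε * N ^ 2 := by
    have : (4 * (N : ℝ) + 1) ≤ 5 * N := by linarith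
    have h9 : (4 * (N : ℝ) + 1) * (3 * ε / 20 * N) ≤ (5 * N) * (3 * ε / 20 * N) := mul_le_mul_of_nonneg_right this (by positivity)
    calc (4 * (N : ℝ) + 1) * (3 * ε / 20 * N) ≤ (5 * N) * (3 * ε / 20 * N) := h9
      _ = 3 / 4 * ε * N ^ 2 := by ring
  have h9 : 2 * (H : ℝ) * (2 * N + 1) ≤ 1 / 4 * ε * N ^ 2 := by
    have e1 : 2 * (H : ℝ) * (2 * N + 1) ≤ 2 * H * (3 * N) := mul_le_mul_of_nonneg_left (by linarith) (by positivity)
    have e2 : 24 * (H : ℝ) * N ≤ ε * N * N := mul_le_mul_of_nonneg_right hNH (by positivity)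
    calc 2 * (H : ℝ) * (2 * N + 1) ≤ 2 * H * (3 * N) := e1
      _ = 1 / 4 * (24 * (H : ℝ) * N) := by ring
      _ ≤ 1 / 4 * (ε * N * N) := mul_le_mul_of_nonneg_left e2 (by norm_num)
      _ = 1 / 4 * ε * N ^ 2 := by ring
  linarith
-- END c0

-- BEGIN c1
private theorem c1_cls (F : ℕ → ℝ) (Q r t : ℕ) (hr : r < Q) :
    ∑ m ∈ Ioc 0 t, (if (m - 1) % Q = r then F m else 0) = ∑ j ∈ Ioc 0 ((t + Q - 1 - r) / Q), F (r + 1 + Q * (j - 1)) := by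
  have hQ : 0 < Q := by omega
  rw [← Finset.sum_filter]
  symm
  apply Finset.sum_nbij' (fun j => r + 1 + Q * (j - 1)) (fun m => (m - 1) / Q + 1)
  · intro j hj
    rw [mem_Ioc, Nat.le_div_iff_mul_le hQ] at hj
    obtain ⟨k, rfl⟩ : ∃ k, j = k + 1 := ⟨j - 1, by omega⟩
    have h1 : (k + 1) * Q = Q * k + Q := by ring
    rw [h1] at hj
    rw [mem_filter, mem_Ioc]
    have h2 : k + 1 - 1 = k := by omega
    rw [h2]
    refine ⟨⟨by omega, by omega⟩, ?_⟩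
    have h3 : r + 1 + Q * k - 1 = r + Q * k := by omega
    rw [h3, Nat.add_mul_mod_self_left, Nat.mod_eq_of_lt hr]
  · intro m hm
    rw [mem_filter, mem_Ioc] at hm
    rw [mem_Ioc, Nat.le_div_iff_mul_le hQ]
    have h1 := Nat.div_add_mod (m - 1) Q
    rw [hm.2] at h1
    have h2 : ((m - 1) / Q + 1) * Q = Q * ((m - 1) / Q) + Q := by ring
    rw [h2]
    refine ⟨Nat.succ_pos _, by omega⟩
  · intro j hj
    rw [mem_Ioc] at hj
    obtain ⟨k, rfl⟩ : ∃ k, j = k + 1 := ⟨j - 1, by omega⟩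
    have h2 : k + 1 - 1 = k := by omega
    have h3 : r + 1 + Q * k - 1 = r + Q * k := by omega
    simp only [h2, h3]
    rw [Nat.add_mul_div_left _ _ hQ, Nat.div_eq_of_lt hr, zero_add]
  · intro m hm
    rw [mem_filter, mem_Ioc] at hm
    have h1 := Nat.div_add_mod (m - 1) Q
    rw [hm.2] at h1
    have h2 : (m - 1) / Q + 1 - 1 = (m - 1) / Q := Nat.add_sub_cancel _ 1
    simp only [h2]
    omega
  · intro j _
    rfl

private theorem c1_pre (F : ℕ → ℝ) (hF : ∀ m, |F m| ≤ 1) (N K B : ℕ) (hB : 0 < B) (hK : N < B * (K + 1)) (x y : ℕ) (hy : y ≤ N) :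
    |∑ m ∈ Ioc x y, F m| ≤ 2 * B + 2 * ∑ q ∈ range (K + 1), |∑ m ∈ Ioc 0 (min (q * B) N), F m| := by
  have hpre : ∀ t : ℕ, t ≤ N → |∑ m ∈ Ioc 0 t, F m| ≤ B + ∑ q ∈ range (K + 1), |∑ m ∈ Ioc 0 (min (q * B) N), F m| := by
    intro t ht
    have h1 : t / B * B ≤ t := Nat.div_mul_le_self t B
    have h2 : t / B ∈ range (K + 1) := by
      rw [Finset.mem_range]
      exact Nat.div_lt_of_lt_mul (by omega)
    have h3 : |∑ m ∈ Ioc 0 (min (t / B * B) N), F m| ≤ ∑ q ∈ range (K + 1), |∑ m ∈ Ioc 0 (min (q * B) N), F m| :=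
      Finset.single_le_sum (f := fun q => |∑ m ∈ Ioc 0 (min (q * B) N), F m|) (fun _ _ => abs_nonneg _) h2
    rw [min_eq_left (h1.trans ht)] at h3
    have h4 := Finset.sum_Ioc_consecutive F (Nat.zero_le (t / B * B)) h1
    have h5 : |∑ m ∈ Ioc (t / B * B) t, F m| ≤ B := by
      calc |∑ m ∈ Ioc (t / B * B) t, F m| ≤ ∑ m ∈ Ioc (t / B * B) t, |F m| := Finset.abs_sum_le_sum_abs _ _
        _ ≤ ∑ m ∈ Ioc (t / B * B) t, (1 : ℝ) := Finset.sum_le_sum (fun m _ => hF m)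
        _ = ((t - t / B * B : ℕ) : ℝ) := by rw [Finset.sum_const, Nat.card_Ioc, nsmul_eq_mul, mul_one]
        _ ≤ B := by
            have h6 := Nat.div_add_mod t B
            have h7 := Nat.mod_lt t hB
            have h8 : t / B * B = B * (t / B) := by ring
            exact_mod_cast (by omega : t - t / B * B ≤ B)
    rw [← h4]
    linarith [abs_add_le (∑ m ∈ Ioc 0 (t / B * B), F m) (∑ m ∈ Ioc (t / B * B) t, F m)]
  have h0 : 0 ≤ ∑ q ∈ range (K + 1), |∑ m ∈ Ioc 0 (min (q * B) N), F m| := Finset.sum_nonneg (fun _ _ => abs_nonneg _)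
  rcases le_total x y with h | h
  · have h1 := Finset.sum_Ioc_consecutive F (Nat.zero_le x) h
    have h2 : ∑ m ∈ Ioc x y, F m = ∑ m ∈ Ioc 0 y, F m - ∑ m ∈ Ioc 0 x, F m := by linarith
    rw [h2]
    linarith [abs_sub (∑ m ∈ Ioc 0 y, F m) (∑ m ∈ Ioc 0 x, F m), hpre y hy, hpre x (h.trans hy)]
  · rw [Finset.Ioc_eq_empty (by omega)]
    rw [Finset.sum_empty, abs_zero]
    positivity

/-- K9. Residue classes and intervals depending on `w`. Split `m` into the classes `r` mod `Q`, `m = r + Q m'`: `c0` with `α Q`, `β Q`, `α r`, `β r` (`|ρ| ≤ 1` is constant on a class). Cut `[0, N]` into `K` blocks of length `≤ N / K + 1`: an interval `Ioc (x w) (y w)` is a union of blocks and two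
parts of blocks (at most `2 (N / K + 1)` elements). -/
theorem c1 (M v : ℕ) (hM : 0 < M) (hv : 0 < v) (n₀ : ℤ) (α β : ℤ) (hβ : β ≠ 0) (hαβ : α ≠ β) (Q : ℕ) (hQ : 0 < Q) (ε : ℝ) (hε : 0 < ε) :
    ∃ N₀ : ℕ, ∀ N : ℕ, N₀ ≤ N → ∀ f : ℤ → ℝ, (∀ n, |f n| ≤ 1) → ∀ x y : ℤ → ℕ, (∀ w, y w ≤ N) →
      ∀ ρ : ℤ → ℕ → ℝ, (∀ w m, |ρ w m| ≤ 1) → (∀ w m m', m ≡ m' [MOD Q] → ρ w m = ρ w m') →
      ∑ w ∈ Icc (-(N : ℤ)) N, |∑ m ∈ Ioc (x w) (y w), ρ w m * (f (α * m + w) * gg M v n₀ (β * m + w))| ≤ ε * N ^ 2 := by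
  have hQr : (0 : ℝ) < Q := by exact_mod_cast hQ
  have hQz : (Q : ℤ) ≠ 0 := by exact_mod_cast hQ.ne'
  obtain ⟨K, hK⟩ : ∃ K : ℕ, K = ⌈24 * (Q : ℝ) / ε⌉₊ + 1 := ⟨_, rfl⟩
  have hK1 : 1 ≤ K := by omega
  have hKr : (0 : ℝ) < K := by exact_mod_cast hK1
  have hKe : 24 * (Q : ℝ) ≤ ε * K := by
    have h2 : 24 * (Q : ℝ) / ε ≤ K := (Nat.le_ceil _).trans (by exact_mod_cast (by omega : ⌈24 * (Q : ℝ) / ε⌉₊ ≤ K))
    rw [div_le_iff₀ hε] at h2
    linarith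
  have hcho : ∀ r : ℕ, ∃ N₀ : ℕ, ∀ N : ℕ, N₀ ≤ N → ∀ f : ℤ → ℝ, (∀ n, |f n| ≤ 1) → ∀ m₁ m₂ : ℕ, m₂ ≤ N →
      ∑ w ∈ Icc (-(N : ℤ)) N, |∑ m ∈ Ioc m₁ m₂, f (α * Q * m + α * (r + 1 - Q) + w) * gg M v n₀ (β * Q * m + β * (r + 1 - Q) + w)| ≤
        ε / (4 * Q * (K + 1)) * N ^ 2 := fun r =>
    c0 M v hM hv n₀ (α * Q) (β * Q) (α * (r + 1 - Q)) (β * (r + 1 - Q)) (mul_ne_zero hβ hQz)
      (fun h => hαβ (mul_right_cancel₀ hQz h)) (ε / (4 * Q * (K + 1))) (by positivity)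
  choose Nr hNr using hcho
  refine ⟨(range Q).sup Nr + K, ?_⟩
  intro N hN f hf x y hy ρ hρ hρc
  have hNK : (K : ℝ) ≤ N := by exact_mod_cast (by omega : K ≤ N)
  have hN1 : (1 : ℝ) ≤ N := by exact_mod_cast (by omega : 1 ≤ N)
  obtain ⟨B, hBd⟩ : ∃ B : ℕ, B = N / K + 1 := ⟨_, rfl⟩
  have hB0 : 0 < B := by
    rw [hBd]
    exact Nat.succ_pos _
  have hBK : N < B * (K + 1) := by
    have h1 := Nat.lt_mul_div_succ N hK1
    have h2 : K * (N / K + 1) ≤ B * (K + 1) := by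
      rw [hBd]
      nlinarith
    omega
  have hBr : (B : ℝ) ≤ 2 * N / K := by
    have h1 : ((N / K : ℕ) : ℝ) ≤ N / K := Nat.cast_div_le
    have h2 : (1 : ℝ) ≤ N / K := by rwa [le_div_iff₀ hKr, one_mul]
    have h3 : (B : ℝ) = ((N / K : ℕ) : ℝ) + 1 := by rw [hBd]; push_cast; rfl
    have h4 : 2 * (N : ℝ) / K = N / K + N / K := by ring
    rw [h3, h4]
    linarith
  obtain ⟨F, hFd⟩ : ∃ F : ℤ → ℕ → ℝ, ∀ w m, F w m = f (α * m + w) * gg M v n₀ (β * m + w) := ⟨_, fun _ _ => rfl⟩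
  have hF1 : ∀ w m, |F w m| ≤ 1 := by
    intro w m
    rw [hFd, abs_mul]
    exact mul_le_one₀ (hf _) (abs_nonneg _) (gg_le M v n₀ _)
  have hG1 : ∀ w r m, |(if (m - 1) % Q = r then F w m else 0 : ℝ)| ≤ 1 := by
    intro w r m
    split_ifs
    · exact hF1 w m
    · simp
  -- one class, one prefix
  have hcls : ∀ r ∈ range Q, ∀ t : ℕ, t ≤ N → ∑ w ∈ Icc (-(N : ℤ)) N, |∑ m ∈ Ioc 0 t, (if (m - 1) % Q = r then F w m else 0)| ≤
      ε / (4 * Q * (K + 1)) * N ^ 2 := by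
    intro r hr t ht
    have hrQ := Finset.mem_range.1 hr
    have hNN : Nr r ≤ N := (Finset.le_sup hr).trans (by omega)
    have hm2 : (t + Q - 1 - r) / Q ≤ N := by
      rcases Nat.eq_zero_or_pos t with h | h
      · subst h
        rw [Nat.div_eq_of_lt (by omega)]
        exact Nat.zero_le _
      · refine le_trans (Nat.div_le_of_le_mul ?_) ht
        obtain ⟨s, rfl⟩ : ∃ s, t = s + 1 := ⟨t - 1, by omega⟩
        have h3 : s ≤ Q * s := Nat.le_mul_of_pos_left s hQ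
        have h4 : Q * (s + 1) = Q * s + Q := by ring
        omega
    have h1 := hNr r N hNN f hf 0 ((t + Q - 1 - r) / Q) hm2
    refine le_trans (le_of_eq ?_) h1
    apply Finset.sum_congr rfl
    intro w _
    rw [c1_cls (F w) Q r t hrQ]
    congr 1
    apply Finset.sum_congr rfl
    intro j hj
    rw [mem_Ioc] at hj
    obtain ⟨k, rfl⟩ : ∃ k, j = k + 1 := ⟨j - 1, by omega⟩
    have h2 : k + 1 - 1 = k := by omega
    rw [h2, hFd]
    have e1 : α * ((r + 1 + Q * k : ℕ) : ℤ) + w = α * Q * ((k + 1 : ℕ) : ℤ) + α * (r + 1 - Q) + w := by push_cast; ring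
    have e2 : β * ((r + 1 + Q * k : ℕ) : ℤ) + w = β * Q * ((k + 1 : ℕ) : ℤ) + β * (r + 1 - Q) + w := by push_cast; ring
    rw [e1, e2]
  -- one `w`
  have hone : ∀ w, |∑ m ∈ Ioc (x w) (y w), ρ w m * (f (α * m + w) * gg M v n₀ (β * m + w))| ≤
      ∑ r ∈ range Q, (2 * (B : ℝ) + 2 * ∑ q ∈ range (K + 1), |∑ m ∈ Ioc 0 (min (q * B) N), (if (m - 1) % Q = r then F w m else 0)|) := by
    intro w
    have e1 : ∑ m ∈ Ioc (x w) (y w), ρ w m * (f (α * m + w) * gg M v n₀ (β * m + w)) =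
        ∑ r ∈ range Q, ρ w (r + 1) * ∑ m ∈ Ioc (x w) (y w), (if (m - 1) % Q = r then F w m else 0) := by
      have e2 : ∀ r ∈ range Q, ρ w (r + 1) * ∑ m ∈ Ioc (x w) (y w), (if (m - 1) % Q = r then F w m else 0) =
          ∑ m ∈ Ioc (x w) (y w), (if (m - 1) % Q = r then ρ w m * F w m else 0) := by
        intro r _
        rw [Finset.mul_sum]
        apply Finset.sum_congr rfl
        intro m hm
        rw [mem_Ioc] at hm
        split_ifs with h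
        · have h3 : ρ w (r + 1) = ρ w m := by
            apply hρc
            have h4 : m = (m - 1) + 1 := by omega
            rw [h4, ← h]
            exact (Nat.mod_modEq (m - 1) Q).add_right 1
          rw [h3]
        · rw [mul_zero]
      rw [Finset.sum_congr rfl e2, Finset.sum_comm]
      apply Finset.sum_congr rfl
      intro m _
      rw [Finset.sum_ite_eq, if_pos (Finset.mem_range.2 (Nat.mod_lt _ hQ)), hFd]
    rw [e1]
    refine (Finset.abs_sum_le_sum_abs _ _).trans (Finset.sum_le_sum ?_)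
    intro r _
    rw [abs_mul]
    calc |ρ w (r + 1)| * |∑ m ∈ Ioc (x w) (y w), (if (m - 1) % Q = r then F w m else 0)| ≤
          1 * |∑ m ∈ Ioc (x w) (y w), (if (m - 1) % Q = r then F w m else 0)| := mul_le_mul_of_nonneg_right (hρ _ _) (abs_nonneg _)
      _ = |∑ m ∈ Ioc (x w) (y w), (if (m - 1) % Q = r then F w m else 0)| := one_mul _
      _ ≤ _ := c1_pre _ (hG1 w r) N K B hB0 hBK (x w) (y w) (hy w)
  have hall : ∑ w ∈ Icc (-(N : ℤ)) N, |∑ m ∈ Ioc (x w) (y w), ρ w m * (f (α * m + w) * gg M v n₀ (β * m + w))| ≤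
      Q * ((2 * N + 1) * (2 * B) + 2 * ((K + 1) * (ε / (4 * Q * (K + 1)) * N ^ 2))) := by
    refine (Finset.sum_le_sum (fun w _ => hone w)).trans ?_
    rw [Finset.sum_comm]
    have h1 : ∀ r ∈ range Q, ∑ w ∈ Icc (-(N : ℤ)) N, (2 * (B : ℝ) + 2 * ∑ q ∈ range (K + 1), |∑ m ∈ Ioc 0 (min (q * B) N), (if (m - 1) % Q = r then F w m else 0)|) ≤
        (2 * N + 1) * (2 * B) + 2 * ((K + 1) * (ε / (4 * Q * (K + 1)) * N ^ 2)) := by
      intro r hr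
      rw [Finset.sum_add_distrib, Finset.sum_const, Int.card_Icc, nsmul_eq_mul, ← Finset.mul_sum, Finset.sum_comm]
      have e6 : (((N : ℤ) + 1 - -(N : ℤ)).toNat : ℤ) = 2 * N + 1 := by omega
      have e7 : ((((N : ℤ) + 1 - -(N : ℤ)).toNat : ℕ) : ℝ) = ((((N : ℤ) + 1 - -(N : ℤ)).toNat : ℤ) : ℝ) := by push_cast; rfl
      rw [e7, e6]
      have h2 : ∑ q ∈ range (K + 1), ∑ w ∈ Icc (-(N : ℤ)) N, |∑ m ∈ Ioc 0 (min (q * B) N), (if (m - 1) % Q = r then F w m else 0)| ≤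
          (K + 1) * (ε / (4 * Q * (K + 1)) * N ^ 2) := by
        calc ∑ q ∈ range (K + 1), ∑ w ∈ Icc (-(N : ℤ)) N, |∑ m ∈ Ioc 0 (min (q * B) N), (if (m - 1) % Q = r then F w m else 0)| ≤
              ∑ q ∈ range (K + 1), ε / (4 * Q * (K + 1)) * (N : ℝ) ^ 2 := Finset.sum_le_sum (fun q _ => hcls r hr _ (min_le_right _ _))
          _ = (K + 1) * (ε / (4 * Q * (K + 1)) * N ^ 2) := by
              rw [Finset.sum_const, Finset.card_range, nsmul_eq_mul]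
              push_cast
              ring
      push_cast
      linarith
    refine (Finset.sum_le_sum h1).trans (le_of_eq ?_)
    rw [Finset.sum_const, Finset.card_range, nsmul_eq_mul]
  refine hall.trans ?_
  have h1 : (Q : ℝ) * (2 * ((K + 1) * (ε / (4 * Q * (K + 1)) * N ^ 2))) = ε / 2 * N ^ 2 := by
    field_simp
    ring
  have h2 : (Q : ℝ) * ((2 * N + 1) * (2 * B)) ≤ ε / 2 * N ^ 2 := by
    have h3 : (2 * (N : ℝ) + 1) * (2 * B) ≤ 3 * N * (2 * (2 * N / K)) := by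
      apply mul_le_mul (by linarith) (by linarith) (by positivity) (by positivity)
    calc (Q : ℝ) * ((2 * N + 1) * (2 * B)) ≤ Q * (3 * N * (2 * (2 * N / K))) := mul_le_mul_of_nonneg_left h3 hQr.le
      _ = (24 * (Q : ℝ)) * N ^ 2 / (2 * K) := by field_simp; ring
      _ ≤ (ε * K) * N ^ 2 / (2 * K) := by
          apply div_le_div_of_nonneg_right _ (by positivity)
          exact mul_le_mul_of_nonneg_right hKe (by positivity)
      _ = ε / 2 * N ^ 2 := by field_simp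
  linarith
-- END c1

-- BEGIN corr
private theorem corr_sq (m n : ℕ) (hn : n ≠ 0) :
    ((jacobiSym (m : ℤ) n : ℤ) : ℝ) ^ 2 = if Nat.Coprime m n then 1 else 0 := by
  have : NeZero n := ⟨hn⟩
  have hg : (m : ℤ).gcd (n : ℤ) = Nat.gcd m n := Int.gcd_natCast_natCast m n
  split_ifs with h
  · have h1 := jacobiSym.sq_one (a := (m : ℤ)) (b := n) (hg.trans h)
    exact_mod_cast h1
  · have h1 : jacobiSym (m : ℤ) n = 0 :=
      jacobiSym.eq_zero_iff_not_coprime.2 fun h' => h (hg.symm.trans h')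
    rw [h1]
    simp

/-- the nonzero `w` in `[-N, N]` divisible by `n` -/
private theorem corr_mul (N n : ℕ) :
    (((Icc (-(N : ℤ)) N).erase 0).filter (fun w => (n : ℤ) ∣ w)).card ≤ 2 * (N / n) := by
  classical
  set M := (Ioc 0 N).filter (fun m => n ∣ m) with hM
  have hMc : M.card = N / n := Nat.Ioc_filter_dvd_card_eq_div N n
  have h1 : (((Icc (-(N : ℤ)) N).erase 0).filter (fun w => (n : ℤ) ∣ w)) ⊆
      M.image (fun m : ℕ => (m : ℤ)) ∪ M.image (fun m : ℕ => -(m : ℤ)) := by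
    intro w hw
    rw [Finset.mem_filter, Finset.mem_erase, Finset.mem_Icc] at hw
    obtain ⟨⟨h0, h2, h3⟩, h4⟩ := hw
    have h5 : n ∣ w.natAbs := Int.natCast_dvd.1 h4
    have h6 : w.natAbs ∈ M := by
      rw [hM, Finset.mem_filter, Finset.mem_Ioc]
      exact ⟨⟨by omega, by omega⟩, h5⟩
    rw [Finset.mem_union, Finset.mem_image, Finset.mem_image]
    rcases le_total 0 w with h | h
    · exact Or.inl ⟨_, h6, by omega⟩
    · exact Or.inr ⟨_, h6, by omega⟩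
  calc _ ≤ (M.image (fun m : ℕ => (m : ℤ)) ∪ M.image (fun m : ℕ => -(m : ℤ))).card :=
        Finset.card_le_card h1
    _ ≤ (M.image (fun m : ℕ => (m : ℤ))).card + (M.image (fun m : ℕ => -(m : ℤ))).card :=
        Finset.card_union_le _ _
    _ ≤ M.card + M.card := add_le_add Finset.card_image_le Finset.card_image_le
    _ = 2 * (N / n) := by rw [hMc]; ring

open Classical in
/-- the pairs with a common divisor larger than `W` -/
private theorem corr_cnt (W N : ℕ) (hW : 0 < W) :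
    ∑ w ∈ (Icc (-(N : ℤ)) N).erase 0,
      (((Icc 1 N).filter (fun m => ∃ n : ℕ, W < n ∧ n ∣ m ∧ (n : ℤ) ∣ w)).card : ℝ) ≤
      2 * (N : ℝ) ^ 2 / W := by
  have h1 : ∀ w : ℤ, (((Icc 1 N).filter (fun m => ∃ n : ℕ, W < n ∧ n ∣ m ∧ (n : ℤ) ∣ w)).card : ℝ) ≤
      ∑ n ∈ Ioc W N, if (n : ℤ) ∣ w then ((N / n : ℕ) : ℝ) else 0 := by
    intro w
    rw [← Finset.sum_filter, ← Nat.cast_sum]
    have h2 : ((Icc 1 N).filter (fun m => ∃ n : ℕ, W < n ∧ n ∣ m ∧ (n : ℤ) ∣ w)) ⊆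
        ((Ioc W N).filter (fun n : ℕ => (n : ℤ) ∣ w)).biUnion
          (fun n => (Ioc 0 N).filter (fun m => n ∣ m)) := by
      intro m hm
      rw [Finset.mem_filter, Finset.mem_Icc] at hm
      obtain ⟨⟨h3, h4⟩, n, h5, h6, h7⟩ := hm
      rw [Finset.mem_biUnion]
      refine ⟨n, Finset.mem_filter.2 ⟨Finset.mem_Ioc.2 ⟨h5, ?_⟩, h7⟩,
        Finset.mem_filter.2 ⟨Finset.mem_Ioc.2 ⟨by omega, h4⟩, h6⟩⟩
      exact (Nat.le_of_dvd (by omega) h6).trans h4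
    have h3 := (Finset.card_le_card h2).trans Finset.card_biUnion_le
    rw [Finset.sum_congr rfl fun n _ => Nat.Ioc_filter_dvd_card_eq_div N n] at h3
    exact_mod_cast h3
  refine (Finset.sum_le_sum fun w _ => h1 w).trans ?_
  rw [Finset.sum_comm]
  have h2 : ∀ n ∈ Ioc W N, ∑ w ∈ (Icc (-(N : ℤ)) N).erase 0,
      (if (n : ℤ) ∣ w then ((N / n : ℕ) : ℝ) else 0) ≤ 2 * (N : ℝ) ^ 2 * ((n : ℝ) ^ 2)⁻¹ := by
    intro n hn
    have hn0 : (0 : ℝ) < n := by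
      have := (Finset.mem_Ioc.1 hn).1
      exact_mod_cast (by omega : 0 < n)
    rw [← Finset.sum_filter, Finset.sum_const, nsmul_eq_mul]
    have h3 : ((((Icc (-(N : ℤ)) N).erase 0).filter (fun w => (n : ℤ) ∣ w)).card : ℝ) ≤
        2 * ((N / n : ℕ) : ℝ) := by
      exact_mod_cast corr_mul N n
    have h4 : ((N / n : ℕ) : ℝ) ≤ (N : ℝ) / n := Nat.cast_div_le
    have h5 : (0 : ℝ) ≤ ((N / n : ℕ) : ℝ) := Nat.cast_nonneg _
    calc _ ≤ 2 * ((N / n : ℕ) : ℝ) * ((N / n : ℕ) : ℝ) := mul_le_mul_of_nonneg_right h3 h5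
      _ ≤ 2 * ((N : ℝ) / n) * ((N : ℝ) / n) := by gcongr
      _ = 2 * (N : ℝ) ^ 2 * ((n : ℝ) ^ 2)⁻¹ := by
        field_simp
  refine (Finset.sum_le_sum h2).trans ?_
  rw [← Finset.mul_sum]
  rcases Nat.lt_or_ge N W with h | h
  · rw [Finset.Ioc_eq_empty (by omega), Finset.sum_empty, mul_zero]
    positivity
  · have h3 := sum_Ioc_inv_sq_le_sub (α := ℝ) hW.ne' h
    have h4 : (0 : ℝ) ≤ (N : ℝ)⁻¹ := by positivity
    rw [div_eq_mul_inv]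
    exact mul_le_mul_of_nonneg_left (h3.trans (by linarith)) (by positivity)

open Classical in
/-- `(m/ψ)²` is the condition modulo `W!` up to a common divisor larger than `W` -/
private theorem corr_dif (W m ψ : ℕ) (w : ℤ) (hw : w ≠ 0) (hψ : ψ ∣ w.natAbs) :
    |(if Nat.Coprime m (Nat.gcd ψ W.factorial) then (1 : ℝ) else 0) -
      ((jacobiSym (m : ℤ) ψ : ℤ) : ℝ) ^ 2| ≤
      if ∃ n : ℕ, W < n ∧ n ∣ m ∧ (n : ℤ) ∣ w then 1 else 0 := by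
  have hψ0 : ψ ≠ 0 := by
    rintro rfl
    exact hw (Int.natAbs_eq_zero.1 (Nat.eq_zero_of_zero_dvd hψ))
  rw [corr_sq m ψ hψ0]
  by_cases h : Nat.Coprime m ψ
  · rw [if_pos h, if_pos (Nat.Coprime.coprime_dvd_right (Nat.gcd_dvd_left _ _) h), sub_self, abs_zero]
    split_ifs <;> norm_num
  · rw [if_neg h, sub_zero]
    obtain ⟨p, hp, hpm, hpψ⟩ := Nat.Prime.not_coprime_iff_dvd.1 h
    by_cases hpW : p ≤ W
    · rw [if_neg]
      · rw [abs_zero]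
        split_ifs <;> norm_num
      · exact Nat.Prime.not_coprime_iff_dvd.2 ⟨p, hp, hpm,
          Nat.dvd_gcd hpψ (hp.dvd_factorial.2 hpW)⟩
    · rw [if_pos (⟨p, by omega, hpm, Int.natCast_dvd.2 (hpψ.trans hψ)⟩ :
        ∃ n : ℕ, W < n ∧ n ∣ m ∧ (n : ℤ) ∣ w)]
      split_ifs <;> norm_num

/-- K10. `(m/ψ)² = 1` if `gcd (m, ψ) = 1`, else `0`. Fix `W` with `20 / W ≤ ε / 2`, `P = ∏_(p ≤ W) p`. `gcd (m, ψ w) = 1` iff `gcd (m, ψ w)` is prime to `P` (a condition on `m` mod `P`: part of `ρ`, period `Q P`) and no prime `p > W` divides `m` and `ψ w`; the pairs `(w, m)`, `w ≠ 0`, with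
`p ∣ w`, `p ∣ m` for some `p > W` are at most `∑_(n > W) (2N/n)(N/n) ≤ 2N² / W`; `w = 0` gives at most `N`. Then `c1`. -/
theorem corr (M v : ℕ) (hM : 0 < M) (hv : 0 < v) (n₀ : ℤ) (α β : ℤ) (hβ : β ≠ 0) (hαβ : α ≠ β) (Q : ℕ) (hQ : 0 < Q) (ε : ℝ) (hε : 0 < ε) :
    ∃ N₀ : ℕ, ∀ N : ℕ, N₀ ≤ N → ∀ f : ℤ → ℝ, (∀ n, |f n| ≤ 1) → ∀ x y : ℤ → ℕ, (∀ w, y w ≤ N) →
      ∀ ρ : ℤ → ℕ → ℝ, (∀ w m, |ρ w m| ≤ 1) → (∀ w m m', m ≡ m' [MOD Q] → ρ w m = ρ w m') →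
      ∀ ψ : ℤ → ℕ, (∀ w, w ≠ 0 → ψ w ∣ w.natAbs) →
      ∑ w ∈ Icc (-(N : ℤ)) N, |∑ m ∈ Ioc (x w) (y w), ρ w m * ((jacobiSym (m : ℤ) (ψ w) : ℤ) : ℝ) ^ 2 *
        (f (α * m + w) * gg M v n₀ (β * m + w))| ≤ ε * N ^ 2 := by
  classical
  obtain ⟨W₀, hW₀⟩ := exists_nat_ge (8 / ε)
  set W := W₀ + 1 with hW
  have hW1 : 0 < W := by omega
  have hW2 : 2 / (W : ℝ) ≤ ε / 4 := by
    have h1 : (0 : ℝ) < W := by exact_mod_cast hW1
    rw [div_le_iff₀ h1]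
    rw [div_le_iff₀ hε] at hW₀
    have h2 : (W : ℝ) = W₀ + 1 := by rw [hW]; push_cast; ring
    rw [h2]
    nlinarith
  obtain ⟨N₁, hN₁⟩ := c1 M v hM hv n₀ α β hβ hαβ (Q * W.factorial)
    (Nat.mul_pos hQ (Nat.factorial_pos W)) (ε / 2) (half_pos hε)
  obtain ⟨N₂, hN₂⟩ := exists_nat_ge (4 / ε)
  refine ⟨max N₁ N₂, fun N hN f hf x y hy ρ hρ hρQ ψ hψ => ?_⟩
  have hNa : N₁ ≤ N := (le_max_left _ _).trans hN
  have hNb : (4 : ℝ) / ε ≤ N := hN₂.trans (by exact_mod_cast (le_max_right _ _).trans hN)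
  set χ : ℤ → ℕ → ℝ := fun w m =>
    if Nat.Coprime m (Nat.gcd (ψ w) W.factorial) then (1 : ℝ) else 0 with hχ
  have hχ1 : ∀ w m, |χ w m| ≤ 1 := by
    intro w m
    rw [hχ]
    beta_reduce
    split_ifs <;> norm_num
  have hF : ∀ (w : ℤ) (m : ℕ), |f (α * m + w) * gg M v n₀ (β * m + w)| ≤ 1 := by
    intro w m
    rw [abs_mul]
    exact mul_le_one₀ (hf _) (abs_nonneg _) (gg_le M v n₀ _)
  have hJ : ∀ (w : ℤ) (m : ℕ), |((jacobiSym (m : ℤ) (ψ w) : ℤ) : ℝ) ^ 2| ≤ 1 := by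
    intro w m
    rcases jacobiSym.trichotomy (m : ℤ) (ψ w) with h | h | h <;> rw [h] <;> norm_num
  have h1 := hN₁ N hNa f hf x y hy (fun w m => ρ w m * χ w m) (fun w m => by
    beta_reduce
    rw [abs_mul]
    exact mul_le_one₀ (hρ w m) (abs_nonneg _) (hχ1 w m)) (fun w m m' hmm => by
    beta_reduce
    rw [hρQ w m m' (hmm.of_mul_right _)]
    congr 1
    have h2 : m ≡ m' [MOD Nat.gcd (ψ w) W.factorial] :=
      (hmm.of_mul_left _).of_dvd (Nat.gcd_dvd_right _ _)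
    rw [hχ]
    beta_reduce
    have h3 : Nat.Coprime m (Nat.gcd (ψ w) W.factorial) ↔
        Nat.Coprime m' (Nat.gcd (ψ w) W.factorial) := by
      unfold Nat.Coprime
      rw [h2.gcd_eq]
    simp only [h3])
  have h0mem : (0 : ℤ) ∈ Icc (-(N : ℤ)) N := Finset.mem_Icc.2 ⟨by omega, by omega⟩
  rw [← Finset.add_sum_erase _ _ h0mem]
  -- the term `w = 0`
  have hz : |∑ m ∈ Ioc (x 0) (y 0), ρ 0 m * ((jacobiSym (m : ℤ) (ψ 0) : ℤ) : ℝ) ^ 2 *
        (f (α * m + 0) * gg M v n₀ (β * m + 0))| ≤ N := by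
    refine (Finset.abs_sum_le_sum_abs _ _).trans ?_
    calc _ ≤ ∑ _m ∈ Ioc (x 0) (y 0), (1 : ℝ) := by
          refine Finset.sum_le_sum fun m _ => ?_
          rw [abs_mul, abs_mul]
          exact mul_le_one₀ (mul_le_one₀ (hρ 0 m) (abs_nonneg _) (hJ 0 m)) (abs_nonneg _) (hF 0 m)
      _ = ((Ioc (x 0) (y 0)).card : ℝ) := by simp
      _ ≤ N := by
          rw [Nat.card_Ioc]
          exact_mod_cast (Nat.sub_le _ _).trans (hy 0)
  have hw : ∀ w ∈ (Icc (-(N : ℤ)) N).erase 0,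
      |∑ m ∈ Ioc (x w) (y w), ρ w m * ((jacobiSym (m : ℤ) (ψ w) : ℤ) : ℝ) ^ 2 *
        (f (α * m + w) * gg M v n₀ (β * m + w))| ≤
      |∑ m ∈ Ioc (x w) (y w), ρ w m * χ w m * (f (α * m + w) * gg M v n₀ (β * m + w))| +
        (((Icc 1 N).filter (fun m => ∃ n : ℕ, W < n ∧ n ∣ m ∧ (n : ℤ) ∣ w)).card : ℝ) := by
    intro w hw
    have hw0 : w ≠ 0 := (Finset.mem_erase.1 hw).1
    have e1 : ∑ m ∈ Ioc (x w) (y w), ρ w m * ((jacobiSym (m : ℤ) (ψ w) : ℤ) : ℝ) ^ 2 *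
        (f (α * m + w) * gg M v n₀ (β * m + w)) =
        ∑ m ∈ Ioc (x w) (y w), ρ w m * χ w m * (f (α * m + w) * gg M v n₀ (β * m + w)) -
        ∑ m ∈ Ioc (x w) (y w), ρ w m * (χ w m - ((jacobiSym (m : ℤ) (ψ w) : ℤ) : ℝ) ^ 2) *
          (f (α * m + w) * gg M v n₀ (β * m + w)) := by
      rw [← Finset.sum_sub_distrib]
      exact Finset.sum_congr rfl fun m _ => by ring
    rw [e1]
    refine (abs_sub _ _).trans (add_le_add le_rfl ?_)
    refine (Finset.abs_sum_le_sum_abs _ _).trans ?_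
    calc _ ≤ ∑ m ∈ Ioc (x w) (y w), (if ∃ n : ℕ, W < n ∧ n ∣ m ∧ (n : ℤ) ∣ w then (1 : ℝ) else 0) := by
          refine Finset.sum_le_sum fun m _ => ?_
          rw [abs_mul, abs_mul]
          have h2 := corr_dif W m (ψ w) w hw0 (hψ w hw0)
          calc |ρ w m| * |χ w m - ((jacobiSym (m : ℤ) (ψ w) : ℤ) : ℝ) ^ 2| *
                |f (α * m + w) * gg M v n₀ (β * m + w)|
              ≤ 1 * |χ w m - ((jacobiSym (m : ℤ) (ψ w) : ℤ) : ℝ) ^ 2| * 1 := by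
                refine mul_le_mul (mul_le_mul_of_nonneg_right (hρ w m) (abs_nonneg _)) (hF w m)
                  (abs_nonneg _) (by rw [one_mul]; exact abs_nonneg _)
            _ ≤ _ := by
                rw [one_mul, mul_one]
                exact h2
      _ ≤ ∑ m ∈ Icc 1 N, (if ∃ n : ℕ, W < n ∧ n ∣ m ∧ (n : ℤ) ∣ w then (1 : ℝ) else 0) := by
          refine Finset.sum_le_sum_of_subset_of_nonneg ?_ fun m _ _ => by split_ifs <;> norm_num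
          intro m hm
          rw [Finset.mem_Ioc] at hm
          have := hy w
          exact Finset.mem_Icc.2 ⟨by omega, by omega⟩
      _ = _ := by rw [Finset.sum_boole]
  have h2 := Finset.sum_le_sum hw
  rw [Finset.sum_add_distrib] at h2
  have h3 := corr_cnt W N hW1
  have h4 : ∑ w ∈ (Icc (-(N : ℤ)) N).erase 0,
      |∑ m ∈ Ioc (x w) (y w), ρ w m * χ w m * (f (α * m + w) * gg M v n₀ (β * m + w))| ≤
      ε / 2 * N ^ 2 :=
    (Finset.sum_le_sum_of_subset_of_nonneg (Finset.erase_subset _ _)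
      fun w _ _ => abs_nonneg _).trans h1
  have h5 : 2 * (N : ℝ) ^ 2 / W ≤ ε / 4 * N ^ 2 := by
    have h6 : 2 * (N : ℝ) ^ 2 / W = 2 / (W : ℝ) * N ^ 2 := by ring
    rw [h6]
    exact mul_le_mul_of_nonneg_right hW2 (by positivity)
  have h6 : (N : ℝ) ≤ ε / 4 * N ^ 2 := by
    rw [div_le_iff₀ hε] at hNb
    have h7 : (0 : ℝ) ≤ N := Nat.cast_nonneg N
    nlinarith
  linarith
-- END corr

-- BEGIN core
/-- the term of `core` as a function on all of `ℕ` -/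
private noncomputable def core_G (M S U : ℕ) (s₀ σ : ℤ) (ρ : ℤ → ℕ → ℝ) (ψ : ℤ → ℕ) (x y : ℤ → ℕ) (w : ℤ) (n : ℕ) : ℝ :=
  if n ∈ Ioc (x w) (y w) then ρ w n * ((jacobiSym (n : ℤ) (ψ w) : ℤ) : ℝ) * gg M S s₀ (σ * U * n + w) else 0

private theorem core_jac (a : ℤ) (b : ℕ) : |((jacobiSym a b : ℤ) : ℝ)| ≤ 1 := by
  rcases jacobiSym.trichotomy a b with h | h | h <;> rw [h] <;> norm_num

private theorem core_mul_le {a b : ℝ} (ha : |a| ≤ 1) (hb : |b| ≤ 1) : |a * b| ≤ 1 := by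
  rw [abs_mul]
  exact mul_le_one₀ ha (abs_nonneg _) hb

private theorem core_G_le (M S U : ℕ) (s₀ σ : ℤ) (ρ : ℤ → ℕ → ℝ) (hρ : ∀ w m, |ρ w m| ≤ 1) (ψ : ℤ → ℕ) (x y : ℤ → ℕ)
    (w : ℤ) (n : ℕ) : |core_G M S U s₀ σ ρ ψ x y w n| ≤ 1 := by
  unfold core_G
  split_ifs with h
  · exact core_mul_le (core_mul_le (hρ w n) (core_jac _ _)) (gg_le _ _ _ _)
  · simp

private theorem core_G_mul (M S U : ℕ) (s₀ σ : ℤ) (ρ : ℤ → ℕ → ℝ) (ψ : ℤ → ℕ) (x y : ℤ → ℕ)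
    (w : ℤ) (N p p' : ℕ) (hp : 0 < p) (hp' : 0 < p') (hy : y w ≤ N) :
    ∑ m ∈ Icc 1 (N / max p p'), core_G M S U s₀ σ ρ ψ x y w (p * m) * core_G M S U s₀ σ ρ ψ x y w (p' * m) =
      ∑ m ∈ Ioc (max (x w / p) (x w / p')) (min (y w / p) (y w / p')),
        (ρ w (p * m) * ρ w (p' * m) * (((jacobiSym (p : ℤ) (ψ w) : ℤ) : ℝ) * ((jacobiSym (p' : ℤ) (ψ w) : ℤ) : ℝ))) *
        ((jacobiSym (m : ℤ) (ψ w) : ℤ) : ℝ) ^ 2 *
        (gg M S s₀ (σ * U * p * m + w) * gg M S s₀ (σ * U * p' * m + w)) := by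
  have key : ∀ (q : ℕ), 0 < q → ∀ m : ℕ, q * m ∈ Ioc (x w) (y w) ↔ x w / q < m ∧ m ≤ y w / q := by
    intro q hq m
    rw [mem_Ioc, Nat.div_lt_iff_lt_mul hq, Nat.le_div_iff_mul_le hq, mul_comm q m]
  have hsub : Ioc (max (x w / p) (x w / p')) (min (y w / p) (y w / p')) ⊆ Icc 1 (N / max p p') := by
    intro m hm
    rw [mem_Ioc] at hm
    rw [mem_Icc]
    have h1 := le_min_iff.1 hm.2
    refine ⟨(Nat.zero_le _).trans_lt hm.1, ?_⟩
    rw [Nat.le_div_iff_mul_le (lt_max_of_lt_left hp)]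
    have h2 := (Nat.le_div_iff_mul_le hp).1 h1.1
    have h3 := (Nat.le_div_iff_mul_le hp').1 h1.2
    rcases max_choice p p' with h4 | h4 <;> rw [h4]
    · exact h2.trans hy
    · exact h3.trans hy
  rw [← Finset.sum_subset hsub]
  · refine Finset.sum_congr rfl fun m hm => ?_
    rw [mem_Ioc] at hm
    have h1 := le_min_iff.1 hm.2
    have h2 := max_lt_iff.1 hm.1
    unfold core_G
    rw [if_pos ((key p hp m).2 ⟨h2.1, h1.1⟩), if_pos ((key p' hp' m).2 ⟨h2.2, h1.2⟩)]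
    have e1 : jacobiSym ((p * m : ℕ) : ℤ) (ψ w) = jacobiSym (p : ℤ) (ψ w) * jacobiSym (m : ℤ) (ψ w) := by
      rw [Nat.cast_mul, jacobiSym.mul_left]
    have e2 : jacobiSym ((p' * m : ℕ) : ℤ) (ψ w) = jacobiSym (p' : ℤ) (ψ w) * jacobiSym (m : ℤ) (ψ w) := by
      rw [Nat.cast_mul, jacobiSym.mul_left]
    have e3 : σ * U * ((p * m : ℕ) : ℤ) + w = σ * U * p * m + w := by
      push_cast
      ring
    have e4 : σ * U * ((p' * m : ℕ) : ℤ) + w = σ * U * p' * m + w := by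
      push_cast
      ring
    rw [e1, e2, e3, e4]
    push_cast
    ring
  · intro m _ hm
    by_contra hne
    apply hm
    have h1 : p * m ∈ Ioc (x w) (y w) := by
      by_contra h2
      apply hne
      unfold core_G
      rw [if_neg h2, zero_mul]
    have h2 : p' * m ∈ Ioc (x w) (y w) := by
      by_contra h3
      apply hne
      unfold core_G
      rw [if_neg h3, mul_zero]
    have h3 := (key p hp m).1 h1
    have h4 := (key p' hp' m).1 h2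
    rw [mem_Ioc]
    exact ⟨max_lt h3.1 h4.1, le_min h3.2 h4.2⟩

private theorem core_G_sum (M S U : ℕ) (s₀ σ : ℤ) (ρ : ℤ → ℕ → ℝ) (ψ : ℤ → ℕ) (x y : ℤ → ℕ)
    (w : ℤ) (N : ℕ) (hy : y w ≤ N) :
    ∑ n ∈ Icc 1 N, ((ArithmeticFunction.moebius n : ℤ) : ℝ) * core_G M S U s₀ σ ρ ψ x y w n =
      ∑ m ∈ Ioc (x w) (y w), mob m * (ρ w m * ((jacobiSym (m : ℤ) (ψ w) : ℤ) : ℝ) *
        gg M S s₀ (σ * U * m + w)) := by
  have hsub : Ioc (x w) (y w) ⊆ Icc 1 N := by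
    intro m hm
    rw [mem_Ioc] at hm
    rw [mem_Icc]
    omega
  rw [← Finset.sum_subset hsub]
  · refine Finset.sum_congr rfl fun m hm => ?_
    unfold core_G mob
    rw [if_pos hm, Int.natAbs_natCast]
  · intro m _ hm
    unfold core_G
    rw [if_neg hm, mul_zero]

/-- the pointwise bound: Katai, or one of the correlations is large -/
private theorem core_pt (M S U : ℕ) (s₀ σ : ℤ) (ρ : ℤ → ℕ → ℝ) (hρ : ∀ w m, |ρ w m| ≤ 1) (ψ : ℤ → ℕ) (x y : ℤ → ℕ)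
    (w : ℤ) (N : ℕ) (hy : y w ≤ N) (P : Finset ℕ) (hP : ∀ p ∈ P, p.Prime) (κ δ : ℝ) (hκ : 0 < κ) (hδ : 0 ≤ δ)
    (hk : ∀ F : ℕ → ℂ, (∀ n, ‖F n‖ ≤ 1) →
      (∀ p ∈ P, ∀ p' ∈ P, p ≠ p' →
        ‖∑ m ∈ Icc 1 (N / max p p'), F (p * m) * (starRingEnd ℂ) (F (p' * m))‖ ≤ κ * N) →
      ‖∑ n ∈ Icc 1 N, ((ArithmeticFunction.moebius n : ℤ) : ℂ) * F n‖ ≤ δ * N) :
    |∑ m ∈ Ioc (x w) (y w), mob m * (ρ w m * ((jacobiSym (m : ℤ) (ψ w) : ℤ) : ℝ) *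
        gg M S s₀ (σ * U * m + w))| ≤ δ * N + κ⁻¹ * ∑ q ∈ P.offDiag,
      |∑ m ∈ Ioc (max (x w / q.1) (x w / q.2)) (min (y w / q.1) (y w / q.2)),
        (ρ w (q.1 * m) * ρ w (q.2 * m) * (((jacobiSym (q.1 : ℤ) (ψ w) : ℤ) : ℝ) * ((jacobiSym (q.2 : ℤ) (ψ w) : ℤ) : ℝ))) *
        ((jacobiSym (m : ℤ) (ψ w) : ℤ) : ℝ) ^ 2 *
        (gg M S s₀ (σ * U * q.1 * m + w) * gg M S s₀ (σ * U * q.2 * m + w))| := by
  rw [← core_G_sum M S U s₀ σ ρ ψ x y w N hy]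
  have hcast : ∀ r : ℝ, |r| = ‖(r : ℂ)‖ := fun r => by rw [Complex.norm_real, Real.norm_eq_abs]
  have hGle := core_G_le M S U s₀ σ ρ hρ ψ x y w
  have hnn : ∀ q ∈ P.offDiag, 0 ≤ |∑ m ∈ Ioc (max (x w / q.1) (x w / q.2)) (min (y w / q.1) (y w / q.2)),
        (ρ w (q.1 * m) * ρ w (q.2 * m) * (((jacobiSym (q.1 : ℤ) (ψ w) : ℤ) : ℝ) * ((jacobiSym (q.2 : ℤ) (ψ w) : ℤ) : ℝ))) *
        ((jacobiSym (m : ℤ) (ψ w) : ℤ) : ℝ) ^ 2 *
        (gg M S s₀ (σ * U * q.1 * m + w) * gg M S s₀ (σ * U * q.2 * m + w))| := fun q _ => abs_nonneg _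
  by_cases hall : ∀ p ∈ P, ∀ p' ∈ P, p ≠ p' →
      |∑ m ∈ Icc 1 (N / max p p'), core_G M S U s₀ σ ρ ψ x y w (p * m) * core_G M S U s₀ σ ρ ψ x y w (p' * m)| ≤ κ * N
  · have h1 := hk (fun n => (core_G M S U s₀ σ ρ ψ x y w n : ℂ)) (fun n => by
      rw [← hcast]
      exact hGle n) (fun p hp p' hp' hne => by
        have h2 := hall p hp p' hp' hne
        rw [hcast] at h2
        push_cast at h2
        simpa only [Complex.conj_ofReal] using h2)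
    have h2 : |∑ n ∈ Icc 1 N, ((ArithmeticFunction.moebius n : ℤ) : ℝ) * core_G M S U s₀ σ ρ ψ x y w n| ≤ δ * N := by
      rw [hcast]
      push_cast
      exact h1
    have h3 := mul_nonneg (inv_nonneg.2 hκ.le) (Finset.sum_nonneg hnn)
    linarith
  · push Not at hall
    obtain ⟨p, hp, p', hp', hne, hlt⟩ := hall
    have h1 : |∑ n ∈ Icc 1 N, ((ArithmeticFunction.moebius n : ℤ) : ℝ) * core_G M S U s₀ σ ρ ψ x y w n| ≤ N := by
      refine (Finset.abs_sum_le_sum_abs _ _).trans ?_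
      have h2 : ∀ n ∈ Icc 1 N, |((ArithmeticFunction.moebius n : ℤ) : ℝ) * core_G M S U s₀ σ ρ ψ x y w n| ≤ 1 := by
        intro n _
        refine core_mul_le ?_ (hGle n)
        have h3 : |ArithmeticFunction.moebius n| ≤ 1 := ArithmeticFunction.abs_moebius_le_one
        exact_mod_cast h3
      refine (Finset.sum_le_sum h2).trans ?_
      rw [Finset.sum_const, Nat.card_Icc, nsmul_eq_mul, mul_one]
      simp
    have hmem : (p, p') ∈ P.offDiag := Finset.mem_offDiag.2 ⟨hp, hp', hne⟩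
    have h2 := Finset.single_le_sum hnn hmem
    dsimp only at h2
    rw [← core_G_mul M S U s₀ σ ρ ψ x y w N p p' (hP p hp).pos (hP p' hp').pos hy] at h2
    have h3 : (N : ℝ) ≤ κ⁻¹ * ∑ q ∈ P.offDiag,
      |∑ m ∈ Ioc (max (x w / q.1) (x w / q.2)) (min (y w / q.1) (y w / q.2)),
        (ρ w (q.1 * m) * ρ w (q.2 * m) * (((jacobiSym (q.1 : ℤ) (ψ w) : ℤ) : ℝ) * ((jacobiSym (q.2 : ℤ) (ψ w) : ℤ) : ℝ))) *
        ((jacobiSym (m : ℤ) (ψ w) : ℤ) : ℝ) ^ 2 *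
        (gg M S s₀ (σ * U * q.1 * m + w) * gg M S s₀ (σ * U * q.2 * m + w))| := by
      rw [le_inv_mul_iff₀ hκ]
      exact hlt.le.trans h2
    have h4 : 0 ≤ δ * N := mul_nonneg hδ (Nat.cast_nonneg _)
    linarith

/-- K11. Katai. `kbs` with `ε / 8` gives `P, κ, N₁`. For each `w`, `F n = ρ w n (n/ψ w) gg (σ U n + w)` for `n ∈ Ioc (x w) (y w)`, else `0`. For `p ≠ p'` in `P`: `F (p m) F (p' m) = ρ w (pm) ρ w (p'm) (p p'/ψ w) (m/ψ w)² gg (σUp m + w) gg (σUp' m + w)` for the `m` in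
`Ioc (max (x/p) (x/p')) (min (min (y/p) (y/p')) (N / max p p'))`: `corr` with `α = σUp`, `β = σUp'` and `ε₂ = κ ε / (8 (|P|² + 1))`, so all but `ε N / 8` of the `w` satisfy the hypothesis of `kbs`; the others contribute at most `N` each. -/
theorem core (M S U : ℕ) (hM : 0 < M) (hS : 0 < S) (hU : 0 < U) (s₀ σ : ℤ) (hσ : σ = 1 ∨ σ = -1) (Q : ℕ) (hQ : 0 < Q) (ε : ℝ) (hε : 0 < ε) :
    ∃ N₀ : ℕ, ∀ N : ℕ, N₀ ≤ N → ∀ x y : ℤ → ℕ, (∀ w, y w ≤ N) →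
      ∀ ρ : ℤ → ℕ → ℝ, (∀ w m, |ρ w m| ≤ 1) → (∀ w m m', m ≡ m' [MOD Q] → ρ w m = ρ w m') →
      ∀ ψ : ℤ → ℕ, (∀ w, w ≠ 0 → ψ w ∣ w.natAbs) →
      ∑ w ∈ Icc (-(N : ℤ)) N, |∑ m ∈ Ioc (x w) (y w), mob m * (ρ w m * ((jacobiSym (m : ℤ) (ψ w) : ℤ) : ℝ) *
        gg M S s₀ (σ * U * m + w))| ≤ ε * N ^ 2 := by
  obtain ⟨P, κ, N₁, hP, hκ, hk⟩ := kbs (ε / 8) (by positivity)
  have hσ0 : σ ≠ 0 := by
    rcases hσ with h | h <;> rw [h] <;> norm_num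
  have hU0 : (U : ℤ) ≠ 0 := by exact_mod_cast hU.ne'
  have hε₂ : 0 < κ * ε / (8 * ((P.offDiag.card : ℝ) + 1)) := by positivity
  have hcorr : ∀ q ∈ P.offDiag, ∀ᶠ N : ℕ in atTop, ∀ f : ℤ → ℝ, (∀ n, |f n| ≤ 1) → ∀ x y : ℤ → ℕ, (∀ w, y w ≤ N) →
      ∀ ρ : ℤ → ℕ → ℝ, (∀ w m, |ρ w m| ≤ 1) → (∀ w m m', m ≡ m' [MOD Q] → ρ w m = ρ w m') →
      ∀ ψ : ℤ → ℕ, (∀ w, w ≠ 0 → ψ w ∣ w.natAbs) →
      ∑ w ∈ Icc (-(N : ℤ)) N, |∑ m ∈ Ioc (x w) (y w), ρ w m * ((jacobiSym (m : ℤ) (ψ w) : ℤ) : ℝ) ^ 2 *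
        (f (σ * U * q.1 * m + w) * gg M S s₀ (σ * U * q.2 * m + w))| ≤
        (κ * ε / (8 * ((P.offDiag.card : ℝ) + 1))) * N ^ 2 := by
    intro q hq
    obtain ⟨h1, h2, h3⟩ := Finset.mem_offDiag.1 hq
    have hq2 : (q.2 : ℤ) ≠ 0 := by exact_mod_cast (hP _ h2).ne_zero
    have hβ : σ * U * q.2 ≠ 0 := mul_ne_zero (mul_ne_zero hσ0 hU0) hq2
    have hαβ : σ * U * q.1 ≠ σ * U * q.2 := by
      intro h
      have h4 := mul_left_cancel₀ (mul_ne_zero hσ0 hU0) h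
      exact h3 (by exact_mod_cast h4)
    obtain ⟨N₂, hN₂⟩ := corr M S hM hS s₀ (σ * U * q.1) (σ * U * q.2) hβ hαβ Q hQ _ hε₂
    exact eventually_atTop.2 ⟨N₂, hN₂⟩
  obtain ⟨N₂, hN₂⟩ := eventually_atTop.1 ((eventually_all_finset P.offDiag).2 hcorr)
  refine ⟨max (max N₁ N₂) 1, fun N hN x y hy ρ hρ hρQ ψ hψ => ?_⟩
  have hNN₁ : N₁ ≤ N := ((le_max_left _ _).trans (le_max_left _ _)).trans hN
  have hNN₂ : N₂ ≤ N := ((le_max_right _ _).trans (le_max_left _ _)).trans hN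
  have hN1 : 1 ≤ N := (le_max_right _ _).trans hN
  have hpt : ∀ w ∈ Icc (-(N : ℤ)) N, _ := fun w _ =>
    core_pt M S U s₀ σ ρ hρ ψ x y w N (hy w) P hP κ (ε / 8) hκ (by positivity) (fun F hF h => hk N F hNN₁ hF h)
  refine (Finset.sum_le_sum hpt).trans ?_
  rw [Finset.sum_add_distrib, Finset.sum_const, nsmul_eq_mul, Int.card_Icc, ← Finset.mul_sum, Finset.sum_comm]
  have hpair : ∀ q ∈ P.offDiag, ∑ w ∈ Icc (-(N : ℤ)) N,
      |∑ m ∈ Ioc (max (x w / q.1) (x w / q.2)) (min (y w / q.1) (y w / q.2)),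
        (ρ w (q.1 * m) * ρ w (q.2 * m) * (((jacobiSym (q.1 : ℤ) (ψ w) : ℤ) : ℝ) * ((jacobiSym (q.2 : ℤ) (ψ w) : ℤ) : ℝ))) *
        ((jacobiSym (m : ℤ) (ψ w) : ℤ) : ℝ) ^ 2 *
        (gg M S s₀ (σ * U * q.1 * m + w) * gg M S s₀ (σ * U * q.2 * m + w))| ≤
        (κ * ε / (8 * ((P.offDiag.card : ℝ) + 1))) * N ^ 2 := by
    intro q hq
    refine hN₂ N hNN₂ q hq (gg M S s₀) (gg_le M S s₀) (fun w => max (x w / q.1) (x w / q.2))
      (fun w => min (y w / q.1) (y w / q.2)) (fun w => ?_)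
      (fun w m => ρ w (q.1 * m) * ρ w (q.2 * m) *
        (((jacobiSym (q.1 : ℤ) (ψ w) : ℤ) : ℝ) * ((jacobiSym (q.2 : ℤ) (ψ w) : ℤ) : ℝ)))
      (fun w m => core_mul_le (core_mul_le (hρ _ _) (hρ _ _)) (core_mul_le (core_jac _ _) (core_jac _ _)))
      (fun w m m' hm => ?_) ψ hψ
    · exact (min_le_left _ _).trans ((Nat.div_le_self _ _).trans (hy w))
    · rw [hρQ w (q.1 * m) (q.1 * m') (hm.mul_left _), hρQ w (q.2 * m) (q.2 * m') (hm.mul_left _)]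
  have h1 := Finset.sum_le_sum hpair
  rw [Finset.sum_const, nsmul_eq_mul] at h1
  have h2 : (((N : ℤ) + 1 - -(N : ℤ)).toNat : ℝ) = 2 * N + 1 := by
    have h3 : ((N : ℤ) + 1 - -(N : ℤ)).toNat = 2 * N + 1 := by omega
    rw [h3]
    push_cast
    ring
  rw [h2]
  have h4 : κ⁻¹ * ((P.offDiag.card : ℝ) * ((κ * ε / (8 * ((P.offDiag.card : ℝ) + 1))) * N ^ 2)) ≤ ε / 8 * N ^ 2 := by
    have h5 : κ⁻¹ * ((P.offDiag.card : ℝ) * ((κ * ε / (8 * ((P.offDiag.card : ℝ) + 1))) * N ^ 2)) =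
        ((P.offDiag.card : ℝ) / ((P.offDiag.card : ℝ) + 1)) * (ε / 8 * N ^ 2) := by
      field_simp
    rw [h5]
    have h6 : (P.offDiag.card : ℝ) / ((P.offDiag.card : ℝ) + 1) ≤ 1 := by
      rw [div_le_one (by positivity)]
      linarith
    have h7 : 0 ≤ ε / 8 * (N : ℝ) ^ 2 := by positivity
    nlinarith
  have h5 := mul_le_mul_of_nonneg_left h1 (inv_nonneg.2 hκ.le)
  have h6 : (1 : ℝ) ≤ N := by exact_mod_cast hN1
  have h7 : (N : ℝ) ≤ (N : ℝ) ^ 2 := by nlinarith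
  have h8 : (2 * (N : ℝ) + 1) * (ε / 8 * N) ≤ ε / 2 * N ^ 2 := by nlinarith
  nlinarith [mul_nonneg hε.le (sq_nonneg (N : ℝ))]
-- END core

-- BEGIN coreP
open Classical in
private theorem coreP_ivl (N : ℕ) (P : ℕ → Prop) (hP : ∀ m m' m'', m ≤ m' → m' ≤ m'' → P m → P m'' → P m') :
    ∃ a b : ℕ, b ≤ N ∧ (Icc 1 N).filter (fun m => P m) = Ioc a b := by
  by_cases hne : ((Icc 1 N).filter (fun m => P m)).Nonempty
  · have hmin := Finset.min'_mem _ hne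
    have hmax := Finset.max'_mem _ hne
    have hmin' := mem_filter.1 hmin
    have hmax' := mem_filter.1 hmax
    have h1 := mem_Icc.1 hmin'.1
    have h2 := mem_Icc.1 hmax'.1
    refine ⟨((Icc 1 N).filter (fun m => P m)).min' hne - 1, ((Icc 1 N).filter (fun m => P m)).max' hne, h2.2, ?_⟩
    ext m
    rw [mem_Ioc]
    constructor
    · intro hm
      have h3 := Finset.min'_le _ _ hm
      have h4 := Finset.le_max' _ _ hm
      omega
    · intro hm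
      have h3 : ((Icc 1 N).filter (fun m => P m)).min' hne ≤ m := by omega
      rw [mem_filter, mem_Icc]
      exact ⟨⟨h1.1.trans h3, hm.2.trans h2.2⟩, hP _ _ _ h3 hm.2 hmin'.2 hmax'.2⟩
  · refine ⟨0, 0, Nat.zero_le _, ?_⟩
    rw [Finset.not_nonempty_iff_eq_empty.1 hne, Ioc_self]

open Classical in
/-- K12. The set of the `m ∈ Icc 1 N` with `P w m` is order convex, so it is `Ioc (x w) (y w)` for suitable `x w`, `y w ≤ N` (`min - 1`, `max`; `Ioc 0 0` if empty). -/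
theorem coreP (M S U : ℕ) (hM : 0 < M) (hS : 0 < S) (hU : 0 < U) (s₀ σ : ℤ) (hσ : σ = 1 ∨ σ = -1) (Q : ℕ) (hQ : 0 < Q) (ε : ℝ) (hε : 0 < ε) :
    ∃ N₀ : ℕ, ∀ N : ℕ, N₀ ≤ N → ∀ P : ℤ → ℕ → Prop, (∀ w m m' m'', m ≤ m' → m' ≤ m'' → P w m → P w m'' → P w m') →
      ∀ ρ : ℤ → ℕ → ℝ, (∀ w m, |ρ w m| ≤ 1) → (∀ w m m', m ≡ m' [MOD Q] → ρ w m = ρ w m') →
      ∀ ψ : ℤ → ℕ, (∀ w, w ≠ 0 → ψ w ∣ w.natAbs) →
      ∑ w ∈ Icc (-(N : ℤ)) N, |∑ m ∈ (Icc 1 N).filter (fun m => P w m), mob m * (ρ w m * ((jacobiSym (m : ℤ) (ψ w) : ℤ) : ℝ) *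
        gg M S s₀ (σ * U * m + w))| ≤ ε * N ^ 2 := by
  obtain ⟨N₀, hN₀⟩ := core M S U hM hS hU s₀ σ hσ Q hQ ε hε
  refine ⟨N₀, fun N hN P hP ρ hρ hρQ ψ hψ => ?_⟩
  have h1 : ∀ w : ℤ, ∃ a b : ℕ, b ≤ N ∧ (Icc 1 N).filter (fun m => P w m) = Ioc a b :=
    fun w => coreP_ivl N (P w) (hP w)
  choose x y hy hxy using h1
  have h2 := hN₀ N hN x y hy ρ hρ hρQ ψ hψ
  have h3 : ∀ w ∈ Icc (-(N : ℤ)) N, |∑ m ∈ (Icc 1 N).filter (fun m => P w m), mob m *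
      (ρ w m * ((jacobiSym (m : ℤ) (ψ w) : ℤ) : ℝ) * gg M S s₀ (σ * U * m + w))| =
      |∑ m ∈ Ioc (x w) (y w), mob m * (ρ w m * ((jacobiSym (m : ℤ) (ψ w) : ℤ) : ℝ) *
        gg M S s₀ (σ * U * m + w))| := by
    intro w _
    rw [hxy w]
  rw [Finset.sum_congr rfl h3]
  exact h2
-- END coreP

end Rnc
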