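import Pool.Agent.Rnc.Core

/-!
# Rnc CORE4: sums `∑_a |∑_m μ(m) (m/a') μ(κm + a²)|`
-/

set_option autoImplicit false

namespace Rnc

open Finset Filter Topology Rnt

-- BEGIN vdcN
private theorem vdcN_shift (x : ℤ → ℝ) (R : ℤ) (H : ℕ) (hx : ∀ r, r ∉ Ioc R (R + H) → x r = 0)
    (K : ℕ) (k : ℕ) (hk : k < K) :
    ∑ s ∈ Ioc (R - K) (R + H), x (s + k) = ∑ r ∈ Ioc R (R + H), x r := by
  have h1 : ∑ s ∈ Ioc (R - K) (R + H), x (s + k) =
      ∑ r ∈ Ioc (R - K + k) (R + H + k), x r := by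
    rw [← Finset.map_add_right_Ioc, Finset.sum_map]
    rfl
  rw [h1]
  symm
  apply Finset.sum_subset
  · intro r hr
    rw [Finset.mem_Ioc] at hr ⊢
    omega
  · intro r _ hr
    exact hx r hr

private theorem vdcN_sum (c : ℕ → ℝ) (d : ℕ → ℕ → ℝ) (K₀ : ℕ) (hd : ∀ k k', k ≤ k' → k' < K₀ →
    d k k' = c (k' - k)) (hs : ∀ k k', d k k' = d k' k) : ∀ K : ℕ, K ≤ K₀ →
    ∑ k ∈ range K, ∑ k' ∈ range K, d k k' = K * c 0 + 2 * ∑ h ∈ Ico 1 K, ((K : ℝ) - h) * c h := by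
  intro K
  induction K with
  | zero => intro _; simp
  | succ K ih =>
    intro hK
    have ih' := ih (by omega)
    have h1 : ∑ k ∈ range (K + 1), ∑ k' ∈ range (K + 1), d k k' =
        ∑ k ∈ range K, ∑ k' ∈ range K, d k k' + 2 * ∑ k ∈ range K, d k K + d K K := by
      rw [Finset.sum_range_succ]
      have h2 : ∀ k ∈ range K, ∑ k' ∈ range (K + 1), d k k' = ∑ k' ∈ range K, d k k' + d k K :=
        fun k _ => Finset.sum_range_succ _ _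
      rw [Finset.sum_congr rfl h2, Finset.sum_add_distrib, Finset.sum_range_succ]
      have h3 : ∑ k' ∈ range K, d K k' = ∑ k ∈ range K, d k K :=
        Finset.sum_congr rfl fun k _ => hs _ _
      rw [h3]
      ring
    have h4 : ∑ k ∈ range K, d k K = ∑ h ∈ Ico 1 (K + 1), c h := by
      rw [Finset.sum_Ico_eq_sum_range, ← Finset.sum_range_reflect]
      refine Finset.sum_congr (by simp) fun k hk => ?_
      have hk' : k < K := by simpa using hk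
      rw [hd _ _ (by omega) (by omega)]
      congr 1
      omega
    have h5 : d K K = c 0 := by
      rw [hd K K le_rfl (by omega), Nat.sub_self]
    have h6 : ∑ h ∈ Ico 1 K, ((K : ℝ) - h) * c h = ∑ h ∈ Ico 1 (K + 1), ((K : ℝ) - h) * c h := by
      rcases Nat.eq_zero_or_pos K with h0 | h0
      · subst h0; simp
      · rw [Finset.sum_Ico_succ_top (by omega)]
        simp
    rw [h1, ih', h4, h5, h6]
    push_cast
    have h7 : ∑ h ∈ Ico 1 (K + 1), ((K : ℝ) + 1 - h) * c h =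
        ∑ h ∈ Ico 1 (K + 1), ((K : ℝ) - h) * c h + ∑ h ∈ Ico 1 (K + 1), c h := by
      rw [← Finset.sum_add_distrib]
      refine Finset.sum_congr rfl fun h _ => ?_
      ring
    rw [h7]
    ring

private theorem vdcN_vdc (R : ℤ) (H K : ℕ) (x : ℤ → ℝ) (hx : ∀ r, r ∉ Ioc R (R + H) → x r = 0) :
    (K : ℝ) ^ 2 * (∑ r ∈ Ioc R (R + H), x r) ^ 2 ≤
      (H + K) * (K * ∑ r ∈ Ioc R (R + H), x r ^ 2 +
        2 * ∑ h ∈ Ico 1 K, ((K : ℝ) - h) * ∑ r ∈ Ioc R (R + H), x r * x (r + h)) := by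
  set I := Ioc (R - K) (R + H) with hI
  have h1 : (K : ℝ) * ∑ r ∈ Ioc R (R + H), x r = ∑ s ∈ I, ∑ k ∈ range K, x (s + k) := by
    rw [Finset.sum_comm]
    rw [Finset.sum_congr rfl fun k hk => vdcN_shift x R H hx K k (Finset.mem_range.1 hk)]
    simp
  have h2 : ∑ s ∈ I, (∑ k ∈ range K, x (s + k)) ^ 2 =
      ∑ k ∈ range K, ∑ k' ∈ range K, ∑ s ∈ I, x (s + k) * x (s + k') := by
    calc ∑ s ∈ I, (∑ k ∈ range K, x (s + k)) ^ 2
        = ∑ s ∈ I, ∑ k ∈ range K, ∑ k' ∈ range K, x (s + k) * x (s + k') := by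
          refine Finset.sum_congr rfl fun s _ => ?_
          rw [sq, Finset.sum_mul_sum]
      _ = ∑ k ∈ range K, ∑ s ∈ I, ∑ k' ∈ range K, x (s + k) * x (s + k') := Finset.sum_comm
      _ = _ := Finset.sum_congr rfl fun k _ => Finset.sum_comm
  have h3 := vdcN_sum (fun h : ℕ => ∑ r ∈ Ioc R (R + H), x r * x (r + h))
    (fun k k' => ∑ s ∈ I, x (s + k) * x (s + k')) K (by
      intro k k' hkk hk'
      have := vdcN_shift (fun r => x r * x (r + ((k' - k : ℕ) : ℤ))) R H (fun r hr => by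
        show x r * _ = 0
        rw [hx r hr, zero_mul]) K k (by omega)
      show ∑ s ∈ I, x (s + k) * x (s + k') = ∑ r ∈ Ioc R (R + H), x r * x (r + ((k' - k : ℕ) : ℤ))
      rw [← this]
      refine Finset.sum_congr rfl fun s _ => ?_
      show x (s + k) * x (s + k') = x (s + k) * x (s + k + ((k' - k : ℕ) : ℤ))
      have h4 : s + (k : ℤ) + ((k' - k : ℕ) : ℤ) = s + k' := by omega
      rw [h4]) (by
      intro k k'
      exact Finset.sum_congr rfl fun s _ => mul_comm _ _) K le_rfl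
  have hcard : (I.card : ℝ) = H + K := by
    rw [hI, Int.card_Ioc]
    have : (R + (H : ℤ) - (R - K)).toNat = H + K := by omega
    rw [this]
    push_cast
    ring
  have h5 := sq_sum_le_card_mul_sum_sq (s := I) (f := fun s => ∑ k ∈ range K, x (s + k))
  rw [← h1, h2, h3, hcard, mul_pow] at h5
  refine h5.trans (le_of_eq ?_)
  congr 2
  · congr 1
    refine Finset.sum_congr rfl fun r _ => ?_
    simp [sq]

/-- D1. Row `vdcN` of mods_rn3 (helper61), from `Rnt.vdc`; here self-contained: `K ∑ x = ∑_(s) ∑_(k<K) x (s + k)`, Cauchy-Schwarz over the at most `H + K` values of `s`. -/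
theorem vdcN (H K : ℕ) (x : ℕ → ℝ) :
    (K : ℝ) ^ 2 * (∑ i ∈ range H, x i) ^ 2 ≤
      (H + K) * (K * ∑ i ∈ range H, x i ^ 2 +
        2 * ∑ h ∈ Ico 1 K, ((K : ℝ) - h) * ∑ i ∈ range (H - h), x i * x (i + h)) := by
  set X : ℤ → ℝ := fun r => if r ∈ Ioc (-1 : ℤ) (-1 + H) then x r.toNat else 0 with hX
  have hIoc : Ioc (-1 : ℤ) (-1 + H) = (range H).map Nat.castEmbedding := by
    ext r
    simp only [mem_Ioc, Finset.mem_map, mem_range, Nat.castEmbedding_apply]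
    constructor
    · rintro ⟨h1, h2⟩
      exact ⟨r.toNat, by omega, by omega⟩
    · rintro ⟨i, hi, rfl⟩
      omega
  have hXn : ∀ i : ℕ, X (i : ℤ) = if i < H then x i else 0 := by
    intro i
    simp only [hX, mem_Ioc, Int.toNat_natCast]
    by_cases hi : i < H
    · rw [if_pos hi, if_pos (by omega)]
    · rw [if_neg hi, if_neg (by omega)]
  have hsum : ∀ f : ℤ → ℝ, ∑ r ∈ Ioc (-1 : ℤ) (-1 + H), f r = ∑ i ∈ range H, f (i : ℤ) := by
    intro f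
    rw [hIoc, sum_map]
    rfl
  have h := vdcN_vdc (-1) H K X (fun r hr => by simp only [hX, if_neg hr])
  rw [hsum, hsum] at h
  have e1 : ∑ i ∈ range H, X (i : ℤ) = ∑ i ∈ range H, x i :=
    sum_congr rfl fun i hi => by rw [hXn, if_pos (mem_range.1 hi)]
  have e2 : ∑ i ∈ range H, X (i : ℤ) ^ 2 = ∑ i ∈ range H, x i ^ 2 :=
    sum_congr rfl fun i hi => by rw [hXn, if_pos (mem_range.1 hi)]
  have e3 : ∀ k : ℕ, ∑ r ∈ Ioc (-1 : ℤ) (-1 + H), X r * X (r + k) =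
      ∑ i ∈ range (H - k), x i * x (i + k) := by
    intro k
    rw [hsum]
    have hsub : range (H - k) ⊆ range H := range_subset_range.2 (Nat.sub_le _ _)
    rw [← sum_subset hsub]
    · refine sum_congr rfl fun i hi => ?_
      have hi' := mem_range.1 hi
      have e : ((i : ℤ) + (k : ℤ)) = ((i + k : ℕ) : ℤ) := by push_cast; ring
      rw [e, hXn, hXn, if_pos (by omega), if_pos (by omega)]
    · intro i hi hi2
      have hi' := mem_range.1 hi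
      have hi2' : ¬ i < H - k := fun hh => hi2 (mem_range.2 hh)
      have e : ((i : ℤ) + (k : ℤ)) = ((i + k : ℕ) : ℤ) := by push_cast; ring
      rw [e, hXn (i + k), if_neg (by omega), mul_zero]
  rw [e1, e2] at h
  have e4 : ∑ k ∈ Ico 1 K, ((K : ℝ) - k) * ∑ r ∈ Ioc (-1 : ℤ) (-1 + H), X r * X (r + k) =
      ∑ k ∈ Ico 1 K, ((K : ℝ) - k) * ∑ i ∈ range (H - k), x i * x (i + k) :=
    sum_congr rfl fun k _ => by rw [e3]
  rw [e4] at h
  exact h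
-- END vdcN

-- BEGIN stepc
private theorem stepc_card (N : ℕ) (a b : ℤ) :
    (((Icc (-(N : ℤ) - a) (N - a)) \ (Icc (-(N : ℤ) - b) (N - b))).card : ℝ) ≤
      |((a - b : ℤ) : ℝ)| := by
  have hsub : (Icc (-(N : ℤ) - a) (N - a)) \ (Icc (-(N : ℤ) - b) (N - b)) ⊆
      Ico (-(N : ℤ) - a) (-(N : ℤ) - b) ∪ Ioc ((N : ℤ) - b) (N - a) := by
    intro m hm
    simp only [Finset.mem_sdiff, Finset.mem_Icc, Finset.mem_union, Finset.mem_Ico,
      Finset.mem_Ioc] at hm ⊢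
    omega
  have h1 := (Finset.card_le_card hsub).trans (Finset.card_union_le _ _)
  rw [Int.card_Ico, Int.card_Ioc] at h1
  have h2 : ((((Icc (-(N : ℤ) - a) (N - a)) \ (Icc (-(N : ℤ) - b) (N - b))).card : ℕ) : ℤ) ≤
      |a - b| := by
    rcases le_total a b with h | h
    · rw [abs_of_nonpos (by omega)]
      omega
    · rw [abs_of_nonneg (by omega)]
      omega
  rw [← Int.cast_abs]
  exact_mod_cast h2

private theorem stepc_abs (F : ℤ → ℝ) (hF : ∀ m, |F m| ≤ 1) (s : Finset ℤ) :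
    |∑ m ∈ s, F m| ≤ s.card := by
  refine le_trans (Finset.abs_sum_le_sum_abs _ _) ?_
  refine le_trans (Finset.sum_le_sum (fun m _ => hF m)) ?_
  simp

private theorem stepc_shift (F : ℤ → ℝ) (hF : ∀ m, |F m| ≤ 1) (N : ℕ) (a b : ℤ) :
    ∑ m ∈ Icc (-(N : ℤ) - a) (N - a), F m ≤
      ∑ m ∈ Icc (-(N : ℤ) - b) (N - b), F m + 2 * |((a - b : ℤ) : ℝ)| := by
  have h1 := Finset.sum_inter_add_sum_sdiff (Icc (-(N : ℤ) - a) (N - a))
    (Icc (-(N : ℤ) - b) (N - b)) F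
  have h2 := Finset.sum_inter_add_sum_sdiff (Icc (-(N : ℤ) - b) (N - b))
    (Icc (-(N : ℤ) - a) (N - a)) F
  rw [Finset.inter_comm] at h2
  have h3 := (abs_le.1 (stepc_abs F hF ((Icc (-(N : ℤ) - a) (N - a)) \
    (Icc (-(N : ℤ) - b) (N - b))))).2
  have h4 := (abs_le.1 (stepc_abs F hF ((Icc (-(N : ℤ) - b) (N - b)) \
    (Icc (-(N : ℤ) - a) (N - a))))).1
  have h5 := stepc_card N a b
  have h6 := stepc_card N b a
  have h7 : |((b - a : ℤ) : ℝ)| = |((a - b : ℤ) : ℝ)| := by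
    push_cast
    exact abs_sub_comm _ _
  rw [h7] at h6
  linarith

private theorem stepc_sub (G : ℤ → ℝ) (N : ℕ) (a : ℤ) :
    ∑ n ∈ Icc (-(N : ℤ)) N, G (n - a) = ∑ m ∈ Icc (-(N : ℤ) - a) (N - a), G m := by
  refine Finset.sum_nbij' (fun n => n - a) (fun m => m + a) ?_ ?_ ?_ ?_ ?_
  · intro n hn
    rw [Finset.mem_Icc] at hn ⊢
    omega
  · intro n hn
    rw [Finset.mem_Icc] at hn ⊢
    omega
  · intro n _
    ring
  · intro n _
    ring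
  · intro n _
    rfl

/-- D2. Row `step` of mods_rn3 (helper92) with coefficients: Cauchy-Schwarz over `n`, `vdcN` for `x i = c i * g (n - f i)`; the correlations are `c i c (i+h) g (n - f i) g (n - f (i+h))`, `m = n - f i`. -/
theorem stepc (g : ℤ → ℝ) (hg : ∀ n, |g n| ≤ 1) (c : ℕ → ℝ) (hc : ∀ i, |c i| ≤ 1) (N H K E : ℕ) (D S : ℝ) (hN : 1 ≤ N) (hK : 1 ≤ K) (hKH : K ≤ H) (f : ℕ → ℤ)
    (hE : |f 0| ≤ E) (hD : ∀ i < H, |((f i - f 0 : ℤ) : ℝ)| ≤ D) (hS0 : 0 ≤ S)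
    (hS : ∀ h : ℕ, 1 ≤ h → h < K → ∀ c' : ℕ → ℝ, (∀ i, |c' i| ≤ 1) →
      ∑ m ∈ Icc (-((N + E : ℕ) : ℤ)) ((N + E : ℕ) : ℤ), |∑ i ∈ range (H - h), c' i * g (m - (f (i + h) - f i))| ≤ S) :
    (∑ n ∈ Icc (-(N : ℤ)) N, |∑ i ∈ range H, c i * g (n - f i)|) ^ 2 ≤
      3 * N * (2 * H) * (3 * N * H / K + 2 * (S + 2 * D * H)) := by
  have hKR : (0 : ℝ) < K := by exact_mod_cast hK
  have hNR : (1 : ℝ) ≤ N := by exact_mod_cast hN
  have hKHR : (K : ℝ) ≤ H := by exact_mod_cast hKH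
  have hHR : (0 : ℝ) ≤ H := Nat.cast_nonneg H
  have hD0 : 0 ≤ D := by
    have h1 := hD 0 (by omega)
    exact le_trans (abs_nonneg _) h1
  have hcardR : ((Icc (-(N : ℤ)) N).card : ℝ) ≤ 3 * N := by
    rw [Int.card_Icc]
    have h1 : ((N : ℤ) + 1 - -(N : ℤ)).toNat ≤ 3 * N := by omega
    exact_mod_cast h1
  -- correlations
  have hC : ∀ h ∈ Ico 1 K, ∑ n ∈ Icc (-(N : ℤ)) N,
      ∑ i ∈ range (H - h), (c i * g (n - f i)) * (c (i + h) * g (n - f (i + h))) ≤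
        S + 2 * D * H := by
    intro h hh
    obtain ⟨hh1, hh2⟩ := Finset.mem_Ico.1 hh
    rw [Finset.sum_comm]
    have h1 : ∀ i ∈ range (H - h), ∑ n ∈ Icc (-(N : ℤ)) N,
        (c i * g (n - f i)) * (c (i + h) * g (n - f (i + h))) ≤
        ∑ m ∈ Icc (-(N : ℤ) - f 0) (N - f 0),
          g m * (c i * c (i + h) * g (m - (f (i + h) - f i))) + 2 * D := by
      intro i hi
      rw [Finset.mem_range] at hi
      have h2 : ∑ n ∈ Icc (-(N : ℤ)) N, (c i * g (n - f i)) * (c (i + h) * g (n - f (i + h))) =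
          ∑ n ∈ Icc (-(N : ℤ)) N,
            (fun m => g m * (c i * c (i + h) * g (m - (f (i + h) - f i)))) (n - f i) := by
        refine Finset.sum_congr rfl (fun n _ => ?_)
        have h3 : n - f (i + h) = n - f i - (f (i + h) - f i) := by ring
        simp only
        rw [h3]
        ring
      rw [h2, stepc_sub (fun m => g m * (c i * c (i + h) * g (m - (f (i + h) - f i)))) N (f i)]
      refine le_trans (stepc_shift _ ?_ N (f i) (f 0)) ?_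
      · intro m
        rw [abs_mul, abs_mul, abs_mul]
        exact mul_le_one₀ (hg _) (by positivity)
          (mul_le_one₀ (mul_le_one₀ (hc _) (abs_nonneg _) (hc _)) (abs_nonneg _) (hg _))
      · have h3 := hD i (by omega)
        linarith
    refine le_trans (Finset.sum_le_sum h1) ?_
    rw [Finset.sum_add_distrib, Finset.sum_comm, Finset.sum_const, Finset.card_range, nsmul_eq_mul]
    have h2 : ((H - h : ℕ) : ℝ) * (2 * D) ≤ 2 * D * H := by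
      have h3 : ((H - h : ℕ) : ℝ) ≤ H := by exact_mod_cast Nat.sub_le H h
      nlinarith
    have h4 : ∑ m ∈ Icc (-(N : ℤ) - f 0) (N - f 0),
        ∑ i ∈ range (H - h), g m * (c i * c (i + h) * g (m - (f (i + h) - f i))) ≤ S := by
      refine le_trans ?_ (hS h hh1 hh2 (fun i => c i * c (i + h)) (fun i => by
        rw [abs_mul]
        exact mul_le_one₀ (hc _) (abs_nonneg _) (hc _)))
      have hsub : Icc (-(N : ℤ) - f 0) (N - f 0) ⊆
          Icc (-((N + E : ℕ) : ℤ)) ((N + E : ℕ) : ℤ) := by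
        intro m hm
        rw [Finset.mem_Icc] at hm ⊢
        rw [abs_le] at hE
        push_cast
        omega
      calc ∑ m ∈ Icc (-(N : ℤ) - f 0) (N - f 0),
            ∑ i ∈ range (H - h), g m * (c i * c (i + h) * g (m - (f (i + h) - f i)))
          ≤ ∑ m ∈ Icc (-(N : ℤ) - f 0) (N - f 0),
            |∑ i ∈ range (H - h), c i * c (i + h) * g (m - (f (i + h) - f i))| := by
            refine Finset.sum_le_sum (fun m _ => ?_)
            rw [← Finset.mul_sum]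
            refine le_trans (le_abs_self _) ?_
            rw [abs_mul]
            exact mul_le_of_le_one_left (abs_nonneg _) (hg m)
        _ ≤ _ := Finset.sum_le_sum_of_subset_of_nonneg hsub (fun m _ _ => abs_nonneg _)
    linarith
  -- van der Corput for every `n`
  have hV : (K : ℝ) ^ 2 * ∑ n ∈ Icc (-(N : ℤ)) N, (∑ i ∈ range H, c i * g (n - f i)) ^ 2 ≤
      (H + K) * (K * ∑ n ∈ Icc (-(N : ℤ)) N, ∑ i ∈ range H, (c i * g (n - f i)) ^ 2 +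
        2 * ∑ h ∈ Ico 1 K, ((K : ℝ) - h) * ∑ n ∈ Icc (-(N : ℤ)) N,
          ∑ i ∈ range (H - h), (c i * g (n - f i)) * (c (i + h) * g (n - f (i + h)))) := by
    have h1 : ∑ h ∈ Ico 1 K, ((K : ℝ) - h) * ∑ n ∈ Icc (-(N : ℤ)) N,
          ∑ i ∈ range (H - h), (c i * g (n - f i)) * (c (i + h) * g (n - f (i + h))) =
        ∑ n ∈ Icc (-(N : ℤ)) N, ∑ h ∈ Ico 1 K, ((K : ℝ) - h) *
          ∑ i ∈ range (H - h), (c i * g (n - f i)) * (c (i + h) * g (n - f (i + h))) := by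
      rw [Finset.sum_comm]
      exact Finset.sum_congr rfl (fun h _ => Finset.mul_sum _ _ _)
    rw [h1, Finset.mul_sum, Finset.mul_sum, Finset.mul_sum, ← Finset.sum_add_distrib,
      Finset.mul_sum]
    exact Finset.sum_le_sum (fun n _ => vdcN H K (fun i => c i * g (n - f i)))
  have hdiag : ∑ n ∈ Icc (-(N : ℤ)) N, ∑ i ∈ range H, (c i * g (n - f i)) ^ 2 ≤ 3 * N * H := by
    calc ∑ n ∈ Icc (-(N : ℤ)) N, ∑ i ∈ range H, (c i * g (n - f i)) ^ 2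
        ≤ ∑ _n ∈ Icc (-(N : ℤ)) N, (H : ℝ) := by
          refine Finset.sum_le_sum (fun n _ => ?_)
          refine le_trans (Finset.sum_le_sum (fun i _ => ?_) : _ ≤ ∑ _i ∈ range H, (1 : ℝ)) (by simp)
          rw [sq_le_one_iff_abs_le_one, abs_mul]
          exact mul_le_one₀ (hc _) (abs_nonneg _) (hg _)
      _ = ((Icc (-(N : ℤ)) N).card : ℝ) * H := by rw [Finset.sum_const, nsmul_eq_mul]
      _ ≤ 3 * N * H := mul_le_mul_of_nonneg_right hcardR hHR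
  have hoff : ∑ h ∈ Ico 1 K, ((K : ℝ) - h) * ∑ n ∈ Icc (-(N : ℤ)) N,
      ∑ i ∈ range (H - h), (c i * g (n - f i)) * (c (i + h) * g (n - f (i + h))) ≤ (K : ℝ) ^ 2 * (S + 2 * D * H) := by
    have hpos : 0 ≤ S + 2 * D * H := by positivity
    calc ∑ h ∈ Ico 1 K, ((K : ℝ) - h) * ∑ n ∈ Icc (-(N : ℤ)) N,
          ∑ i ∈ range (H - h), (c i * g (n - f i)) * (c (i + h) * g (n - f (i + h)))
        ≤ ∑ _h ∈ Ico 1 K, (K : ℝ) * (S + 2 * D * H) := by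
          refine Finset.sum_le_sum (fun h hh => ?_)
          have h2 : (h : ℝ) ≤ K := by exact_mod_cast (Finset.mem_Ico.1 hh).2.le
          have h3 : (0 : ℝ) ≤ h := Nat.cast_nonneg h
          refine le_trans (mul_le_mul_of_nonneg_left (hC h hh) (by linarith)) ?_
          exact mul_le_mul_of_nonneg_right (by linarith) hpos
      _ = ((K - 1 : ℕ) : ℝ) * (K * (S + 2 * D * H)) := by
          rw [Finset.sum_const, Nat.card_Ico, nsmul_eq_mul]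
      _ ≤ (K : ℝ) * (K * (S + 2 * D * H)) := by
          refine mul_le_mul_of_nonneg_right ?_ (by positivity)
          exact_mod_cast Nat.sub_le K 1
      _ = (K : ℝ) ^ 2 * (S + 2 * D * H) := by ring
  have hsq : ∑ n ∈ Icc (-(N : ℤ)) N, (∑ i ∈ range H, c i * g (n - f i)) ^ 2 ≤
      2 * H * (3 * N * H / K + 2 * (S + 2 * D * H)) := by
    have h1 : (K : ℝ) ^ 2 * ∑ n ∈ Icc (-(N : ℤ)) N, (∑ i ∈ range H, c i * g (n - f i)) ^ 2 ≤
        (K : ℝ) ^ 2 * (2 * H * (3 * N * H / K + 2 * (S + 2 * D * H))) := by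
      calc (K : ℝ) ^ 2 * ∑ n ∈ Icc (-(N : ℤ)) N, (∑ i ∈ range H, c i * g (n - f i)) ^ 2
          ≤ (H + K) * (K * (3 * N * H) + 2 * ((K : ℝ) ^ 2 * (S + 2 * D * H))) := by
            refine le_trans hV ?_
            refine mul_le_mul_of_nonneg_left ?_ (by linarith)
            exact add_le_add (mul_le_mul_of_nonneg_left hdiag hKR.le)
              (mul_le_mul_of_nonneg_left hoff (by norm_num))
        _ ≤ (2 * H) * (K * (3 * N * H) + 2 * ((K : ℝ) ^ 2 * (S + 2 * D * H))) := by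
            refine mul_le_mul_of_nonneg_right (by linarith) (by positivity)
        _ = (K : ℝ) ^ 2 * (2 * H * (3 * N * H / K + 2 * (S + 2 * D * H))) := by
            field_simp
    exact le_of_mul_le_mul_left h1 (by positivity)
  have hcs : (∑ n ∈ Icc (-(N : ℤ)) N, |∑ i ∈ range H, c i * g (n - f i)|) ^ 2 ≤
      ((Icc (-(N : ℤ)) N).card : ℝ) * ∑ n ∈ Icc (-(N : ℤ)) N, (∑ i ∈ range H, c i * g (n - f i)) ^ 2 := by
    refine le_trans sq_sum_le_card_mul_sum_sq ?_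
    refine mul_le_mul_of_nonneg_left ?_ (Nat.cast_nonneg _)
    exact Finset.sum_le_sum (fun n _ => (sq_abs _).le)
  calc (∑ n ∈ Icc (-(N : ℤ)) N, |∑ i ∈ range H, c i * g (n - f i)|) ^ 2
      ≤ ((Icc (-(N : ℤ)) N).card : ℝ) *
        ∑ n ∈ Icc (-(N : ℤ)) N, (∑ i ∈ range H, c i * g (n - f i)) ^ 2 := hcs
    _ ≤ (3 * N) * ∑ n ∈ Icc (-(N : ℤ)) N, (∑ i ∈ range H, c i * g (n - f i)) ^ 2 :=
        mul_le_mul_of_nonneg_right hcardR (Finset.sum_nonneg (fun n _ => sq_nonneg _))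
    _ ≤ (3 * N) * (2 * H * (3 * N * H / K + 2 * (S + 2 * D * H))) :=
        mul_le_mul_of_nonneg_left hsq (by positivity)
    _ = 3 * N * (2 * H) * (3 * N * H / K + 2 * (S + 2 * D * H)) := by ring
-- END stepc

-- BEGIN quadc
/-- D3. Row `quad` of mods_rn3 (helper16) with coefficients: `stepc`, and `mrtg` with `D = -2 a h` for the correlations (`f (i + h) - f i = (2 a h) i + (a h² + b h)`; shift `m` by `a h² + b h`, at most `(C + 3) N`). `a` may be negative. -/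
theorem quadc (M v : ℕ) (hM : 0 < M) (hv : 0 < v) (a : ℤ) (ha : a ≠ 0) (n₀ : ℤ) (C : ℝ) (hC : 0 < C) (ε : ℝ) (hε : 0 < ε) :
    ∃ H₀ : ℕ, ∀ H : ℕ, H₀ ≤ H → ∃ η : ℝ, 0 < η ∧ ∃ N₀ : ℕ, ∀ N : ℕ, N₀ ≤ N → ∀ b e : ℤ, |(b : ℝ)| ≤ η * N → |(e : ℝ)| ≤ C * N →
      ∀ c : ℕ → ℝ, (∀ i, |c i| ≤ 1) →
      ∑ n ∈ Icc (-(N : ℤ)) N, |∑ i ∈ range H, c i * gg M v n₀ (n - (a * (i : ℤ) ^ 2 + b * i + e))| ≤ ε * N * H := by
  -- the constants
  obtain ⟨K, hK⟩ : ∃ K : ℕ, 36 / ε ^ 2 + 1 ≤ K := exists_nat_ge _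
  have hε2 : 0 < ε ^ 2 := by positivity
  have hK1 : 1 ≤ K := by
    have h1 : (1 : ℝ) ≤ K := by
      have : 0 < 36 / ε ^ 2 := by positivity
      linarith
    exact_mod_cast h1
  have hKr : (1 : ℝ) ≤ K := by exact_mod_cast hK1
  have hKε : 36 ≤ ε ^ 2 * K := by
    have h1 : 36 / ε ^ 2 ≤ K := by linarith
    rw [div_le_iff₀ hε2] at h1
    linarith
  obtain ⟨ε₁, hε₁⟩ : ∃ ε₁ : ℝ, ε₁ = ε ^ 2 / (200 * (C + 3)) := ⟨_, rfl⟩
  have hε₁0 : 0 < ε₁ := by rw [hε₁]; positivity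
  have hε₁C : ε₁ * (C + 3) = ε ^ 2 / 200 := by
    rw [hε₁]
    field_simp
  have hl : ∀ h : ℕ, ∃ H₀ : ℕ, 0 < h → ∀ H : ℕ, H₀ ≤ H → ∃ N₀ : ℕ, ∀ N : ℕ, N₀ ≤ N → ∀ c : ℕ → ℝ, (∀ i, |c i| ≤ 1) →
      ∑ w ∈ Icc (-(N : ℤ)) N, |∑ i ∈ range H, c i * gg M v n₀ (w + (-(2 * a * h)) * i)| ≤ ε₁ * N * H := by
    intro h
    by_cases hh : 0 < h
    · have hD : -(2 * a * (h : ℤ)) ≠ 0 := by
        have h0 : (h : ℤ) ≠ 0 := by exact_mod_cast hh.ne'
        exact neg_ne_zero.2 (mul_ne_zero (mul_ne_zero two_ne_zero ha) h0)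
      obtain ⟨H₀, h1⟩ := mrtg M v hM hv (-(2 * a * h)) hD n₀ ε₁ hε₁0
      exact ⟨H₀, fun _ => h1⟩
    · exact ⟨0, fun h' => absurd h' hh⟩
  choose HH hHH using hl
  refine ⟨K + ∑ h ∈ range K, HH h, fun H hH => ?_⟩
  have hHh : ∀ h, h < K → HH h ≤ H - h := by
    intro h hh
    have h1 : HH h ≤ ∑ h ∈ range K, HH h :=
      Finset.single_le_sum (f := HH) (fun _ _ => Nat.zero_le _) (Finset.mem_range.2 hh)
    omega
  have hl2 : ∀ h : ℕ, ∃ N₀ : ℕ, 0 < h → h < K → ∀ N : ℕ, N₀ ≤ N → ∀ c : ℕ → ℝ, (∀ i, |c i| ≤ 1) →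
      ∑ w ∈ Icc (-(N : ℤ)) N, |∑ i ∈ range (H - h), c i * gg M v n₀ (w + (-(2 * a * h)) * i)| ≤
        ε₁ * N * ((H - h : ℕ) : ℝ) := by
    intro h
    by_cases hh : 0 < h ∧ h < K
    · obtain ⟨N₀, h1⟩ := hHH h hh.1 (H - h) (hHh h hh.2)
      exact ⟨N₀, fun _ _ => h1⟩
    · exact ⟨0, fun h1 h2 => absurd ⟨h1, h2⟩ hh⟩
  choose NN hNN using hl2
  obtain ⟨η, hη⟩ : ∃ η : ℝ, η = ε ^ 2 / (200 * (H + 1) * (ε ^ 2 + 1)) := ⟨_, rfl⟩
  have hHr : (0 : ℝ) ≤ H := Nat.cast_nonneg H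
  have hη0 : 0 < η := by rw [hη]; positivity
  have hηH : η * H ≤ ε ^ 2 / 200 := by
    rw [hη, div_mul_eq_mul_div, div_le_div_iff₀ (by positivity) (by norm_num)]
    nlinarith [mul_nonneg hHr hε2.le, mul_nonneg (mul_nonneg hHr hε2.le) hε2.le]
  have hηH1 : η * H ≤ 1 / 2 := by
    rw [hη, div_mul_eq_mul_div, div_le_div_iff₀ (by positivity) (by norm_num)]
    nlinarith [mul_nonneg hHr hε2.le]
  refine ⟨η, hη0, ?_⟩
  obtain ⟨A, hA⟩ : ∃ A : ℝ, A = |(a : ℝ)| := ⟨_, rfl⟩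
  have hA0 : 0 ≤ A := by rw [hA]; exact abs_nonneg _
  obtain ⟨N₂, hN₂⟩ : ∃ N₂ : ℕ, (200 / ε ^ 2 + 2) * (A * (H + 1) ^ 2) + 1 ≤ N₂ := exists_nat_ge _
  refine ⟨N₂ + ∑ h ∈ range K, NN h, fun N hN b e hb he c hc => ?_⟩
  have hN2r : (200 / ε ^ 2 + 2) * (A * (H + 1) ^ 2) + 1 ≤ (N : ℝ) := by
    refine hN₂.trans ?_
    exact_mod_cast (by omega : N₂ ≤ N)
  have haH2 : (0 : ℝ) ≤ A * (H + 1) ^ 2 := by positivity
  have hNr1 : (1 : ℝ) ≤ N := by
    have h1 : 0 ≤ (200 / ε ^ 2 + 2) * (A * (H + 1) ^ 2) := by positivity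
    linarith
  have hN1 : 1 ≤ N := by exact_mod_cast hNr1
  have hN0 : (0 : ℝ) ≤ N := Nat.cast_nonneg N
  have haN1 : A * (H + 1) ^ 2 ≤ ε ^ 2 / 200 * N := by
    have h1 : (200 / ε ^ 2) * (A * (H + 1) ^ 2) ≤ N := by nlinarith
    have h2 : (200 / ε ^ 2) * (A * (H + 1) ^ 2) = 200 * (A * (H + 1) ^ 2) / ε ^ 2 := by ring
    rw [h2, div_le_iff₀ hε2] at h1
    linarith
  have haN2 : A * (H + 1) ^ 2 ≤ N / 2 := by
    have h1 : 0 ≤ (200 / ε ^ 2) * (A * (H + 1) ^ 2) := by positivity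
    nlinarith
  obtain ⟨E, hE⟩ : ∃ E : ℕ, E = e.natAbs := ⟨_, rfl⟩
  have hEe : ((E : ℕ) : ℝ) = |(e : ℝ)| := by rw [hE, Nat.cast_natAbs, Int.cast_abs]
  have hKH : K ≤ H := by omega
  have hS0 : 0 ≤ ε₁ * ((C + 2) * N) * H := by positivity
  have key := stepc (gg M v n₀) (gg_le M v n₀) c hc N H K E (ε ^ 2 / 100 * N) (ε₁ * ((C + 2) * N) * H) hN1 hK1 hKH
    (fun i => a * (i : ℤ) ^ 2 + b * i + e) ?_ ?_ hS0 ?_
  · have hR : 3 * (N : ℝ) * (2 * H) * (3 * N * H / K + 2 * (ε₁ * ((C + 2) * N) * H + 2 * (ε ^ 2 / 100 * N) * H)) ≤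
        (ε * N * H) ^ 2 := by
      have h1 : 3 * (N : ℝ) * H / K ≤ N * H * (ε ^ 2 / 12) := by
        rw [div_le_iff₀ (by linarith)]
        nlinarith [mul_nonneg hN0 hHr]
      have h2 : ε₁ * ((C + 2) * N) * H ≤ ε ^ 2 / 200 * N * H := by
        rw [← hε₁C]
        nlinarith [mul_nonneg hN0 hHr, mul_nonneg (mul_nonneg hN0 hHr) hε₁0.le]
      have h3 : 3 * (N : ℝ) * H / K + 2 * (ε₁ * ((C + 2) * N) * H + 2 * (ε ^ 2 / 100 * N) * H) ≤
          ε ^ 2 * N * H / 6 := by nlinarith [mul_nonneg (mul_nonneg hN0 hHr) hε2.le]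
      have h4 : 0 ≤ 3 * (N : ℝ) * (2 * H) := by positivity
      calc _ ≤ 3 * (N : ℝ) * (2 * H) * (ε ^ 2 * N * H / 6) := mul_le_mul_of_nonneg_left h3 h4
        _ = (ε * N * H) ^ 2 := by ring
    have hY0 : 0 ≤ ε * N * H := by positivity
    exact le_of_sq_le_sq (key.trans hR) hY0
  · -- `|f 0| ≤ E`
    simp only [Nat.cast_zero]
    rw [hE]
    have h1 : (a : ℤ) * 0 ^ 2 + b * 0 + e = e := by ring
    rw [h1, ← Int.natCast_natAbs e]
  · -- `|f i - f 0| ≤ D`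
    intro i hi
    have hir : (i : ℝ) ≤ H := by exact_mod_cast hi.le
    have hi0 : (0 : ℝ) ≤ i := Nat.cast_nonneg i
    have h1 : (((a * (i : ℤ) ^ 2 + b * i + e) - (a * ((0 : ℕ) : ℤ) ^ 2 + b * ((0 : ℕ) : ℤ) + e) : ℤ) : ℝ) =
        a * (i : ℝ) ^ 2 + b * i := by
      push_cast
      ring
    rw [h1]
    have h2 := abs_add_le ((a : ℝ) * (i : ℝ) ^ 2) (b * i)
    have h3 : |(a : ℝ) * (i : ℝ) ^ 2| ≤ ε ^ 2 / 200 * N := by
      rw [abs_mul, ← hA, abs_of_nonneg (by positivity : (0 : ℝ) ≤ (i : ℝ) ^ 2)]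
      refine le_trans ?_ haN1
      exact mul_le_mul_of_nonneg_left (pow_le_pow_left₀ hi0 (by linarith) 2) hA0
    have h4 : |(b : ℝ) * i| ≤ ε ^ 2 / 200 * N := by
      rw [abs_mul, abs_of_nonneg hi0]
      calc |(b : ℝ)| * i ≤ (η * N) * H := mul_le_mul hb hir hi0 (by positivity)
        _ = (η * H) * N := by ring
        _ ≤ ε ^ 2 / 200 * N := mul_le_mul_of_nonneg_right hηH hN0
    linarith
  · -- the correlations
    intro h h1 hh c' hc'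
    have hNh : NN h ≤ 2 * N + E := by
      have h2 : NN h ≤ ∑ h ∈ range K, NN h :=
        Finset.single_le_sum (f := NN) (fun _ _ => Nat.zero_le _) (Finset.mem_range.2 hh)
      omega
    have hhr : (h : ℝ) ≤ H := by exact_mod_cast (by omega : h ≤ H)
    have hh0 : (0 : ℝ) ≤ h := Nat.cast_nonneg h
    obtain ⟨s, hs⟩ : ∃ s : ℤ, s = a * (h : ℤ) ^ 2 + b * h := ⟨_, rfl⟩
    have he' : |(s : ℝ)| ≤ N := by
      rw [hs]
      push_cast
      have h2 := abs_add_le ((a : ℝ) * (h : ℝ) ^ 2) (b * h)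
      have h3 : |(a : ℝ) * (h : ℝ) ^ 2| ≤ N / 2 := by
        rw [abs_mul, ← hA, abs_of_nonneg (by positivity : (0 : ℝ) ≤ (h : ℝ) ^ 2)]
        refine le_trans ?_ haN2
        exact mul_le_mul_of_nonneg_left (pow_le_pow_left₀ hh0 (by linarith) 2) hA0
      have h4 : |(b : ℝ) * h| ≤ N / 2 := by
        rw [abs_mul, abs_of_nonneg hh0]
        calc |(b : ℝ)| * h ≤ (η * N) * H := mul_le_mul hb hhr hh0 (by positivity)
          _ = (η * H) * N := by ring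
          _ ≤ 1 / 2 * N := mul_le_mul_of_nonneg_right hηH1 hN0
          _ = N / 2 := by ring
      linarith
    have hsN : |s| ≤ (N : ℤ) := by
      have : ((|s| : ℤ) : ℝ) ≤ ((N : ℤ) : ℝ) := by push_cast; exact he'
      exact_mod_cast this
    have h2 := hNN h (by omega) hh (2 * N + E) hNh c' hc'
    have h3 : ∀ m : ℤ, ∀ i : ℕ, m - ((a * ((i + h : ℕ) : ℤ) ^ 2 + b * ((i + h : ℕ) : ℤ) + e) - (a * (i : ℤ) ^ 2 + b * i + e)) =
        (m - s) + (-(2 * a * h)) * i := by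
      intro m i
      rw [hs]
      push_cast
      ring
    have h4 : ∑ m ∈ Icc (-((N + E : ℕ) : ℤ)) ((N + E : ℕ) : ℤ), |∑ i ∈ range (H - h),
        c' i * gg M v n₀ (m - ((a * ((i + h : ℕ) : ℤ) ^ 2 + b * ((i + h : ℕ) : ℤ) + e) - (a * (i : ℤ) ^ 2 + b * i + e)))| ≤
        ε₁ * ((2 * N + E : ℕ) : ℝ) * ((H - h : ℕ) : ℝ) := by
      refine le_trans ?_ h2
      have h5 : ∀ m : ℤ, |∑ i ∈ range (H - h),
          c' i * gg M v n₀ (m - ((a * ((i + h : ℕ) : ℤ) ^ 2 + b * ((i + h : ℕ) : ℤ) + e) - (a * (i : ℤ) ^ 2 + b * i + e)))| =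
          (fun w : ℤ => |∑ i ∈ range (H - h), c' i * gg M v n₀ (w + (-(2 * a * h)) * i)|) (m - s) := by
        intro m
        simp only
        congr 1
        exact Finset.sum_congr rfl fun i _ => by rw [h3]
      rw [Finset.sum_congr rfl fun m _ => h5 m]
      rw [← Finset.sum_image (s := Icc (-((N + E : ℕ) : ℤ)) ((N + E : ℕ) : ℤ)) (g := fun m => m - s)
        (f := fun w : ℤ => |∑ i ∈ range (H - h), c' i * gg M v n₀ (w + (-(2 * a * h)) * i)|)]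
      · refine Finset.sum_le_sum_of_subset_of_nonneg ?_ fun _ _ _ => abs_nonneg _
        intro w hw
        rw [Finset.mem_image] at hw
        obtain ⟨m, hm, rfl⟩ := hw
        rw [Finset.mem_Icc] at hm ⊢
        have h6 := abs_le.1 hsN
        push_cast at hm ⊢
        constructor <;> omega
      · intro x _ y _ hxy
        simpa using hxy
    refine h4.trans ?_
    have h5 : ((2 * N + E : ℕ) : ℝ) ≤ (C + 2) * N := by
      push_cast
      rw [hEe]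
      linarith
    have h6 : ((H - h : ℕ) : ℝ) ≤ H := by exact_mod_cast Nat.sub_le H h
    refine mul_le_mul (mul_le_mul_of_nonneg_left h5 hε₁0.le) h6 (Nat.cast_nonneg _) (by positivity)
-- END quadc

-- BEGIN d0
private theorem d0_step (G : ℤ → ℝ) (m₁ m₂ : ℕ) (h : m₁ ≤ m₂) :
    ∑ m ∈ Ioc m₁ m₂, G (m : ℤ) - ∑ m ∈ Ioc m₁ m₂, G ((m : ℤ) + 1) = G ((m₁ : ℤ) + 1) - G ((m₂ : ℤ) + 1) := by
  induction m₂, h using Nat.le_induction with
  | base => simp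
  | succ n hn ih =>
    rw [Finset.sum_Ioc_succ_top (by omega), Finset.sum_Ioc_succ_top (by omega)]
    push_cast at ih ⊢
    linarith

private theorem d0_shift (F : ℤ → ℝ) (hF : ∀ n, |F n| ≤ 1) (m₁ m₂ : ℕ) (i : ℕ) :
    |∑ m ∈ Ioc m₁ m₂, F (m : ℤ) - ∑ m ∈ Ioc m₁ m₂, F ((m : ℤ) + i)| ≤ 2 * i := by
  induction i with
  | zero => simp
  | succ i ih =>
    have h1 : |∑ m ∈ Ioc m₁ m₂, F ((m : ℤ) + i) - ∑ m ∈ Ioc m₁ m₂, F ((m : ℤ) + (i + 1 : ℕ))| ≤ 2 := by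
      rcases le_total m₁ m₂ with h | h
      · have h2 := d0_step (fun n => F (n + i)) m₁ m₂ h
        have h3 : ∑ m ∈ Ioc m₁ m₂, F ((m : ℤ) + (i + 1 : ℕ)) = ∑ m ∈ Ioc m₁ m₂, (fun n => F (n + i)) ((m : ℤ) + 1) := by
          apply Finset.sum_congr rfl
          intro m _
          push_cast
          ring_nf
        rw [h3, h2]
        have h4 := abs_le.1 (hF ((m₁ : ℤ) + 1 + i))
        have h5 := abs_le.1 (hF ((m₂ : ℤ) + 1 + i))
        rw [abs_le]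
        constructor <;> linarith [h4.1, h4.2, h5.1, h5.2]
      · rw [Finset.Ioc_eq_empty (by omega)]
        simp
    have h2 := abs_sub_le (∑ m ∈ Ioc m₁ m₂, F (m : ℤ)) (∑ m ∈ Ioc m₁ m₂, F ((m : ℤ) + i)) (∑ m ∈ Ioc m₁ m₂, F ((m : ℤ) + (i + 1 : ℕ)))
    push_cast at h1 h2 ⊢
    linarith

private theorem d0_shiftZ (F : ℤ → ℝ) (hF : ∀ n, |F n| ≤ 1) (m₁ m₂ : ℕ) (e : ℤ) :
    |∑ m ∈ Ioc m₁ m₂, F (m : ℤ) - ∑ m ∈ Ioc m₁ m₂, F ((m : ℤ) - e)| ≤ 2 * |(e : ℝ)| := by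
  obtain ⟨i, rfl | rfl⟩ := Int.eq_nat_or_neg e
  · have h := d0_shift (fun n => F (n - i)) (fun n => hF _) m₁ m₂ i
    have h2 : ∀ m : ℕ, F ((m : ℤ) + i - i) = F m := by
      intro m
      rw [add_sub_cancel_right]
    simp only [h2] at h
    rw [abs_sub_comm] at h
    simpa using h
  · have h := d0_shift F hF m₁ m₂ i
    simpa using h

private theorem d0_avg (Δ H L : ℕ) (G : ℤ → ℝ) (hG : ∀ k, k ∉ Icc (-(L : ℤ)) L → G k = 0) (i : ℕ) (hi : i < H) :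
    ∑ κ ∈ Icc (-(L : ℤ) - Δ * H) L, G (κ + Δ * (i : ℤ)) = ∑ k ∈ Icc (-(L : ℤ)) L, G k := by
  have hMi0 : (0 : ℤ) ≤ Δ * (i : ℤ) := by positivity
  have hMi1 : (Δ : ℤ) * (i : ℤ) ≤ Δ * H := by
    apply mul_le_mul_of_nonneg_left _ (Nat.cast_nonneg Δ)
    exact_mod_cast hi.le
  have h1 : ∑ κ ∈ Icc (-(L : ℤ) - Δ * H) L, G (κ + Δ * (i : ℤ)) =
      ∑ k ∈ (Icc (-(L : ℤ) - Δ * H) L).image (fun κ => κ + Δ * (i : ℤ)), G k := by
    rw [Finset.sum_image]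
    intro a _ b _ hab
    simpa using hab
  rw [h1]
  symm
  apply Finset.sum_subset
  · intro k hk
    rw [Finset.mem_Icc] at hk
    rw [Finset.mem_image]
    refine ⟨k - Δ * (i : ℤ), ?_, by ring⟩
    rw [Finset.mem_Icc]
    constructor <;> linarith
  · intro k _ hk
    exact hG k hk

private theorem d0_fin (g f : ℤ → ℝ) (hg : ∀ n, |g n| ≤ 1) (hf : ∀ n, |f n| ≤ 1) (α β α₀ β₀ : ℤ) (hβ : β ≠ 0)
    (s : ℤ) (Δ : ℕ) (hs : s * s = 1) (hα : α = s * Δ) (L H R m₁ m₂ : ℕ) (hm : m₂ ≤ L ^ 2) (hL : Δ * H ≤ L)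
    (hR : |β| * (L : ℤ) ^ 2 + |β₀| + (2 * (L : ℤ)) ^ 2 ≤ R) (B : ℝ)
    (hB : ∀ a : ℤ, |a| ≤ 2 * (L : ℤ) → ∀ c : ℕ → ℝ, (∀ i, |c i| ≤ 1) →
      ∑ n ∈ Icc (-(R : ℤ)) R, |∑ i ∈ range H, c i * g (n - ((β - α) * α * (i : ℤ) ^ 2 + 2 * a * (β - α) * s * i + 0))| ≤ B) :
    (H : ℝ) * ∑ a ∈ Icc (-(L : ℤ)) L, |∑ m ∈ Ioc m₁ m₂, f (α * m + α₀ + a ^ 2) * g (β * m + β₀ + a ^ 2)| ≤
      (2 * L + Δ * H + 1) * (B + 10 * L * H ^ 2) := by
  obtain ⟨S, hS⟩ : ∃ S : ℤ → ℝ, ∀ a, S a = ∑ m ∈ Ioc m₁ m₂, f (α * m + α₀ + a ^ 2) * g (β * m + β₀ + a ^ 2) := ⟨_, fun _ => rfl⟩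
  -- the signs
  obtain ⟨c, hc⟩ : ∃ c : ℤ → ℝ, ∀ w, c w = if w ∈ Icc (-(L : ℤ)) L then (if 0 ≤ S w then 1 else -1) else 0 := ⟨_, fun _ => rfl⟩
  have hc1 : ∀ w, |c w| ≤ 1 := by
    intro w
    rw [hc]
    split_ifs <;> simp
  have hc0 : ∀ w, w ∉ Icc (-(L : ℤ)) L → c w = 0 := by
    intro w hw
    rw [hc, if_neg hw]
  have hcS : ∀ w ∈ Icc (-(L : ℤ)) L, |S w| = c w * S w := by
    intro w hw
    rw [hc, if_pos hw]
    split_ifs with h
    · rw [abs_of_nonneg h, one_mul]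
    · rw [abs_of_neg (not_le.1 h)]
      ring
  obtain ⟨e, he⟩ : ∃ e : ℤ → ℕ → ℤ, ∀ a i, e a i = s * (Δ * (i : ℤ) ^ 2 + 2 * a * i) := ⟨_, fun _ _ => rfl⟩
  have hαe : ∀ (a : ℤ) (i : ℕ), α * e a i = (a + Δ * (i : ℤ)) ^ 2 - a ^ 2 := by
    intro a i
    rw [hα, he]
    linear_combination ((Δ : ℤ) * (Δ * (i : ℤ) ^ 2 + 2 * a * i)) * hs
  obtain ⟨T, hT⟩ : ∃ T : ℤ → ℕ → ℝ, ∀ a i, T a i = ∑ m ∈ Ioc m₁ m₂, f (α * m + α₀ + a ^ 2) * g (β * m + β₀ + a ^ 2 - (β - α) * e a i) :=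
    ⟨_, fun _ _ => rfl⟩
  have h1 : ∀ (a : ℤ) (i : ℕ), |S (a + Δ * (i : ℤ)) - T a i| ≤ 2 * |((e a i : ℤ) : ℝ)| := by
    intro a i
    have h2 := d0_shiftZ (fun m => f (α * m + α₀ + (a + Δ * (i : ℤ)) ^ 2) * g (β * m + β₀ + (a + Δ * (i : ℤ)) ^ 2)) (by
      intro n
      rw [abs_mul]
      exact mul_le_one₀ (hf _) (abs_nonneg _) (hg _)) m₁ m₂ (e a i)
    have h3 : ∑ m ∈ Ioc m₁ m₂, (fun m : ℤ => f (α * m + α₀ + (a + Δ * (i : ℤ)) ^ 2) * g (β * m + β₀ + (a + Δ * (i : ℤ)) ^ 2)) ((m : ℤ) - e a i) = T a i := by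
      rw [hT]
      apply Finset.sum_congr rfl
      intro m _
      have e1 : α * ((m : ℤ) - e a i) + α₀ + (a + Δ * (i : ℤ)) ^ 2 = α * m + α₀ + a ^ 2 := by
        linear_combination -(hαe a i)
      have e2 : β * ((m : ℤ) - e a i) + β₀ + (a + Δ * (i : ℤ)) ^ 2 = β * m + β₀ + a ^ 2 - (β - α) * e a i := by
        linear_combination -(hαe a i)
      simp only [e1, e2]
    rw [h3] at h2
    rw [hS]
    exact h2
  have hLr : (0 : ℝ) ≤ L := Nat.cast_nonneg L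
  have hHr : (0 : ℝ) ≤ H := Nat.cast_nonneg H
  have hL' : (Δ : ℤ) * H ≤ L := by exact_mod_cast hL
  have hLr' : (Δ : ℝ) * H ≤ L := by exact_mod_cast hL
  have hs1 : |(s : ℝ)| = 1 := by
    have h2 : (s : ℝ) * s = 1 := by exact_mod_cast hs
    have h3 : |(s : ℝ)| * |(s : ℝ)| = 1 := by rw [← abs_mul, h2, abs_one]
    nlinarith [abs_nonneg (s : ℝ)]
  have ha2 : ∀ a ∈ Icc (-(L : ℤ) - Δ * H) L, |a| ≤ 2 * (L : ℤ) := by
    intro a ha
    rw [Finset.mem_Icc] at ha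
    rw [abs_le]
    constructor <;> linarith [ha.1, ha.2, (Nat.cast_nonneg L : (0 : ℤ) ≤ L)]
  have hee : ∀ a ∈ Icc (-(L : ℤ) - Δ * H) L, ∀ i ∈ range H, |((e a i : ℤ) : ℝ)| ≤ 5 * L * H := by
    intro a ha i hi
    have h2 : |(a : ℝ)| ≤ 2 * L := by
      have h3 := ha2 a ha
      have h4 : ((|a| : ℤ) : ℝ) ≤ ((2 * (L : ℤ) : ℤ) : ℝ) := by exact_mod_cast h3
      push_cast at h4
      exact h4
    have hir : (i : ℝ) ≤ H := by exact_mod_cast (Finset.mem_range.1 hi).le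
    have hi0 : (0 : ℝ) ≤ i := Nat.cast_nonneg i
    have hΔ0 : (0 : ℝ) ≤ Δ := Nat.cast_nonneg Δ
    rw [he]
    push_cast
    rw [abs_mul, hs1, one_mul]
    have h3 : |(Δ : ℝ) * (i : ℝ) ^ 2| ≤ L * H := by
      rw [abs_of_nonneg (by positivity)]
      calc (Δ : ℝ) * (i : ℝ) ^ 2 ≤ Δ * (H : ℝ) ^ 2 := mul_le_mul_of_nonneg_left (pow_le_pow_left₀ hi0 hir 2) hΔ0
        _ = (Δ * H) * H := by ring
        _ ≤ L * H := mul_le_mul_of_nonneg_right hLr' hHr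
    have h4 : |2 * (a : ℝ) * i| ≤ 4 * L * H := by
      rw [abs_mul, abs_mul, abs_two, abs_of_nonneg hi0]
      calc 2 * |(a : ℝ)| * i ≤ 2 * (2 * L) * H := mul_le_mul (mul_le_mul_of_nonneg_left h2 (by norm_num)) hir hi0 (by positivity)
        _ = 4 * L * H := by ring
    linarith [abs_add_le ((Δ : ℝ) * (i : ℝ) ^ 2) (2 * (a : ℝ) * i)]
  -- the main term for each `a`
  have hmain : ∀ a ∈ Icc (-(L : ℤ) - Δ * H) L, ∑ i ∈ range H, c (a + Δ * (i : ℤ)) * T a i ≤ B := by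
    intro a ha
    obtain ⟨Φ, hΦ⟩ : ∃ Φ : ℤ → ℝ, ∀ n, Φ n = ∑ i ∈ range H, c (a + Δ * (i : ℤ)) * g (n - (β - α) * e a i) := ⟨_, fun _ => rfl⟩
    have e1 : ∑ i ∈ range H, c (a + Δ * (i : ℤ)) * T a i = ∑ m ∈ Ioc m₁ m₂, f (α * m + α₀ + a ^ 2) * Φ (β * m + β₀ + a ^ 2) := by
      calc ∑ i ∈ range H, c (a + Δ * (i : ℤ)) * T a i = ∑ i ∈ range H, ∑ m ∈ Ioc m₁ m₂,
            c (a + Δ * (i : ℤ)) * (f (α * m + α₀ + a ^ 2) * g (β * m + β₀ + a ^ 2 - (β - α) * e a i)) := by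
            apply Finset.sum_congr rfl
            intro i _
            rw [hT, Finset.mul_sum]
        _ = ∑ m ∈ Ioc m₁ m₂, ∑ i ∈ range H,
            c (a + Δ * (i : ℤ)) * (f (α * m + α₀ + a ^ 2) * g (β * m + β₀ + a ^ 2 - (β - α) * e a i)) := Finset.sum_comm
        _ = ∑ m ∈ Ioc m₁ m₂, f (α * m + α₀ + a ^ 2) * Φ (β * m + β₀ + a ^ 2) := by
            apply Finset.sum_congr rfl
            intro m _
            rw [hΦ, Finset.mul_sum]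
            apply Finset.sum_congr rfl
            intro i _
            ring
    rw [e1]
    have e2 : ∑ m ∈ Ioc m₁ m₂, f (α * m + α₀ + a ^ 2) * Φ (β * m + β₀ + a ^ 2) ≤ ∑ m ∈ Ioc m₁ m₂, |Φ (β * m + β₀ + a ^ 2)| := by
      apply Finset.sum_le_sum
      intro m _
      calc f (α * m + α₀ + a ^ 2) * Φ (β * m + β₀ + a ^ 2) ≤ |f (α * m + α₀ + a ^ 2) * Φ (β * m + β₀ + a ^ 2)| := le_abs_self _
        _ = |f (α * m + α₀ + a ^ 2)| * |Φ (β * m + β₀ + a ^ 2)| := abs_mul _ _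
        _ ≤ 1 * |Φ (β * m + β₀ + a ^ 2)| := mul_le_mul_of_nonneg_right (hf _) (abs_nonneg _)
        _ = |Φ (β * m + β₀ + a ^ 2)| := one_mul _
    refine e2.trans ?_
    have e4 : ∑ m ∈ Ioc m₁ m₂, |Φ (β * m + β₀ + a ^ 2)| = ∑ W ∈ (Ioc m₁ m₂).image (fun m : ℕ => β * (m : ℤ) + β₀ + a ^ 2), |Φ W| := by
      rw [Finset.sum_image]
      intro x _ y _ hxy
      have h3 : β * (x : ℤ) = β * (y : ℤ) := by
        have h4 : β * (x : ℤ) + β₀ + a ^ 2 = β * (y : ℤ) + β₀ + a ^ 2 := hxy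
        linarith
      exact_mod_cast mul_left_cancel₀ hβ h3
    have e5 : (Ioc m₁ m₂).image (fun m : ℕ => β * (m : ℤ) + β₀ + a ^ 2) ⊆ Icc (-(R : ℤ)) R := by
      intro W hW
      rw [Finset.mem_image] at hW
      obtain ⟨m, hm1, rfl⟩ := hW
      rw [mem_Ioc] at hm1
      have h3 : |β * (m : ℤ)| ≤ |β| * (L : ℤ) ^ 2 := by
        rw [abs_mul, Nat.abs_cast]
        exact mul_le_mul_of_nonneg_left (by exact_mod_cast hm1.2.trans hm) (abs_nonneg _)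
      have h4 := abs_le.1 h3
      have h5 := abs_le.1 (le_refl |β₀|)
      have h6 : a ^ 2 ≤ (2 * (L : ℤ)) ^ 2 := by
        rw [← sq_abs a]
        exact pow_le_pow_left₀ (abs_nonneg _) (ha2 a ha) 2
      have h7 : 0 ≤ a ^ 2 := sq_nonneg a
      rw [mem_Icc]
      constructor <;> linarith [h4.1, h4.2, h5.1, h5.2]
    rw [e4]
    refine (Finset.sum_le_sum_of_subset_of_nonneg e5 (fun _ _ _ => abs_nonneg _)).trans ?_
    have h3 := hB a (ha2 a ha) (fun i => c (a + Δ * (i : ℤ))) (fun i => hc1 _)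
    refine le_trans (le_of_eq ?_) h3
    apply Finset.sum_congr rfl
    intro W _
    rw [hΦ]
    congr 1
    apply Finset.sum_congr rfl
    intro i _
    have e6 : (β - α) * e a i = (β - α) * α * (i : ℤ) ^ 2 + 2 * a * (β - α) * s * i + 0 := by
      rw [he, hα]
      ring
    rw [e6]
  have hper : ∀ a ∈ Icc (-(L : ℤ) - Δ * H) L, ∑ i ∈ range H, c (a + Δ * (i : ℤ)) * S (a + Δ * (i : ℤ)) ≤ B + 10 * L * H ^ 2 := by
    intro a ha
    have e1 : ∑ i ∈ range H, c (a + Δ * (i : ℤ)) * S (a + Δ * (i : ℤ)) =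
        ∑ i ∈ range H, c (a + Δ * (i : ℤ)) * T a i + ∑ i ∈ range H, c (a + Δ * (i : ℤ)) * (S (a + Δ * (i : ℤ)) - T a i) := by
      rw [← Finset.sum_add_distrib]
      apply Finset.sum_congr rfl
      intro i _
      ring
    have e2 : ∑ i ∈ range H, c (a + Δ * (i : ℤ)) * (S (a + Δ * (i : ℤ)) - T a i) ≤ ∑ i ∈ range H, 10 * (L : ℝ) * H := by
      apply Finset.sum_le_sum
      intro i hi
      calc c (a + Δ * (i : ℤ)) * (S (a + Δ * (i : ℤ)) - T a i) ≤ |c (a + Δ * (i : ℤ)) * (S (a + Δ * (i : ℤ)) - T a i)| := le_abs_self _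
        _ = |c (a + Δ * (i : ℤ))| * |S (a + Δ * (i : ℤ)) - T a i| := abs_mul _ _
        _ ≤ 1 * |S (a + Δ * (i : ℤ)) - T a i| := mul_le_mul_of_nonneg_right (hc1 _) (abs_nonneg _)
        _ ≤ 10 * (L : ℝ) * H := by linarith [h1 a i, hee a ha i hi]
    rw [Finset.sum_const, Finset.card_range, nsmul_eq_mul] at e2
    rw [e1]
    have e3 := hmain a ha
    have e4 : (H : ℝ) * (10 * (L : ℝ) * H) = 10 * L * H ^ 2 := by ring
    linarith
  have hY : ∑ a ∈ Icc (-(L : ℤ)) L, |∑ m ∈ Ioc m₁ m₂, f (α * m + α₀ + a ^ 2) * g (β * m + β₀ + a ^ 2)| =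
      ∑ a ∈ Icc (-(L : ℤ)) L, c a * S a := by
    apply Finset.sum_congr rfl
    intro a ha
    rw [← hS, hcS a ha]
  rw [hY]
  have hsum : (H : ℝ) * ∑ a ∈ Icc (-(L : ℤ)) L, c a * S a =
      ∑ a ∈ Icc (-(L : ℤ) - Δ * H) L, ∑ i ∈ range H, c (a + Δ * (i : ℤ)) * S (a + Δ * (i : ℤ)) := by
    rw [Finset.sum_comm]
    rw [Finset.sum_congr rfl (fun i hi => d0_avg Δ H L (fun a => c a * S a)
      (fun k hk => by simp only [hc0 k hk, zero_mul]) i (Finset.mem_range.1 hi))]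
    rw [Finset.sum_const, Finset.card_range, nsmul_eq_mul]
  rw [hsum]
  refine (Finset.sum_le_sum hper).trans (le_of_eq ?_)
  rw [Finset.sum_const, Int.card_Icc, nsmul_eq_mul]
  have e6 : (((L : ℤ) + 1 - (-(L : ℤ) - Δ * H)).toNat : ℤ) = 2 * L + Δ * H + 1 := by
    rw [Int.toNat_of_nonneg]
    · ring
    · have : (0 : ℤ) ≤ Δ * H := by positivity
      linarith [(Nat.cast_nonneg L : (0 : ℤ) ≤ L)]
  have e7 : ((((L : ℤ) + 1 - (-(L : ℤ) - Δ * H)).toNat : ℕ) : ℝ) = ((((L : ℤ) + 1 - (-(L : ℤ) - Δ * H)).toNat : ℤ) : ℝ) := by push_cast; rfl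
  rw [e7, e6]
  push_cast
  ring

/-- D4. `Δ = |α|`. Signs `c_a` (`0` outside `Icc (-L) L`). `H ∑_a φ a = ∑_(a') ∑_(i<H) φ (a' + Δ i)`, `a' ∈ Icc (-L - ΔH) L` (as in `Rn3.avg_bound`). With `e_i = ((a' + Δi)² - a'²) / α = sgn α (Δ i² + 2 a' i)` put `m = m₀ - e_i`: `α m + (a' + Δi)² = α m₀ + a'²` and
`β m + (a' + Δi)² = β m₀ + a'² - (β - α) e_i`; the range of `m` moves by `|e_i| ≤ 3 H Δ (L + ΔH)`: total cost `O(H² L²)`. Triangle inequality over `m₀` (`|f| ≤ 1`), `n = β m₀ + β₀ + a'²` (injective in `m₀`, `|n| ≤ (|β| + |β₀| + 2) L²`), `quadc` with leading coefficient `(β - α) α` (`sgn α · Δ = α`),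
`b = 2 a' (β - α) sgn α` (`≤ η N` for large `L`), `e = 0`, `N = (|β| + |β₀| + 2) L²`. -/
theorem d0 (M v : ℕ) (hM : 0 < M) (hv : 0 < v) (n₀ : ℤ) (α β α₀ β₀ : ℤ) (hα : α ≠ 0) (hβ : β ≠ 0) (hαβ : α ≠ β) (ε : ℝ) (hε : 0 < ε) :
    ∃ L₀ : ℕ, ∀ L : ℕ, L₀ ≤ L → ∀ f : ℤ → ℝ, (∀ n, |f n| ≤ 1) → ∀ m₁ m₂ : ℕ, m₂ ≤ L ^ 2 →
      ∑ a ∈ Icc (-(L : ℤ)) L, |∑ m ∈ Ioc m₁ m₂, f (α * m + α₀ + a ^ 2) * gg M v n₀ (β * m + β₀ + a ^ 2)| ≤ ε * L ^ 3 := by
  have hD : (β - α) * α ≠ 0 := mul_ne_zero (sub_ne_zero.2 (fun h => hαβ h.symm)) hα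
  obtain ⟨C, hC⟩ : ∃ C : ℕ, C = β.natAbs + β₀.natAbs + 4 := ⟨_, rfl⟩
  have hC4 : (4 : ℝ) ≤ C := by
    have : 4 ≤ C := by omega
    exact_mod_cast this
  have hC0 : (0 : ℝ) < C := by linarith
  obtain ⟨H₀, hH₀⟩ := quadc M v hM hv ((β - α) * α) hD n₀ 1 one_pos (ε / (8 * C)) (by positivity)
  obtain ⟨H, hH, hH1⟩ : ∃ H : ℕ, H₀ ≤ H ∧ 1 ≤ H := ⟨max H₀ 1, le_max_left _ _, le_max_right _ _⟩
  obtain ⟨η, hη, N₀, hN₀⟩ := hH₀ H hH
  obtain ⟨s, Δ, hs, hsΔ⟩ : ∃ (s : ℤ) (Δ : ℕ), s * s = 1 ∧ α = s * Δ := by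
    rcases Int.natAbs_eq α with h | h
    · exact ⟨1, α.natAbs, by norm_num, by linarith⟩
    · exact ⟨-1, α.natAbs, by norm_num, by linarith⟩
  have hs1 : |(s : ℝ)| = 1 := by
    have h2 : (s : ℝ) * s = 1 := by exact_mod_cast hs
    have h3 : |(s : ℝ)| * |(s : ℝ)| = 1 := by rw [← abs_mul, h2, abs_one]
    nlinarith [abs_nonneg (s : ℝ)]
  refine ⟨N₀ + Δ * H + 1 + ⌈|((β - α : ℤ) : ℝ)| / η⌉₊ + ⌈80 * (H : ℝ) / ε⌉₊, ?_⟩
  intro L hL f hf m₁ m₂ hm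
  have hHr : (1 : ℝ) ≤ H := by exact_mod_cast hH1
  have hL1 : 1 ≤ L := by omega
  have hLr : (1 : ℝ) ≤ L := by exact_mod_cast hL1
  have hLH : 80 * (H : ℝ) ≤ ε * L := by
    have h1 : ⌈80 * (H : ℝ) / ε⌉₊ ≤ L := by omega
    have h2 : 80 * (H : ℝ) / ε ≤ L := (Nat.le_ceil _).trans (by exact_mod_cast h1)
    rw [div_le_iff₀ hε] at h2
    linarith
  have hLη : |((β - α : ℤ) : ℝ)| ≤ η * L := by
    have h1 : ⌈|((β - α : ℤ) : ℝ)| / η⌉₊ ≤ L := by omega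
    have h2 : |((β - α : ℤ) : ℝ)| / η ≤ L := (Nat.le_ceil _).trans (by exact_mod_cast h1)
    rw [div_le_iff₀ hη] at h2
    linarith
  have hΔH : Δ * H ≤ L := by omega
  have hR0 : N₀ ≤ C * L ^ 2 := by
    have h1 : N₀ ≤ L := by omega
    have h2 : L ≤ C * L ^ 2 := by
      have h3 : 1 ≤ C := by omega
      nlinarith
    omega
  have hfin := d0_fin (gg M v n₀) f (gg_le M v n₀) hf α β α₀ β₀ hβ s Δ hs hsΔ L H (C * L ^ 2) m₁ m₂ hm hΔH
    (by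
      rw [Int.abs_eq_natAbs, Int.abs_eq_natAbs, hC]
      push_cast
      have h1 : (1 : ℤ) ≤ L := by exact_mod_cast hL1
      have h2 : (0 : ℤ) ≤ |β₀| := abs_nonneg _
      have h3 : (1 : ℤ) ≤ (L : ℤ) ^ 2 := one_le_pow₀ h1
      nlinarith)
    ((ε / (8 * C)) * ((C * L ^ 2 : ℕ) : ℝ) * H)
    (by
      intro a ha c hc
      refine hN₀ (C * L ^ 2) hR0 (2 * a * (β - α) * s) 0 ?_ ?_ c hc
      · push_cast
        rw [abs_mul, hs1, mul_one, abs_mul, abs_mul, abs_two]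
        have h1 : |(a : ℝ)| ≤ 2 * L := by
          have h4 : ((|a| : ℤ) : ℝ) ≤ ((2 * (L : ℤ) : ℤ) : ℝ) := by exact_mod_cast ha
          push_cast at h4
          exact h4
        push_cast at hLη
        calc 2 * |(a : ℝ)| * |(β : ℝ) - α| ≤ 2 * (2 * L) * (η * L) :=
              mul_le_mul (mul_le_mul_of_nonneg_left h1 (by norm_num)) hLη (abs_nonneg _) (by positivity)
          _ = η * (4 * (L : ℝ) ^ 2) := by ring
          _ ≤ η * (C * (L : ℝ) ^ 2) := by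
              apply mul_le_mul_of_nonneg_left _ hη.le
              exact mul_le_mul_of_nonneg_right hC4 (by positivity)
      · push_cast
        rw [abs_zero]
        positivity)
  obtain ⟨Y, hY⟩ : ∃ Y : ℝ, Y = ∑ a ∈ Icc (-(L : ℤ)) L, |∑ m ∈ Ioc m₁ m₂, f (α * m + α₀ + a ^ 2) * gg M v n₀ (β * m + β₀ + a ^ 2)| := ⟨_, rfl⟩
  rw [← hY] at hfin ⊢
  have hB1 : (ε / (8 * C)) * ((C * L ^ 2 : ℕ) : ℝ) * H = ε / 8 * L ^ 2 * H := by
    push_cast
    field_simp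
  rw [hB1] at hfin
  have hΔHr : (Δ : ℝ) * H ≤ L := by exact_mod_cast hΔH
  have h5 : (H : ℝ) * Y ≤ H * (ε / 2 * L ^ 3 + 40 * L ^ 2 * H) := by
    calc (H : ℝ) * Y ≤ _ := hfin
      _ ≤ (4 * L) * (ε / 8 * L ^ 2 * H + 10 * L * H ^ 2) := by
          apply mul_le_mul_of_nonneg_right _ (by positivity)
          linarith
      _ = H * (ε / 2 * L ^ 3 + 40 * L ^ 2 * H) := by ring
  have h7 : Y ≤ ε / 2 * L ^ 3 + 40 * L ^ 2 * H := le_of_mul_le_mul_left h5 (by linarith)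
  have h8 : 80 * (H : ℝ) * L ^ 2 ≤ ε * L * L ^ 2 := mul_le_mul_of_nonneg_right hLH (by positivity)
  have h9 : ε * L * (L : ℝ) ^ 2 = ε * L ^ 3 := by ring
  linarith
-- END d0

open scoped Classical

/-- `P a` changes at most `K₀` times on `[0, n]` -/
def Chg (K₀ : ℕ) (n : ℕ) (P : ℤ → ℕ → Prop) : Prop :=
  ∀ a : ℤ, ((range n).filter (fun m => ¬ (P a m ↔ P a (m + 1)))).card ≤ K₀

-- BEGIN d1
private theorem d1_cls (F : ℕ → ℝ) (Q r t : ℕ) (hr : r < Q) :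
    ∑ m ∈ Ioc 0 t, (if (m - 1) % Q = r then F m else 0) = ∑ j ∈ Ioc 0 ((t + Q - 1 - r) / Q), F (r + 1 + Q * (j - 1)) := by
  have hQ : 0 < Q := by omega
  rw [← Finset.sum_filter]
  symm
  apply Finset.sum_nbij' (fun j => r + 1 + Q * (j - 1)) (fun m => (m - 1) / Q + 1)
  · intro j hj
    rw [mem_Ioc, Nat.le_div_iff_mul_le hQ] at hj
    obtain ⟨k, rfl⟩ : ∃ k, j = k + 1 := ⟨j - 1, by omega⟩
    have h1 : (k + 1) * Q = Q * k + Q := by ring
    rw [h1] at hj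
    rw [mem_filter, mem_Ioc]
    have h2 : k + 1 - 1 = k := by omega
    rw [h2]
    refine ⟨⟨by omega, by omega⟩, ?_⟩
    have h3 : r + 1 + Q * k - 1 = r + Q * k := by omega
    rw [h3, Nat.add_mul_mod_self_left, Nat.mod_eq_of_lt hr]
  · intro m hm
    rw [mem_filter, mem_Ioc] at hm
    rw [mem_Ioc, Nat.le_div_iff_mul_le hQ]
    have h1 := Nat.div_add_mod (m - 1) Q
    rw [hm.2] at h1
    have h2 : ((m - 1) / Q + 1) * Q = Q * ((m - 1) / Q) + Q := by ring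
    rw [h2]
    refine ⟨Nat.succ_pos _, by omega⟩
  · intro j hj
    rw [mem_Ioc] at hj
    obtain ⟨k, rfl⟩ : ∃ k, j = k + 1 := ⟨j - 1, by omega⟩
    have h2 : k + 1 - 1 = k := by omega
    have h3 : r + 1 + Q * k - 1 = r + Q * k := by omega
    simp only [h2, h3]
    rw [Nat.add_mul_div_left _ _ hQ, Nat.div_eq_of_lt hr, zero_add]
  · intro m hm
    rw [mem_filter, mem_Ioc] at hm
    have h1 := Nat.div_add_mod (m - 1) Q
    rw [hm.2] at h1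
    have h2 : (m - 1) / Q + 1 - 1 = (m - 1) / Q := Nat.add_sub_cancel _ 1
    simp only [h2]
    omega
  · intro j _
    rfl

private theorem d1_blocks (G : ℕ → ℝ) (N B n : ℕ) :
    ∑ m ∈ Ioc 0 (min (n * B) N), G m = ∑ q ∈ range n, ∑ m ∈ Ioc (min (q * B) N) (min ((q + 1) * B) N), G m := by
  induction n with
  | zero => simp
  | succ n ih =>
    rw [Finset.sum_range_succ, ← ih]
    refine (Finset.sum_Ioc_consecutive G (Nat.zero_le _) ?_).symm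
    exact min_le_min_right N (Nat.mul_le_mul_right B (Nat.le_succ n))

private theorem d1_const (P : ℕ → Prop) (x y : ℕ) (h : ∀ m, x < m → m + 1 ≤ y → (P m ↔ P (m + 1))) (k : ℕ) :
    x + 1 + k ≤ y → (P (x + 1 + k) ↔ P (x + 1)) := by
  induction k with
  | zero => intro _; rfl
  | succ k ih =>
    intro hk
    have h1 := h (x + 1 + k) (by omega) (by omega)
    have h2 := ih (by omega)
    have h3 : x + 1 + (k + 1) = x + 1 + k + 1 := by ring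
    rw [h3, ← h1, h2]

private theorem d1_chg (F : ℕ → ℝ) (hF : ∀ m, |F m| ≤ 1) (N K B K₀ : ℕ) (hB : 0 < B) (hK : N < B * (K + 1)) (P : ℕ → Prop)
    (hP : ((range N).filter (fun m => ¬ (P m ↔ P (m + 1)))).card ≤ K₀) :
    |∑ m ∈ (Icc 1 N).filter (fun m => P m), F m| ≤ K₀ * B + 2 * ∑ q ∈ range (K + 2), |∑ m ∈ Ioc 0 (min (q * B) N), F m| := by
  obtain ⟨G, hG⟩ : ∃ G : ℕ → ℝ, ∀ m, G m = if P m then F m else 0 := ⟨_, fun _ => rfl⟩
  have hG1 : ∀ m, |G m| ≤ 1 := by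
    intro m
    rw [hG]
    split_ifs
    · exact hF m
    · simp
  have hmin : min ((K + 1) * B) N = N := by
    apply min_eq_right
    rw [mul_comm]
    exact hK.le
  have h0 : ∑ m ∈ (Icc 1 N).filter (fun m => P m), F m = ∑ m ∈ Ioc 0 (min ((K + 1) * B) N), G m := by
    rw [hmin, Finset.sum_filter]
    have h1 : Icc 1 N = Ioc 0 N := by
      ext m
      rw [Finset.mem_Icc, Finset.mem_Ioc]
      omega
    rw [h1]
    exact Finset.sum_congr rfl fun m _ => (hG m).symm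
  rw [h0, d1_blocks]
  obtain ⟨bad, hbad⟩ : ∃ bad : ℕ → Prop, ∀ q, bad q ↔ ∃ m, min (q * B) N < m ∧ m + 1 ≤ min ((q + 1) * B) N ∧ ¬ (P m ↔ P (m + 1)) := ⟨_, fun _ => Iff.rfl⟩
  have hcard : ((range (K + 1)).filter (fun q => bad q)).card ≤ K₀ := by
    refine le_trans (le_trans (Finset.card_le_card ?_) (Finset.card_image_le (s := (range N).filter (fun m => ¬ (P m ↔ P (m + 1)))) (f := fun m => (m - 1) / B))) hP
    intro q hq
    rw [Finset.mem_filter, hbad] at hq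
    obtain ⟨_, m, h1, h2, h3⟩ := hq
    have h4 : m + 1 ≤ N := h2.trans (min_le_right _ _)
    have h5 : m + 1 ≤ (q + 1) * B := h2.trans (min_le_left _ _)
    have h6 : q * B < m := by
      rcases min_lt_iff.1 h1 with h | h
      · exact h
      · omega
    rw [Finset.mem_image]
    refine ⟨m, Finset.mem_filter.2 ⟨Finset.mem_range.2 (by omega), h3⟩, ?_⟩
    apply Nat.div_eq_of_lt_le
    · omega
    · omega
  have hblk : ∀ q ∈ range (K + 1), |∑ m ∈ Ioc (min (q * B) N) (min ((q + 1) * B) N), G m| ≤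
      |∑ m ∈ Ioc (min (q * B) N) (min ((q + 1) * B) N), F m| + (if bad q then (B : ℝ) else 0) := by
    intro q _
    by_cases hb : bad q
    · rw [if_pos hb]
      have h1 : |∑ m ∈ Ioc (min (q * B) N) (min ((q + 1) * B) N), G m| ≤ B := by
        calc |∑ m ∈ Ioc (min (q * B) N) (min ((q + 1) * B) N), G m| ≤ ∑ m ∈ Ioc (min (q * B) N) (min ((q + 1) * B) N), |G m| :=
              Finset.abs_sum_le_sum_abs _ _
          _ ≤ ∑ m ∈ Ioc (min (q * B) N) (min ((q + 1) * B) N), (1 : ℝ) := Finset.sum_le_sum (fun m _ => hG1 m)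
          _ = ((min ((q + 1) * B) N - min (q * B) N : ℕ) : ℝ) := by rw [Finset.sum_const, Nat.card_Ioc, nsmul_eq_mul, mul_one]
          _ ≤ B := by
              have h2 : (q + 1) * B = q * B + B := by ring
              rw [h2]
              exact_mod_cast (by omega : min (q * B + B) N - min (q * B) N ≤ B)
      linarith [abs_nonneg (∑ m ∈ Ioc (min (q * B) N) (min ((q + 1) * B) N), F m)]
    · rw [if_neg hb, add_zero]
      have hc : ∀ m, min (q * B) N < m → m + 1 ≤ min ((q + 1) * B) N → (P m ↔ P (m + 1)) := by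
        intro m h1 h2
        by_contra h3
        exact hb ((hbad q).2 ⟨m, h1, h2, h3⟩)
      have hcc := d1_const P (min (q * B) N) (min ((q + 1) * B) N) hc
      by_cases hp : P (min (q * B) N + 1)
      · have h1 : ∑ m ∈ Ioc (min (q * B) N) (min ((q + 1) * B) N), G m = ∑ m ∈ Ioc (min (q * B) N) (min ((q + 1) * B) N), F m := by
          apply Finset.sum_congr rfl
          intro m hm
          rw [Finset.mem_Ioc] at hm
          obtain ⟨k, hk⟩ : ∃ k, m = min (q * B) N + 1 + k := ⟨m - (min (q * B) N + 1), by omega⟩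
          rw [hG, if_pos]
          rw [hk]
          exact (hcc k (by omega)).2 hp
        rw [h1]
      · have h1 : ∑ m ∈ Ioc (min (q * B) N) (min ((q + 1) * B) N), G m = 0 := by
          apply Finset.sum_eq_zero
          intro m hm
          rw [Finset.mem_Ioc] at hm
          obtain ⟨k, hk⟩ : ∃ k, m = min (q * B) N + 1 + k := ⟨m - (min (q * B) N + 1), by omega⟩
          rw [hG, if_neg]
          rw [hk]
          exact fun h2 => hp ((hcc k (by omega)).1 h2)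
        rw [h1, abs_zero]
        exact abs_nonneg _
  have hpre : ∀ q, |∑ m ∈ Ioc (min (q * B) N) (min ((q + 1) * B) N), F m| ≤
      |∑ m ∈ Ioc 0 (min ((q + 1) * B) N), F m| + |∑ m ∈ Ioc 0 (min (q * B) N), F m| := by
    intro q
    have h1 := Finset.sum_Ioc_consecutive F (Nat.zero_le (min (q * B) N)) (min_le_min_right N (Nat.mul_le_mul_right B (Nat.le_succ q)))
    have h2 : ∑ m ∈ Ioc (min (q * B) N) (min ((q + 1) * B) N), F m =
        ∑ m ∈ Ioc 0 (min ((q + 1) * B) N), F m - ∑ m ∈ Ioc 0 (min (q * B) N), F m := by linarith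
    rw [h2]
    exact abs_sub _ _
  have hs1 : ∑ q ∈ range (K + 1), |∑ m ∈ Ioc 0 (min ((q + 1) * B) N), F m| ≤ ∑ q ∈ range (K + 2), |∑ m ∈ Ioc 0 (min (q * B) N), F m| := by
    rw [Finset.sum_range_succ' (fun q => |∑ m ∈ Ioc 0 (min (q * B) N), F m|) (K + 1)]
    linarith [abs_nonneg (∑ m ∈ Ioc 0 (min (0 * B) N), F m)]
  have hs2 : ∑ q ∈ range (K + 1), |∑ m ∈ Ioc 0 (min (q * B) N), F m| ≤ ∑ q ∈ range (K + 2), |∑ m ∈ Ioc 0 (min (q * B) N), F m| := by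
    rw [Finset.sum_range_succ (fun q => |∑ m ∈ Ioc 0 (min (q * B) N), F m|) (K + 1)]
    linarith [abs_nonneg (∑ m ∈ Ioc 0 (min ((K + 1) * B) N), F m)]
  have hs3 : ∑ q ∈ range (K + 1), (if bad q then (B : ℝ) else 0) ≤ K₀ * B := by
    rw [← Finset.sum_filter, Finset.sum_const, nsmul_eq_mul]
    exact mul_le_mul_of_nonneg_right (by exact_mod_cast hcard) (Nat.cast_nonneg B)
  calc |∑ q ∈ range (K + 1), ∑ m ∈ Ioc (min (q * B) N) (min ((q + 1) * B) N), G m|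
      ≤ ∑ q ∈ range (K + 1), |∑ m ∈ Ioc (min (q * B) N) (min ((q + 1) * B) N), G m| := Finset.abs_sum_le_sum_abs _ _
    _ ≤ ∑ q ∈ range (K + 1), (|∑ m ∈ Ioc 0 (min ((q + 1) * B) N), F m| + |∑ m ∈ Ioc 0 (min (q * B) N), F m| + (if bad q then (B : ℝ) else 0)) := by
        apply Finset.sum_le_sum
        intro q hq
        linarith [hblk q hq, hpre q]
    _ ≤ K₀ * B + 2 * ∑ q ∈ range (K + 2), |∑ m ∈ Ioc 0 (min (q * B) N), F m| := by
        rw [Finset.sum_add_distrib, Finset.sum_add_distrib]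
        linarith

/-- D5. As `c1`: classes mod `Q` (`α Q`, `α r`, ...: `d0`); `K` fixed blocks of length `≤ L² / K + 1`: a block in which `P a` does not change is in or out; at most `K₀` blocks per `a` contain a change, cost `≤ K₀ (L²/K + 1)`. -/
theorem d1 (M v : ℕ) (hM : 0 < M) (hv : 0 < v) (n₀ : ℤ) (α β : ℤ) (hα : α ≠ 0) (hβ : β ≠ 0) (hαβ : α ≠ β) (Q : ℕ) (hQ : 0 < Q) (K₀ : ℕ) (ε : ℝ) (hε : 0 < ε) :
    ∃ L₀ : ℕ, ∀ L : ℕ, L₀ ≤ L → ∀ f : ℤ → ℝ, (∀ n, |f n| ≤ 1) → ∀ P : ℤ → ℕ → Prop, Chg K₀ (L ^ 2) P →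
      ∀ ρ : ℤ → ℕ → ℝ, (∀ a m, |ρ a m| ≤ 1) → (∀ a m m', m ≡ m' [MOD Q] → ρ a m = ρ a m') →
      ∑ a ∈ Icc (-(L : ℤ)) L, |∑ m ∈ (Icc 1 (L ^ 2)).filter (fun m => P a m), ρ a m * (f (α * m + a ^ 2) * gg M v n₀ (β * m + a ^ 2))| ≤ ε * L ^ 3 := by
  have hQr : (0 : ℝ) < Q := by exact_mod_cast hQ
  have hQz : (Q : ℤ) ≠ 0 := by exact_mod_cast hQ.ne'
  obtain ⟨K, hK⟩ : ∃ K : ℕ, K = ⌈12 * (Q : ℝ) * K₀ / ε⌉₊ + 1 := ⟨_, rfl⟩
  have hK1 : 1 ≤ K := by omega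
  have hKr : (0 : ℝ) < K := by exact_mod_cast hK1
  have hKe : 12 * (Q : ℝ) * K₀ ≤ ε * K := by
    have h2 : 12 * (Q : ℝ) * K₀ / ε ≤ K := (Nat.le_ceil _).trans (by exact_mod_cast (by omega : ⌈12 * (Q : ℝ) * K₀ / ε⌉₊ ≤ K))
    rw [div_le_iff₀ hε] at h2
    linarith
  have hcho : ∀ r : ℕ, ∃ L₀ : ℕ, ∀ L : ℕ, L₀ ≤ L → ∀ f : ℤ → ℝ, (∀ n, |f n| ≤ 1) → ∀ m₁ m₂ : ℕ, m₂ ≤ L ^ 2 →
      ∑ a ∈ Icc (-(L : ℤ)) L, |∑ m ∈ Ioc m₁ m₂, f (α * Q * m + α * (r + 1 - Q) + a ^ 2) * gg M v n₀ (β * Q * m + β * (r + 1 - Q) + a ^ 2)| ≤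
        ε / (4 * Q * (K + 2)) * L ^ 3 := fun r =>
    d0 M v hM hv n₀ (α * Q) (β * Q) (α * (r + 1 - Q)) (β * (r + 1 - Q)) (mul_ne_zero hα hQz) (mul_ne_zero hβ hQz)
      (fun h => hαβ (mul_right_cancel₀ hQz h)) (ε / (4 * Q * (K + 2))) (by positivity)
  choose Lr hLr using hcho
  refine ⟨(range Q).sup Lr + K, ?_⟩
  intro L hL f hf P hP ρ hρ hρc
  obtain ⟨N, hNd⟩ : ∃ N : ℕ, N = L ^ 2 := ⟨_, rfl⟩
  have hNr : (N : ℝ) = (L : ℝ) ^ 2 := by rw [hNd]; push_cast; rfl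
  have hL1 : 1 ≤ L := by omega
  have hLN : L ≤ N := by
    rw [hNd]
    nlinarith
  have hL1r : (1 : ℝ) ≤ L := by exact_mod_cast hL1
  have hNK : (K : ℝ) ≤ N := by exact_mod_cast (by omega : K ≤ N)
  obtain ⟨B, hBd⟩ : ∃ B : ℕ, B = N / K + 1 := ⟨_, rfl⟩
  have hB0 : 0 < B := by
    rw [hBd]
    exact Nat.succ_pos _
  have hBK : N < B * (K + 1) := by
    have h1 := Nat.lt_mul_div_succ N hK1
    have h2 : K * (N / K + 1) ≤ B * (K + 1) := by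
      rw [hBd]
      nlinarith
    omega
  have hBr : (B : ℝ) ≤ 2 * N / K := by
    have h1 : ((N / K : ℕ) : ℝ) ≤ N / K := Nat.cast_div_le
    have h2 : (1 : ℝ) ≤ N / K := by rwa [le_div_iff₀ hKr, one_mul]
    have h3 : (B : ℝ) = ((N / K : ℕ) : ℝ) + 1 := by rw [hBd]; push_cast; rfl
    have h4 : 2 * (N : ℝ) / K = N / K + N / K := by ring
    rw [h3, h4]
    linarith
  obtain ⟨F, hFd⟩ : ∃ F : ℤ → ℕ → ℝ, ∀ (a : ℤ) (m : ℕ), F a m = f (α * m + a ^ 2) * gg M v n₀ (β * m + a ^ 2) := ⟨_, fun _ _ => rfl⟩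
  have hF1 : ∀ a m, |F a m| ≤ 1 := by
    intro a m
    rw [hFd, abs_mul]
    exact mul_le_one₀ (hf _) (abs_nonneg _) (gg_le M v n₀ _)
  have hG1 : ∀ a r m, |(if (m - 1) % Q = r then F a m else 0 : ℝ)| ≤ 1 := by
    intro a r m
    split_ifs
    · exact hF1 a m
    · simp
  -- one class, one prefix
  have hcls : ∀ r ∈ range Q, ∀ t : ℕ, t ≤ N → ∑ a ∈ Icc (-(L : ℤ)) L, |∑ m ∈ Ioc 0 t, (if (m - 1) % Q = r then F a m else 0)| ≤
      ε / (4 * Q * (K + 2)) * L ^ 3 := by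
    intro r hr t ht
    have hrQ := Finset.mem_range.1 hr
    have hNN : Lr r ≤ L := (Finset.le_sup hr).trans (by omega)
    have hm2 : (t + Q - 1 - r) / Q ≤ N := by
      rcases Nat.eq_zero_or_pos t with h | h
      · subst h
        rw [Nat.div_eq_of_lt (by omega)]
        exact Nat.zero_le _
      · refine le_trans (Nat.div_le_of_le_mul ?_) ht
        obtain ⟨s, rfl⟩ : ∃ s, t = s + 1 := ⟨t - 1, by omega⟩
        have h3 : s ≤ Q * s := Nat.le_mul_of_pos_left s hQ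
        have h4 : Q * (s + 1) = Q * s + Q := by ring
        omega
    have h1 := hLr r L hNN f hf 0 ((t + Q - 1 - r) / Q) (by rw [← hNd]; exact hm2)
    refine le_trans (le_of_eq ?_) h1
    apply Finset.sum_congr rfl
    intro a _
    rw [d1_cls (F a) Q r t hrQ]
    congr 1
    apply Finset.sum_congr rfl
    intro j hj
    rw [mem_Ioc] at hj
    obtain ⟨k, rfl⟩ : ∃ k, j = k + 1 := ⟨j - 1, by omega⟩
    have h2 : k + 1 - 1 = k := by omega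
    rw [h2, hFd]
    have e1 : α * ((r + 1 + Q * k : ℕ) : ℤ) + a ^ 2 = α * Q * ((k + 1 : ℕ) : ℤ) + α * (r + 1 - Q) + a ^ 2 := by push_cast; ring
    have e2 : β * ((r + 1 + Q * k : ℕ) : ℤ) + a ^ 2 = β * Q * ((k + 1 : ℕ) : ℤ) + β * (r + 1 - Q) + a ^ 2 := by push_cast; ring
    rw [e1, e2]
  -- one `a`
  have hone : ∀ a, |∑ m ∈ (Icc 1 (L ^ 2)).filter (fun m => P a m), ρ a m * (f (α * m + a ^ 2) * gg M v n₀ (β * m + a ^ 2))| ≤
      ∑ r ∈ range Q, ((K₀ : ℝ) * B + 2 * ∑ q ∈ range (K + 2), |∑ m ∈ Ioc 0 (min (q * B) N), (if (m - 1) % Q = r then F a m else 0)|) := by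
    intro a
    have e1 : ∑ m ∈ (Icc 1 (L ^ 2)).filter (fun m => P a m), ρ a m * (f (α * m + a ^ 2) * gg M v n₀ (β * m + a ^ 2)) =
        ∑ r ∈ range Q, ρ a (r + 1) * ∑ m ∈ (Icc 1 (L ^ 2)).filter (fun m => P a m), (if (m - 1) % Q = r then F a m else 0) := by
      have e2 : ∀ r ∈ range Q, ρ a (r + 1) * ∑ m ∈ (Icc 1 (L ^ 2)).filter (fun m => P a m), (if (m - 1) % Q = r then F a m else 0) =
          ∑ m ∈ (Icc 1 (L ^ 2)).filter (fun m => P a m), (if (m - 1) % Q = r then ρ a m * F a m else 0) := by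
        intro r _
        rw [Finset.mul_sum]
        apply Finset.sum_congr rfl
        intro m hm
        rw [mem_filter, mem_Icc] at hm
        split_ifs with h
        · have h3 : ρ a (r + 1) = ρ a m := by
            apply hρc
            have h4 : m = (m - 1) + 1 := by omega
            rw [h4, ← h]
            exact (Nat.mod_modEq (m - 1) Q).add_right 1
          rw [h3]
        · rw [mul_zero]
      rw [Finset.sum_congr rfl e2, Finset.sum_comm]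
      apply Finset.sum_congr rfl
      intro m _
      rw [Finset.sum_ite_eq, if_pos (Finset.mem_range.2 (Nat.mod_lt _ hQ)), hFd]
    rw [e1]
    refine (Finset.abs_sum_le_sum_abs _ _).trans (Finset.sum_le_sum ?_)
    intro r _
    rw [abs_mul]
    have hPa : ((range N).filter (fun m => ¬ (P a m ↔ P a (m + 1)))).card ≤ K₀ := by
      rw [hNd]
      exact hP a
    have h5 := d1_chg _ (hG1 a r) N K B K₀ hB0 hBK (P a) hPa
    rw [hNd] at h5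
    calc |ρ a (r + 1)| * |∑ m ∈ (Icc 1 (L ^ 2)).filter (fun m => P a m), (if (m - 1) % Q = r then F a m else 0)| ≤
          1 * |∑ m ∈ (Icc 1 (L ^ 2)).filter (fun m => P a m), (if (m - 1) % Q = r then F a m else 0)| := mul_le_mul_of_nonneg_right (hρ _ _) (abs_nonneg _)
      _ = |∑ m ∈ (Icc 1 (L ^ 2)).filter (fun m => P a m), (if (m - 1) % Q = r then F a m else 0)| := one_mul _
      _ ≤ _ := by rw [hNd]; exact h5
  have hall : ∑ a ∈ Icc (-(L : ℤ)) L, |∑ m ∈ (Icc 1 (L ^ 2)).filter (fun m => P a m), ρ a m * (f (α * m + a ^ 2) * gg M v n₀ (β * m + a ^ 2))| ≤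
      Q * ((2 * L + 1) * (K₀ * B) + 2 * ((K + 2) * (ε / (4 * Q * (K + 2)) * L ^ 3))) := by
    refine (Finset.sum_le_sum (fun a _ => hone a)).trans ?_
    rw [Finset.sum_comm]
    have h1 : ∀ r ∈ range Q, ∑ a ∈ Icc (-(L : ℤ)) L, ((K₀ : ℝ) * B + 2 * ∑ q ∈ range (K + 2), |∑ m ∈ Ioc 0 (min (q * B) N), (if (m - 1) % Q = r then F a m else 0)|) ≤
        (2 * L + 1) * (K₀ * B) + 2 * ((K + 2) * (ε / (4 * Q * (K + 2)) * L ^ 3)) := by
      intro r hr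
      rw [Finset.sum_add_distrib, Finset.sum_const, Int.card_Icc, nsmul_eq_mul, ← Finset.mul_sum, Finset.sum_comm]
      have e6 : (((L : ℤ) + 1 - -(L : ℤ)).toNat : ℤ) = 2 * L + 1 := by omega
      have e7 : ((((L : ℤ) + 1 - -(L : ℤ)).toNat : ℕ) : ℝ) = ((((L : ℤ) + 1 - -(L : ℤ)).toNat : ℤ) : ℝ) := by push_cast; rfl
      rw [e7, e6]
      have h2 : ∑ q ∈ range (K + 2), ∑ a ∈ Icc (-(L : ℤ)) L, |∑ m ∈ Ioc 0 (min (q * B) N), (if (m - 1) % Q = r then F a m else 0)| ≤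
          (K + 2) * (ε / (4 * Q * (K + 2)) * L ^ 3) := by
        calc ∑ q ∈ range (K + 2), ∑ a ∈ Icc (-(L : ℤ)) L, |∑ m ∈ Ioc 0 (min (q * B) N), (if (m - 1) % Q = r then F a m else 0)| ≤
              ∑ q ∈ range (K + 2), ε / (4 * Q * (K + 2)) * (L : ℝ) ^ 3 := Finset.sum_le_sum (fun q _ => hcls r hr _ (min_le_right _ _))
          _ = (K + 2) * (ε / (4 * Q * (K + 2)) * L ^ 3) := by
              rw [Finset.sum_const, Finset.card_range, nsmul_eq_mul]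
              push_cast
              ring
      push_cast
      linarith
    refine (Finset.sum_le_sum h1).trans (le_of_eq ?_)
    rw [Finset.sum_const, Finset.card_range, nsmul_eq_mul]
  refine hall.trans ?_
  have h1 : (Q : ℝ) * (2 * ((K + 2) * (ε / (4 * Q * (K + 2)) * L ^ 3))) = ε / 2 * L ^ 3 := by
    field_simp
    ring
  have h2 : (Q : ℝ) * ((2 * L + 1) * (K₀ * B)) ≤ ε / 2 * L ^ 3 := by
    have h3 : (2 * (L : ℝ) + 1) * (K₀ * B) ≤ 3 * L * (K₀ * (2 * N / K)) := by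
      apply mul_le_mul (by linarith) (mul_le_mul_of_nonneg_left hBr (Nat.cast_nonneg _)) (by positivity) (by positivity)
    calc (Q : ℝ) * ((2 * L + 1) * (K₀ * B)) ≤ Q * (3 * L * (K₀ * (2 * N / K))) := mul_le_mul_of_nonneg_left h3 hQr.le
      _ = (12 * (Q : ℝ) * K₀) * L ^ 3 / (2 * K) := by rw [hNr]; field_simp; ring
      _ ≤ (ε * K) * L ^ 3 / (2 * K) := by
          apply div_le_div_of_nonneg_right _ (by positivity)
          exact mul_le_mul_of_nonneg_right hKe (by positivity)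
      _ = ε / 2 * L ^ 3 := by field_simp
  have h3 : (Q : ℝ) * ((2 * L + 1) * (K₀ * B) + 2 * ((K + 2) * (ε / (4 * Q * (K + 2)) * L ^ 3))) =
      (Q : ℝ) * ((2 * L + 1) * (K₀ * B)) + (Q : ℝ) * (2 * ((K + 2) * (ε / (4 * Q * (K + 2)) * L ^ 3))) := by ring
  linarith
-- END d1

-- BEGIN corr4
private theorem corr4_sq (m n : ℕ) (hn : n ≠ 0) :
    ((jacobiSym (m : ℤ) n : ℤ) : ℝ) ^ 2 = if Nat.Coprime m n then 1 else 0 := by
  have : NeZero n := ⟨hn⟩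
  have hg : (m : ℤ).gcd (n : ℤ) = Nat.gcd m n := Int.gcd_natCast_natCast m n
  split_ifs with h
  · have h1 := jacobiSym.sq_one (a := (m : ℤ)) (b := n) (hg.trans h)
    exact_mod_cast h1
  · have h1 : jacobiSym (m : ℤ) n = 0 :=
      jacobiSym.eq_zero_iff_not_coprime.2 fun h' => h (hg.symm.trans h')
    rw [h1]
    simp

/-- the nonzero `w` in `[-N, N]` divisible by `n` -/
private theorem corr4_mul (N n : ℕ) :
    (((Icc (-(N : ℤ)) N).erase 0).filter (fun w => (n : ℤ) ∣ w)).card ≤ 2 * (N / n) := by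
  classical
  set M := (Ioc 0 N).filter (fun m => n ∣ m) with hM
  have hMc : M.card = N / n := Nat.Ioc_filter_dvd_card_eq_div N n
  have h1 : (((Icc (-(N : ℤ)) N).erase 0).filter (fun w => (n : ℤ) ∣ w)) ⊆
      M.image (fun m : ℕ => (m : ℤ)) ∪ M.image (fun m : ℕ => -(m : ℤ)) := by
    intro w hw
    rw [Finset.mem_filter, Finset.mem_erase, Finset.mem_Icc] at hw
    obtain ⟨⟨h0, h2, h3⟩, h4⟩ := hw
    have h5 : n ∣ w.natAbs := Int.natCast_dvd.1 h4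
    have h6 : w.natAbs ∈ M := by
      rw [hM, Finset.mem_filter, Finset.mem_Ioc]
      exact ⟨⟨by omega, by omega⟩, h5⟩
    rw [Finset.mem_union, Finset.mem_image, Finset.mem_image]
    rcases le_total 0 w with h | h
    · exact Or.inl ⟨_, h6, by omega⟩
    · exact Or.inr ⟨_, h6, by omega⟩
  calc _ ≤ (M.image (fun m : ℕ => (m : ℤ)) ∪ M.image (fun m : ℕ => -(m : ℤ))).card :=
        Finset.card_le_card h1
    _ ≤ (M.image (fun m : ℕ => (m : ℤ))).card + (M.image (fun m : ℕ => -(m : ℤ))).card :=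
        Finset.card_union_le _ _
    _ ≤ M.card + M.card := add_le_add Finset.card_image_le Finset.card_image_le
    _ = 2 * (N / n) := by rw [hMc]; ring

open Classical in
/-- the pairs with a common divisor larger than `W` -/
private theorem corr4_cnt (W N : ℕ) (hW : 0 < W) :
    ∑ w ∈ (Icc (-(N : ℤ)) N).erase 0,
      (((Icc 1 (N ^ 2)).filter (fun m => ∃ n : ℕ, W < n ∧ n ∣ m ∧ (n : ℤ) ∣ w)).card : ℝ) ≤
      2 * (N : ℝ) ^ 3 / W := by
  have h1 : ∀ w ∈ (Icc (-(N : ℤ)) N).erase 0,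
      (((Icc 1 (N ^ 2)).filter (fun m => ∃ n : ℕ, W < n ∧ n ∣ m ∧ (n : ℤ) ∣ w)).card : ℝ) ≤
      ∑ n ∈ Ioc W N, if (n : ℤ) ∣ w then ((N ^ 2 / n : ℕ) : ℝ) else 0 := by
    intro w hw
    rw [Finset.mem_erase, Finset.mem_Icc] at hw
    rw [← Finset.sum_filter, ← Nat.cast_sum]
    have h2 : ((Icc 1 (N ^ 2)).filter (fun m => ∃ n : ℕ, W < n ∧ n ∣ m ∧ (n : ℤ) ∣ w)) ⊆
        ((Ioc W N).filter (fun n : ℕ => (n : ℤ) ∣ w)).biUnion
          (fun n => (Ioc 0 (N ^ 2)).filter (fun m => n ∣ m)) := by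
      intro m hm
      rw [Finset.mem_filter, Finset.mem_Icc] at hm
      obtain ⟨⟨h3, h4⟩, n, h5, h6, h7⟩ := hm
      have h8 : n ≤ w.natAbs := Nat.le_of_dvd (by omega) (Int.natCast_dvd.1 h7)
      rw [Finset.mem_biUnion]
      exact ⟨n, Finset.mem_filter.2 ⟨Finset.mem_Ioc.2 ⟨h5, by omega⟩, h7⟩,
        Finset.mem_filter.2 ⟨Finset.mem_Ioc.2 ⟨by omega, h4⟩, h6⟩⟩
    have h3 := (Finset.card_le_card h2).trans Finset.card_biUnion_le
    rw [Finset.sum_congr rfl fun n _ => Nat.Ioc_filter_dvd_card_eq_div (N ^ 2) n] at h3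
    exact_mod_cast h3
  refine (Finset.sum_le_sum h1).trans ?_
  rw [Finset.sum_comm]
  have h2 : ∀ n ∈ Ioc W N, ∑ w ∈ (Icc (-(N : ℤ)) N).erase 0,
      (if (n : ℤ) ∣ w then ((N ^ 2 / n : ℕ) : ℝ) else 0) ≤ 2 * (N : ℝ) ^ 3 * ((n : ℝ) ^ 2)⁻¹ := by
    intro n hn
    have hn0 : (0 : ℝ) < n := by
      have := (Finset.mem_Ioc.1 hn).1
      exact_mod_cast (by omega : 0 < n)
    rw [← Finset.sum_filter, Finset.sum_const, nsmul_eq_mul]
    have h3 : ((((Icc (-(N : ℤ)) N).erase 0).filter (fun w => (n : ℤ) ∣ w)).card : ℝ) ≤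
        2 * ((N / n : ℕ) : ℝ) := by
      exact_mod_cast corr4_mul N n
    have h4 : ((N / n : ℕ) : ℝ) ≤ (N : ℝ) / n := Nat.cast_div_le
    have h5 : (0 : ℝ) ≤ ((N ^ 2 / n : ℕ) : ℝ) := Nat.cast_nonneg _
    have h6 : ((N ^ 2 / n : ℕ) : ℝ) ≤ (N : ℝ) ^ 2 / n := by
      refine Nat.cast_div_le.trans (le_of_eq ?_)
      push_cast
      ring
    calc _ ≤ 2 * ((N / n : ℕ) : ℝ) * ((N ^ 2 / n : ℕ) : ℝ) := mul_le_mul_of_nonneg_right h3 h5
      _ ≤ 2 * ((N : ℝ) / n) * ((N : ℝ) ^ 2 / n) := by gcongr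
      _ = 2 * (N : ℝ) ^ 3 * ((n : ℝ) ^ 2)⁻¹ := by
        field_simp
  refine (Finset.sum_le_sum h2).trans ?_
  rw [← Finset.mul_sum]
  rcases Nat.lt_or_ge N W with h | h
  · rw [Finset.Ioc_eq_empty (by omega), Finset.sum_empty, mul_zero]
    positivity
  · have h3 := sum_Ioc_inv_sq_le_sub (α := ℝ) hW.ne' h
    have h4 : (0 : ℝ) ≤ (N : ℝ)⁻¹ := by positivity
    rw [div_eq_mul_inv]
    exact mul_le_mul_of_nonneg_left (h3.trans (by linarith)) (by positivity)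

open Classical in
/-- `(m/ψ)²` is the condition modulo `W!` up to a common divisor larger than `W` -/
private theorem corr4_dif (W m ψ : ℕ) (w : ℤ) (hw : w ≠ 0) (hψ : ψ ∣ w.natAbs) :
    |(if Nat.Coprime m (Nat.gcd ψ W.factorial) then (1 : ℝ) else 0) -
      ((jacobiSym (m : ℤ) ψ : ℤ) : ℝ) ^ 2| ≤
      if ∃ n : ℕ, W < n ∧ n ∣ m ∧ (n : ℤ) ∣ w then 1 else 0 := by
  have hψ0 : ψ ≠ 0 := by
    rintro rfl
    exact hw (Int.natAbs_eq_zero.1 (Nat.eq_zero_of_zero_dvd hψ))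
  rw [corr4_sq m ψ hψ0]
  by_cases h : Nat.Coprime m ψ
  · rw [if_pos h, if_pos (Nat.Coprime.coprime_dvd_right (Nat.gcd_dvd_left _ _) h), sub_self, abs_zero]
    split_ifs <;> norm_num
  · rw [if_neg h, sub_zero]
    obtain ⟨p, hp, hpm, hpψ⟩ := Nat.Prime.not_coprime_iff_dvd.1 h
    by_cases hpW : p ≤ W
    · rw [if_neg]
      · rw [abs_zero]
        split_ifs <;> norm_num
      · exact Nat.Prime.not_coprime_iff_dvd.2 ⟨p, hp, hpm,
          Nat.dvd_gcd hpψ (hp.dvd_factorial.2 hpW)⟩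
    · rw [if_pos (⟨p, by omega, hpm, Int.natCast_dvd.2 (hpψ.trans hψ)⟩ :
        ∃ n : ℕ, W < n ∧ n ∣ m ∧ (n : ℤ) ∣ w)]
      split_ifs <;> norm_num

/-- D6. Copy of `corr` with `d1` for `c1`: primes `≤ W` in `ρ` (period `Q ∏ p`), primes `> W`: pairs `a ≠ 0`, `p ∣ a`, `p ∣ m`, `m ≤ L²`: at most `∑_(n > W) (2L/n)(L²/n) ≤ 2L³/W`; `a = 0`: at most `L²`. -/
theorem corr4 (M v : ℕ) (hM : 0 < M) (hv : 0 < v) (n₀ : ℤ) (α β : ℤ) (hα : α ≠ 0) (hβ : β ≠ 0) (hαβ : α ≠ β) (Q : ℕ) (hQ : 0 < Q) (K₀ : ℕ) (ε : ℝ) (hε : 0 < ε) :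
    ∃ L₀ : ℕ, ∀ L : ℕ, L₀ ≤ L → ∀ f : ℤ → ℝ, (∀ n, |f n| ≤ 1) → ∀ P : ℤ → ℕ → Prop, Chg K₀ (L ^ 2) P →
      ∀ ρ : ℤ → ℕ → ℝ, (∀ a m, |ρ a m| ≤ 1) → (∀ a m m', m ≡ m' [MOD Q] → ρ a m = ρ a m') →
      ∀ ψ : ℤ → ℕ, (∀ a, a ≠ 0 → ψ a ∣ a.natAbs) →
      ∑ a ∈ Icc (-(L : ℤ)) L, |∑ m ∈ (Icc 1 (L ^ 2)).filter (fun m => P a m), ρ a m * ((jacobiSym (m : ℤ) (ψ a) : ℤ) : ℝ) ^ 2 *
        (f (α * m + a ^ 2) * gg M v n₀ (β * m + a ^ 2))| ≤ ε * L ^ 3 := by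
  classical
  obtain ⟨W₀, hW₀⟩ := exists_nat_ge (8 / ε)
  set W := W₀ + 1 with hW
  have hW1 : 0 < W := by omega
  have hW2 : 2 / (W : ℝ) ≤ ε / 4 := by
    have h1 : (0 : ℝ) < W := by exact_mod_cast hW1
    rw [div_le_iff₀ h1]
    rw [div_le_iff₀ hε] at hW₀
    have h2 : (W : ℝ) = W₀ + 1 := by rw [hW]; push_cast; ring
    rw [h2]
    nlinarith
  obtain ⟨L₁, hL₁⟩ := d1 M v hM hv n₀ α β hα hβ hαβ (Q * W.factorial)
    (Nat.mul_pos hQ (Nat.factorial_pos W)) K₀ (ε / 2) (half_pos hε)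
  obtain ⟨L₂, hL₂⟩ := exists_nat_ge (4 / ε)
  refine ⟨max L₁ L₂, fun L hL f hf P hP ρ hρ hρQ ψ hψ => ?_⟩
  have hLa : L₁ ≤ L := (le_max_left _ _).trans hL
  have hLb : (4 : ℝ) / ε ≤ L := hL₂.trans (by exact_mod_cast (le_max_right _ _).trans hL)
  set χ : ℤ → ℕ → ℝ := fun w m =>
    if Nat.Coprime m (Nat.gcd (ψ w) W.factorial) then (1 : ℝ) else 0 with hχ
  have hχ1 : ∀ w m, |χ w m| ≤ 1 := by
    intro w m
    rw [hχ]
    beta_reduce
    split_ifs <;> norm_num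
  have hF : ∀ (w : ℤ) (m : ℕ), |f (α * m + w ^ 2) * gg M v n₀ (β * m + w ^ 2)| ≤ 1 := by
    intro w m
    rw [abs_mul]
    exact mul_le_one₀ (hf _) (abs_nonneg _) (gg_le M v n₀ _)
  have hJ : ∀ (w : ℤ) (m : ℕ), |((jacobiSym (m : ℤ) (ψ w) : ℤ) : ℝ) ^ 2| ≤ 1 := by
    intro w m
    rcases jacobiSym.trichotomy (m : ℤ) (ψ w) with h | h | h <;> rw [h] <;> norm_num
  have h1 := hL₁ L hLa f hf P hP (fun w m => ρ w m * χ w m) (fun w m => by
    beta_reduce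
    rw [abs_mul]
    exact mul_le_one₀ (hρ w m) (abs_nonneg _) (hχ1 w m)) (fun w m m' hmm => by
    beta_reduce
    rw [hρQ w m m' (hmm.of_mul_right _)]
    congr 1
    have h2 : m ≡ m' [MOD Nat.gcd (ψ w) W.factorial] :=
      (hmm.of_mul_left _).of_dvd (Nat.gcd_dvd_right _ _)
    rw [hχ]
    beta_reduce
    have h3 : Nat.Coprime m (Nat.gcd (ψ w) W.factorial) ↔
        Nat.Coprime m' (Nat.gcd (ψ w) W.factorial) := by
      unfold Nat.Coprime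
      rw [h2.gcd_eq]
    simp only [h3])
  have h0mem : (0 : ℤ) ∈ Icc (-(L : ℤ)) L := Finset.mem_Icc.2 ⟨by omega, by omega⟩
  rw [← Finset.add_sum_erase _ _ h0mem]
  -- the term `a = 0`
  have hz : |∑ m ∈ (Icc 1 (L ^ 2)).filter (fun m => P 0 m), ρ 0 m * ((jacobiSym (m : ℤ) (ψ 0) : ℤ) : ℝ) ^ 2 *
        (f (α * m + 0 ^ 2) * gg M v n₀ (β * m + 0 ^ 2))| ≤ (L : ℝ) ^ 2 := by
    refine (Finset.abs_sum_le_sum_abs _ _).trans ?_
    calc _ ≤ ∑ _m ∈ (Icc 1 (L ^ 2)).filter (fun m => P 0 m), (1 : ℝ) := by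
          refine Finset.sum_le_sum fun m _ => ?_
          rw [abs_mul, abs_mul]
          exact mul_le_one₀ (mul_le_one₀ (hρ 0 m) (abs_nonneg _) (hJ 0 m)) (abs_nonneg _) (hF 0 m)
      _ = (((Icc 1 (L ^ 2)).filter (fun m => P 0 m)).card : ℝ) := by simp
      _ ≤ ((Icc 1 (L ^ 2)).card : ℝ) := by exact_mod_cast Finset.card_filter_le _ _
      _ = (L : ℝ) ^ 2 := by
          rw [Nat.card_Icc]
          push_cast [Nat.add_sub_cancel]
          ring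
  have hw : ∀ w ∈ (Icc (-(L : ℤ)) L).erase 0,
      |∑ m ∈ (Icc 1 (L ^ 2)).filter (fun m => P w m), ρ w m * ((jacobiSym (m : ℤ) (ψ w) : ℤ) : ℝ) ^ 2 *
        (f (α * m + w ^ 2) * gg M v n₀ (β * m + w ^ 2))| ≤
      |∑ m ∈ (Icc 1 (L ^ 2)).filter (fun m => P w m), ρ w m * χ w m * (f (α * m + w ^ 2) * gg M v n₀ (β * m + w ^ 2))| +
        (((Icc 1 (L ^ 2)).filter (fun m => ∃ n : ℕ, W < n ∧ n ∣ m ∧ (n : ℤ) ∣ w)).card : ℝ) := by
    intro w hw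
    have hw0 : w ≠ 0 := (Finset.mem_erase.1 hw).1
    have e1 : ∑ m ∈ (Icc 1 (L ^ 2)).filter (fun m => P w m), ρ w m * ((jacobiSym (m : ℤ) (ψ w) : ℤ) : ℝ) ^ 2 *
        (f (α * m + w ^ 2) * gg M v n₀ (β * m + w ^ 2)) =
        ∑ m ∈ (Icc 1 (L ^ 2)).filter (fun m => P w m), ρ w m * χ w m * (f (α * m + w ^ 2) * gg M v n₀ (β * m + w ^ 2)) -
        ∑ m ∈ (Icc 1 (L ^ 2)).filter (fun m => P w m), ρ w m * (χ w m - ((jacobiSym (m : ℤ) (ψ w) : ℤ) : ℝ) ^ 2) *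
          (f (α * m + w ^ 2) * gg M v n₀ (β * m + w ^ 2)) := by
      rw [← Finset.sum_sub_distrib]
      exact Finset.sum_congr rfl fun m _ => by ring
    rw [e1]
    refine (abs_sub _ _).trans (add_le_add le_rfl ?_)
    refine (Finset.abs_sum_le_sum_abs _ _).trans ?_
    calc _ ≤ ∑ m ∈ (Icc 1 (L ^ 2)).filter (fun m => P w m), (if ∃ n : ℕ, W < n ∧ n ∣ m ∧ (n : ℤ) ∣ w then (1 : ℝ) else 0) := by
          refine Finset.sum_le_sum fun m _ => ?_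
          rw [abs_mul, abs_mul]
          have h2 := corr4_dif W m (ψ w) w hw0 (hψ w hw0)
          calc |ρ w m| * |χ w m - ((jacobiSym (m : ℤ) (ψ w) : ℤ) : ℝ) ^ 2| *
                |f (α * m + w ^ 2) * gg M v n₀ (β * m + w ^ 2)|
              ≤ 1 * |χ w m - ((jacobiSym (m : ℤ) (ψ w) : ℤ) : ℝ) ^ 2| * 1 := by
                refine mul_le_mul (mul_le_mul_of_nonneg_right (hρ w m) (abs_nonneg _)) (hF w m)
                  (abs_nonneg _) (by rw [one_mul]; exact abs_nonneg _)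
            _ ≤ _ := by
                rw [one_mul, mul_one]
                exact h2
      _ ≤ ∑ m ∈ Icc 1 (L ^ 2), (if ∃ n : ℕ, W < n ∧ n ∣ m ∧ (n : ℤ) ∣ w then (1 : ℝ) else 0) := by
          refine Finset.sum_le_sum_of_subset_of_nonneg (Finset.filter_subset _ _)
            fun m _ _ => by split_ifs <;> norm_num
      _ = _ := by rw [Finset.sum_boole]
  have h2 := Finset.sum_le_sum hw
  rw [Finset.sum_add_distrib] at h2
  have h3 := corr4_cnt W L hW1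
  have h4 : ∑ w ∈ (Icc (-(L : ℤ)) L).erase 0,
      |∑ m ∈ (Icc 1 (L ^ 2)).filter (fun m => P w m), ρ w m * χ w m * (f (α * m + w ^ 2) * gg M v n₀ (β * m + w ^ 2))| ≤
      ε / 2 * L ^ 3 :=
    (Finset.sum_le_sum_of_subset_of_nonneg (Finset.erase_subset _ _)
      fun w _ _ => abs_nonneg _).trans h1
  have h5 : 2 * (L : ℝ) ^ 3 / W ≤ ε / 4 * L ^ 3 := by
    have h6 : 2 * (L : ℝ) ^ 3 / W = 2 / (W : ℝ) * L ^ 3 := by ring
    rw [h6]
    exact mul_le_mul_of_nonneg_right hW2 (by positivity)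
  have h6 : (L : ℝ) ^ 2 ≤ ε / 4 * L ^ 3 := by
    rw [div_le_iff₀ hε] at hLb
    have h7 : (0 : ℝ) ≤ L := Nat.cast_nonneg L
    have h8 : (0 : ℝ) ≤ (L : ℝ) ^ 2 := by positivity
    nlinarith [mul_le_mul_of_nonneg_left hLb h8]
  linarith
-- END corr4

-- BEGIN core4
/-- the term of `core4` as a function on all of `ℕ` -/
private noncomputable def core4_G (M S N : ℕ) (s₀ κ : ℤ) (ρ : ℤ → ℕ → ℝ) (ψ : ℤ → ℕ) (P : ℤ → ℕ → Prop) (a : ℤ) (n : ℕ) : ℝ :=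
  if n ∈ Icc 1 N ∧ P a n then ρ a n * ((jacobiSym (n : ℤ) (ψ a) : ℤ) : ℝ) * gg M S s₀ (κ * n + a ^ 2) else 0

private theorem core4_jac (a : ℤ) (b : ℕ) : |((jacobiSym a b : ℤ) : ℝ)| ≤ 1 := by
  rcases jacobiSym.trichotomy a b with h | h | h <;> rw [h] <;> norm_num

private theorem core4_mul_le {a b : ℝ} (ha : |a| ≤ 1) (hb : |b| ≤ 1) : |a * b| ≤ 1 := by
  rw [abs_mul]
  exact mul_le_one₀ ha (abs_nonneg _) hb

private theorem core4_G_le (M S N : ℕ) (s₀ κ : ℤ) (ρ : ℤ → ℕ → ℝ) (hρ : ∀ w m, |ρ w m| ≤ 1) (ψ : ℤ → ℕ)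
    (P : ℤ → ℕ → Prop) (a : ℤ) (n : ℕ) : |core4_G M S N s₀ κ ρ ψ P a n| ≤ 1 := by
  unfold core4_G
  split_ifs with h
  · exact core4_mul_le (core4_mul_le (hρ a n) (core4_jac _ _)) (gg_le _ _ _ _)
  · simp

/-- the condition for `F (p m) F (p' m)` -/
private def core4_Q (N p p' : ℕ) (P : ℤ → ℕ → Prop) (a : ℤ) (m : ℕ) : Prop :=
  m ≤ N / max p p' ∧ P a (p * m) ∧ P a (p' * m)

/-- a change between `p m` and `p (m + 1)` gives a change between two neighbours -/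
private theorem core4_step (R : ℕ → Prop) (x : ℕ) : ∀ d : ℕ, ¬ (R x ↔ R (x + d)) →
    ∃ n, x ≤ n ∧ n < x + d ∧ ¬ (R n ↔ R (n + 1)) := by
  intro d
  induction d with
  | zero => intro h; exact absurd Iff.rfl h
  | succ d ih =>
    intro h
    by_cases h1 : (R x ↔ R (x + d))
    · refine ⟨x + d, by omega, by omega, fun h2 => h ?_⟩
      exact h1.trans h2
    · obtain ⟨n, h2, h3, h4⟩ := ih h1
      exact ⟨n, h2, by omega, h4⟩

private theorem core4_chg (K₀ N p p' : ℕ) (hp : 0 < p) (hp' : 0 < p') (P : ℤ → ℕ → Prop) (hP : Chg K₀ N P) :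
    Chg (2 * K₀ + 1) N (core4_Q N p p' P) := by
  intro a
  set A := (range N).filter (fun m => ¬ (P a m ↔ P a (m + 1))) with hA
  have hsub : (range N).filter (fun m => ¬ (core4_Q N p p' P a m ↔ core4_Q N p p' P a (m + 1))) ⊆
      {N / max p p'} ∪ (A.image (fun n => n / p) ∪ A.image (fun n => n / p')) := by
    intro m hm
    rw [mem_filter] at hm
    obtain ⟨_, hm2⟩ := hm
    rw [mem_union, mem_union, mem_singleton]
    have key : ∀ q : ℕ, 0 < q → q * (m + 1) ≤ N → ¬ (P a (q * m) ↔ P a (q * (m + 1))) →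
        m ∈ A.image (fun n => n / q) := by
      intro q hq hqN hne
      have h1 : q * (m + 1) = q * m + q := by ring
      rw [h1] at hne
      obtain ⟨n, h2, h3, h4⟩ := core4_step (P a) (q * m) q hne
      rw [mem_image]
      refine ⟨n, ?_, ?_⟩
      · rw [hA, mem_filter, mem_range]
        exact ⟨by omega, h4⟩
      · exact Nat.div_eq_of_lt_le (by rw [mul_comm]; exact h2) (by rw [mul_comm, h1]; exact h3)
    by_cases h0 : m = N / max p p'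
    · exact Or.inl h0
    right
    have hmax : 0 < max p p' := lt_max_of_lt_left hp
    rcases Nat.lt_or_gt_of_ne h0 with h1 | h1
    · have h2 : (m + 1) * max p p' ≤ N := (Nat.le_div_iff_mul_le hmax).1 h1
      have h3 : p * (m + 1) ≤ N := by
        refine le_trans ?_ h2
        rw [mul_comm]
        exact Nat.mul_le_mul_left _ (le_max_left _ _)
      have h4 : p' * (m + 1) ≤ N := by
        refine le_trans ?_ h2
        rw [mul_comm]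
        exact Nat.mul_le_mul_left _ (le_max_right _ _)
      by_cases h5 : (P a (p * m) ↔ P a (p * (m + 1)))
      · right
        apply key p' hp' h4
        intro h6
        apply hm2
        unfold core4_Q
        constructor
        · rintro ⟨_, h8, h9⟩
          exact ⟨h1, h5.1 h8, h6.1 h9⟩
        · rintro ⟨_, h8, h9⟩
          exact ⟨h1.le, h5.2 h8, h6.2 h9⟩
      · left
        exact key p hp h3 h5
    · exfalso
      apply hm2
      unfold core4_Q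
      constructor
      · rintro ⟨h2, _⟩
        omega
      · rintro ⟨h2, _⟩
        omega
  refine (Finset.card_le_card hsub).trans ?_
  refine (Finset.card_union_le _ _).trans ?_
  have h1 := Finset.card_union_le (A.image (fun n => n / p)) (A.image (fun n => n / p'))
  have h2 : (A.image (fun n => n / p)).card ≤ A.card := Finset.card_image_le
  have h3 : (A.image (fun n => n / p')).card ≤ A.card := Finset.card_image_le
  have h4 : A.card ≤ K₀ := hP a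
  rw [card_singleton]
  omega

private theorem core4_G_mul (M S : ℕ) (s₀ κ : ℤ) (ρ : ℤ → ℕ → ℝ) (ψ : ℤ → ℕ) (P : ℤ → ℕ → Prop)
    (a : ℤ) (N p p' : ℕ) (hp : 0 < p) (hp' : 0 < p') :
    ∑ m ∈ Icc 1 (N / max p p'), core4_G M S N s₀ κ ρ ψ P a (p * m) * core4_G M S N s₀ κ ρ ψ P a (p' * m) =
      ∑ m ∈ (Icc 1 N).filter (fun m => core4_Q N p p' P a m),
        (ρ a (p * m) * ρ a (p' * m) * (((jacobiSym (p : ℤ) (ψ a) : ℤ) : ℝ) * ((jacobiSym (p' : ℤ) (ψ a) : ℤ) : ℝ))) *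
        ((jacobiSym (m : ℤ) (ψ a) : ℤ) : ℝ) ^ 2 *
        (gg M S s₀ (κ * p * m + a ^ 2) * gg M S s₀ (κ * p' * m + a ^ 2)) := by
  have hmax : 0 < max p p' := lt_max_of_lt_left hp
  have hsub : (Icc 1 N).filter (fun m => core4_Q N p p' P a m) ⊆ Icc 1 (N / max p p') := by
    intro m hm
    rw [mem_filter, mem_Icc] at hm
    rw [mem_Icc]
    exact ⟨hm.1.1, hm.2.1⟩
  have hin : ∀ m ∈ Icc 1 (N / max p p'), ∀ q : ℕ, 0 < q → q ≤ max p p' → q * m ∈ Icc 1 N := by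
    intro m hm q hq hqm
    rw [mem_Icc] at hm ⊢
    refine ⟨Nat.mul_pos hq hm.1, ?_⟩
    have h1 : m * max p p' ≤ N := (Nat.le_div_iff_mul_le hmax).1 hm.2
    calc q * m ≤ max p p' * m := Nat.mul_le_mul_right _ hqm
      _ = m * max p p' := mul_comm _ _
      _ ≤ N := h1
  rw [← Finset.sum_subset hsub]
  · refine Finset.sum_congr rfl fun m hm => ?_
    have hm' := hsub hm
    rw [mem_filter] at hm
    obtain ⟨_, _, h1, h2⟩ := hm
    unfold core4_G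
    rw [if_pos ⟨hin m hm' p hp (le_max_left _ _), h1⟩, if_pos ⟨hin m hm' p' hp' (le_max_right _ _), h2⟩]
    have e1 : jacobiSym ((p * m : ℕ) : ℤ) (ψ a) = jacobiSym (p : ℤ) (ψ a) * jacobiSym (m : ℤ) (ψ a) := by
      rw [Nat.cast_mul, jacobiSym.mul_left]
    have e2 : jacobiSym ((p' * m : ℕ) : ℤ) (ψ a) = jacobiSym (p' : ℤ) (ψ a) * jacobiSym (m : ℤ) (ψ a) := by
      rw [Nat.cast_mul, jacobiSym.mul_left]
    have e3 : κ * ((p * m : ℕ) : ℤ) + a ^ 2 = κ * p * m + a ^ 2 := by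
      push_cast
      ring
    have e4 : κ * ((p' * m : ℕ) : ℤ) + a ^ 2 = κ * p' * m + a ^ 2 := by
      push_cast
      ring
    rw [e1, e2, e3, e4]
    push_cast
    ring
  · intro m hm1 hm
    by_contra hne
    apply hm
    rw [mem_filter]
    have h1 : P a (p * m) := by
      by_contra h2
      apply hne
      unfold core4_G
      rw [if_neg (fun h => h2 h.2), zero_mul]
    have h2 : P a (p' * m) := by
      by_contra h3
      apply hne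
      unfold core4_G
      rw [if_neg (c := p' * m ∈ Icc 1 N ∧ P a (p' * m)) (fun h => h3 h.2), mul_zero]
    rw [mem_Icc] at hm1
    refine ⟨mem_Icc.2 ⟨hm1.1, hm1.2.trans (Nat.div_le_self _ _)⟩, hm1.2, h1, h2⟩

private theorem core4_G_sum (M S : ℕ) (s₀ κ : ℤ) (ρ : ℤ → ℕ → ℝ) (ψ : ℤ → ℕ) (P : ℤ → ℕ → Prop)
    (a : ℤ) (N : ℕ) :
    ∑ n ∈ Icc 1 N, ((ArithmeticFunction.moebius n : ℤ) : ℝ) * core4_G M S N s₀ κ ρ ψ P a n =
      ∑ m ∈ (Icc 1 N).filter (fun m => P a m), mob m * (ρ a m * ((jacobiSym (m : ℤ) (ψ a) : ℤ) : ℝ) *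
        gg M S s₀ (κ * m + a ^ 2)) := by
  rw [Finset.sum_filter]
  refine Finset.sum_congr rfl fun m hm => ?_
  unfold core4_G mob
  by_cases h : P a m
  · rw [if_pos ⟨hm, h⟩, if_pos h, Int.natAbs_natCast]
  · rw [if_neg (fun h' => h h'.2), if_neg h, mul_zero]

/-- the pointwise bound: Katai, or one of the correlations is large -/
private theorem core4_pt (M S : ℕ) (s₀ κ : ℤ) (ρ : ℤ → ℕ → ℝ) (hρ : ∀ w m, |ρ w m| ≤ 1) (ψ : ℤ → ℕ)
    (R : ℤ → ℕ → Prop) (a : ℤ) (N : ℕ) (P : Finset ℕ) (hP : ∀ p ∈ P, p.Prime) (κ' δ : ℝ) (hκ : 0 < κ') (hδ : 0 ≤ δ)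
    (hk : ∀ F : ℕ → ℂ, (∀ n, ‖F n‖ ≤ 1) →
      (∀ p ∈ P, ∀ p' ∈ P, p ≠ p' →
        ‖∑ m ∈ Icc 1 (N / max p p'), F (p * m) * (starRingEnd ℂ) (F (p' * m))‖ ≤ κ' * N) →
      ‖∑ n ∈ Icc 1 N, ((ArithmeticFunction.moebius n : ℤ) : ℂ) * F n‖ ≤ δ * N) :
    |∑ m ∈ (Icc 1 N).filter (fun m => R a m), mob m * (ρ a m * ((jacobiSym (m : ℤ) (ψ a) : ℤ) : ℝ) *
        gg M S s₀ (κ * m + a ^ 2))| ≤ δ * N + κ'⁻¹ * ∑ q ∈ P.offDiag,
      |∑ m ∈ (Icc 1 N).filter (fun m => core4_Q N q.1 q.2 R a m),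
        (ρ a (q.1 * m) * ρ a (q.2 * m) * (((jacobiSym (q.1 : ℤ) (ψ a) : ℤ) : ℝ) * ((jacobiSym (q.2 : ℤ) (ψ a) : ℤ) : ℝ))) *
        ((jacobiSym (m : ℤ) (ψ a) : ℤ) : ℝ) ^ 2 *
        (gg M S s₀ (κ * q.1 * m + a ^ 2) * gg M S s₀ (κ * q.2 * m + a ^ 2))| := by
  rw [← core4_G_sum M S s₀ κ ρ ψ R a N]
  have hcast : ∀ r : ℝ, |r| = ‖(r : ℂ)‖ := fun r => by rw [Complex.norm_real, Real.norm_eq_abs]
  have hGle := core4_G_le M S N s₀ κ ρ hρ ψ R a
  have hnn : ∀ q ∈ P.offDiag, 0 ≤ |∑ m ∈ (Icc 1 N).filter (fun m => core4_Q N q.1 q.2 R a m),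
        (ρ a (q.1 * m) * ρ a (q.2 * m) * (((jacobiSym (q.1 : ℤ) (ψ a) : ℤ) : ℝ) * ((jacobiSym (q.2 : ℤ) (ψ a) : ℤ) : ℝ))) *
        ((jacobiSym (m : ℤ) (ψ a) : ℤ) : ℝ) ^ 2 *
        (gg M S s₀ (κ * q.1 * m + a ^ 2) * gg M S s₀ (κ * q.2 * m + a ^ 2))| := fun q _ => abs_nonneg _
  by_cases hall : ∀ p ∈ P, ∀ p' ∈ P, p ≠ p' →
      |∑ m ∈ Icc 1 (N / max p p'), core4_G M S N s₀ κ ρ ψ R a (p * m) * core4_G M S N s₀ κ ρ ψ R a (p' * m)| ≤ κ' * N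
  · have h1 := hk (fun n => (core4_G M S N s₀ κ ρ ψ R a n : ℂ)) (fun n => by
      rw [← hcast]
      exact hGle n) (fun p hp p' hp' hne => by
        have h2 := hall p hp p' hp' hne
        rw [hcast] at h2
        push_cast at h2
        simpa only [Complex.conj_ofReal] using h2)
    have h2 : |∑ n ∈ Icc 1 N, ((ArithmeticFunction.moebius n : ℤ) : ℝ) * core4_G M S N s₀ κ ρ ψ R a n| ≤ δ * N := by
      rw [hcast]
      push_cast
      exact h1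
    have h3 := mul_nonneg (inv_nonneg.2 hκ.le) (Finset.sum_nonneg hnn)
    linarith
  · push Not at hall
    obtain ⟨p, hp, p', hp', hne, hlt⟩ := hall
    have h1 : |∑ n ∈ Icc 1 N, ((ArithmeticFunction.moebius n : ℤ) : ℝ) * core4_G M S N s₀ κ ρ ψ R a n| ≤ N := by
      refine (Finset.abs_sum_le_sum_abs _ _).trans ?_
      have h2 : ∀ n ∈ Icc 1 N, |((ArithmeticFunction.moebius n : ℤ) : ℝ) * core4_G M S N s₀ κ ρ ψ R a n| ≤ 1 := by
        intro n _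
        refine core4_mul_le ?_ (hGle n)
        have h3 : |ArithmeticFunction.moebius n| ≤ 1 := ArithmeticFunction.abs_moebius_le_one
        exact_mod_cast h3
      refine (Finset.sum_le_sum h2).trans ?_
      rw [Finset.sum_const, Nat.card_Icc, nsmul_eq_mul, mul_one]
      simp
    have hmem : (p, p') ∈ P.offDiag := Finset.mem_offDiag.2 ⟨hp, hp', hne⟩
    have h2 := Finset.single_le_sum hnn hmem
    dsimp only at h2
    rw [← core4_G_mul M S s₀ κ ρ ψ R a N p p' (hP p hp).pos (hP p' hp').pos] at h2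
    have h3 : (N : ℝ) ≤ κ'⁻¹ * ∑ q ∈ P.offDiag,
      |∑ m ∈ (Icc 1 N).filter (fun m => core4_Q N q.1 q.2 R a m),
        (ρ a (q.1 * m) * ρ a (q.2 * m) * (((jacobiSym (q.1 : ℤ) (ψ a) : ℤ) : ℝ) * ((jacobiSym (q.2 : ℤ) (ψ a) : ℤ) : ℝ))) *
        ((jacobiSym (m : ℤ) (ψ a) : ℤ) : ℝ) ^ 2 *
        (gg M S s₀ (κ * q.1 * m + a ^ 2) * gg M S s₀ (κ * q.2 * m + a ^ 2))| := by
      rw [le_inv_mul_iff₀ hκ]
      exact hlt.le.trans h2
    have h4 : 0 ≤ δ * N := mul_nonneg hδ (Nat.cast_nonneg _)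
    linarith

/-- D7. Copy of `core` (Katai: `kbs` with `N = L²`, for each `a`). `F n = ρ a n (n/ψ a) gg (κ n + a²)` for `1 ≤ n ≤ L²` with `P a n`, else `0`; `F (p m) F (p' m)`: the condition `P a (p m) ∧ P a (p' m) ∧ m ≤ L² / max p p'` changes at most `2 K₀ + 1` times (a change between `m` and `m + 1` gives one of `P a` between `p m`
and `p (m + 1)`); `corr4` with `α = κ p`, `β = κ p'`. -/
theorem core4 (M S : ℕ) (hM : 0 < M) (hS : 0 < S) (s₀ κ : ℤ) (hκ : κ ≠ 0) (Q : ℕ) (hQ : 0 < Q) (K₀ : ℕ) (ε : ℝ) (hε : 0 < ε) :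
    ∃ L₀ : ℕ, ∀ L : ℕ, L₀ ≤ L → ∀ P : ℤ → ℕ → Prop, Chg K₀ (L ^ 2) P →
      ∀ ρ : ℤ → ℕ → ℝ, (∀ a m, |ρ a m| ≤ 1) → (∀ a m m', m ≡ m' [MOD Q] → ρ a m = ρ a m') →
      ∀ ψ : ℤ → ℕ, (∀ a, a ≠ 0 → ψ a ∣ a.natAbs) →
      ∑ a ∈ Icc (-(L : ℤ)) L, |∑ m ∈ (Icc 1 (L ^ 2)).filter (fun m => P a m), mob m * (ρ a m * ((jacobiSym (m : ℤ) (ψ a) : ℤ) : ℝ) *
        gg M S s₀ (κ * m + a ^ 2))| ≤ ε * L ^ 3 := by
  obtain ⟨P, κ', N₁, hP, hκ', hk⟩ := kbs (ε / 8) (by positivity)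
  have hε₂ : 0 < κ' * ε / (8 * ((P.offDiag.card : ℝ) + 1)) := by positivity
  have hcorr : ∀ q ∈ P.offDiag, ∀ᶠ L : ℕ in atTop, ∀ f : ℤ → ℝ, (∀ n, |f n| ≤ 1) → ∀ R : ℤ → ℕ → Prop,
      Chg (2 * K₀ + 1) (L ^ 2) R →
      ∀ ρ : ℤ → ℕ → ℝ, (∀ w m, |ρ w m| ≤ 1) → (∀ w m m', m ≡ m' [MOD Q] → ρ w m = ρ w m') →
      ∀ ψ : ℤ → ℕ, (∀ w, w ≠ 0 → ψ w ∣ w.natAbs) →
      ∑ a ∈ Icc (-(L : ℤ)) L, |∑ m ∈ (Icc 1 (L ^ 2)).filter (fun m => R a m), ρ a m * ((jacobiSym (m : ℤ) (ψ a) : ℤ) : ℝ) ^ 2 *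
        (f (κ * q.1 * m + a ^ 2) * gg M S s₀ (κ * q.2 * m + a ^ 2))| ≤
        (κ' * ε / (8 * ((P.offDiag.card : ℝ) + 1))) * L ^ 3 := by
    intro q hq
    obtain ⟨h1, h2, h3⟩ := Finset.mem_offDiag.1 hq
    have hq1 : (q.1 : ℤ) ≠ 0 := by exact_mod_cast (hP _ h1).ne_zero
    have hq2 : (q.2 : ℤ) ≠ 0 := by exact_mod_cast (hP _ h2).ne_zero
    have hαβ : κ * q.1 ≠ κ * q.2 := by
      intro h
      have h4 := mul_left_cancel₀ hκ h
      exact h3 (by exact_mod_cast h4)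
    obtain ⟨L₂, hL₂⟩ := corr4 M S hM hS s₀ (κ * q.1) (κ * q.2) (mul_ne_zero hκ hq1) (mul_ne_zero hκ hq2) hαβ Q hQ
      (2 * K₀ + 1) _ hε₂
    exact eventually_atTop.2 ⟨L₂, hL₂⟩
  obtain ⟨L₂, hL₂⟩ := eventually_atTop.1 ((eventually_all_finset P.offDiag).2 hcorr)
  refine ⟨max (max N₁ L₂) 1, fun L hL R hR ρ hρ hρQ ψ hψ => ?_⟩
  have hLN₁ : N₁ ≤ L := ((le_max_left _ _).trans (le_max_left _ _)).trans hL
  have hLL₂ : L₂ ≤ L := ((le_max_right _ _).trans (le_max_left _ _)).trans hL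
  have hL1 : 1 ≤ L := (le_max_right _ _).trans hL
  have hN₁ : N₁ ≤ L ^ 2 := hLN₁.trans (by nlinarith)
  have hpt : ∀ a ∈ Icc (-(L : ℤ)) L, _ := fun a _ =>
    core4_pt M S s₀ κ ρ hρ ψ R a (L ^ 2) P hP κ' (ε / 8) hκ' (by positivity) (fun F hF h => hk (L ^ 2) F hN₁ hF h)
  refine (Finset.sum_le_sum hpt).trans ?_
  rw [Finset.sum_add_distrib, Finset.sum_const, nsmul_eq_mul, Int.card_Icc, ← Finset.mul_sum, Finset.sum_comm]
  have hpair : ∀ q ∈ P.offDiag, ∑ a ∈ Icc (-(L : ℤ)) L,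
      |∑ m ∈ (Icc 1 (L ^ 2)).filter (fun m => core4_Q (L ^ 2) q.1 q.2 R a m),
        (ρ a (q.1 * m) * ρ a (q.2 * m) * (((jacobiSym (q.1 : ℤ) (ψ a) : ℤ) : ℝ) * ((jacobiSym (q.2 : ℤ) (ψ a) : ℤ) : ℝ))) *
        ((jacobiSym (m : ℤ) (ψ a) : ℤ) : ℝ) ^ 2 *
        (gg M S s₀ (κ * q.1 * m + a ^ 2) * gg M S s₀ (κ * q.2 * m + a ^ 2))| ≤
        (κ' * ε / (8 * ((P.offDiag.card : ℝ) + 1))) * L ^ 3 := by
    intro q hq
    obtain ⟨h1, h2, _⟩ := Finset.mem_offDiag.1 hq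
    refine hL₂ L hLL₂ q hq (gg M S s₀) (gg_le M S s₀) (core4_Q (L ^ 2) q.1 q.2 R)
      (core4_chg K₀ (L ^ 2) q.1 q.2 (hP _ h1).pos (hP _ h2).pos R hR)
      (fun a m => ρ a (q.1 * m) * ρ a (q.2 * m) *
        (((jacobiSym (q.1 : ℤ) (ψ a) : ℤ) : ℝ) * ((jacobiSym (q.2 : ℤ) (ψ a) : ℤ) : ℝ)))
      (fun a m => core4_mul_le (core4_mul_le (hρ _ _) (hρ _ _)) (core4_mul_le (core4_jac _ _) (core4_jac _ _)))
      (fun a m m' hm => ?_) ψ hψ
    rw [hρQ a (q.1 * m) (q.1 * m') (hm.mul_left _), hρQ a (q.2 * m) (q.2 * m') (hm.mul_left _)]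
  have h1 := Finset.sum_le_sum hpair
  rw [Finset.sum_const, nsmul_eq_mul] at h1
  have h2 : (((L : ℤ) + 1 - -(L : ℤ)).toNat : ℝ) = 2 * L + 1 := by
    have h3 : ((L : ℤ) + 1 - -(L : ℤ)).toNat = 2 * L + 1 := by omega
    rw [h3]
    push_cast
    ring
  rw [h2]
  have h4 : κ'⁻¹ * ((P.offDiag.card : ℝ) * ((κ' * ε / (8 * ((P.offDiag.card : ℝ) + 1))) * L ^ 3)) ≤ ε / 8 * L ^ 3 := by
    have h5 : κ'⁻¹ * ((P.offDiag.card : ℝ) * ((κ' * ε / (8 * ((P.offDiag.card : ℝ) + 1))) * L ^ 3)) =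
        ((P.offDiag.card : ℝ) / ((P.offDiag.card : ℝ) + 1)) * (ε / 8 * L ^ 3) := by
      field_simp
    rw [h5]
    have h6 : (P.offDiag.card : ℝ) / ((P.offDiag.card : ℝ) + 1) ≤ 1 := by
      rw [div_le_one (by positivity)]
      linarith
    have h7 : 0 ≤ ε / 8 * (L : ℝ) ^ 3 := by positivity
    calc _ ≤ 1 * (ε / 8 * (L : ℝ) ^ 3) := mul_le_mul_of_nonneg_right h6 h7
      _ = _ := one_mul _
  have h5 := mul_le_mul_of_nonneg_left h1 (inv_nonneg.2 hκ'.le)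
  have h6 : (1 : ℝ) ≤ L := by exact_mod_cast hL1
  have h7 : (L : ℝ) ^ 2 ≤ (L : ℝ) ^ 3 := pow_le_pow_right₀ h6 (by norm_num)
  have h8 : (2 * (L : ℝ) + 1) * (ε / 8 * ((L ^ 2 : ℕ) : ℝ)) ≤ ε / 2 * L ^ 3 := by
    push_cast
    have h9 : ε / 8 * (L : ℝ) ^ 2 ≤ ε / 8 * (L : ℝ) ^ 3 := mul_le_mul_of_nonneg_left h7 (by positivity)
    have h10 : 0 ≤ ε / 8 * (L : ℝ) ^ 3 := by positivity
    have h11 : (2 * (L : ℝ) + 1) * (ε / 8 * (L : ℝ) ^ 2) = 2 * (ε / 8 * (L : ℝ) ^ 3) + ε / 8 * (L : ℝ) ^ 2 := by ring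
    rw [h11]
    linarith
  have h12 : 0 ≤ ε * (L : ℝ) ^ 3 := by positivity
  linarith
-- END core4

-- BEGIN chg
private theorem chg_root (p : Polynomial ℝ) (m : ℝ) (h : ¬ (p.eval m ≤ 0 ↔ p.eval (m + 1) ≤ 0)) :
    ∃ r : ℝ, p.eval r = 0 ∧ m ≤ r ∧ r ≤ m + 1 := by
  have hc : ContinuousOn (fun x : ℝ => p.eval x) (Set.Icc m (m + 1)) := p.continuous.continuousOn
  have hm : m ≤ m + 1 := by linarith
  by_cases h1 : p.eval m ≤ 0
  · have h2 : ¬ p.eval (m + 1) ≤ 0 := fun h2 => h ⟨fun _ => h2, fun _ => h1⟩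
    have h3 : (0 : ℝ) ∈ Set.Icc (p.eval m) (p.eval (m + 1)) := ⟨h1, (not_le.mp h2).le⟩
    obtain ⟨r, hr, hr0⟩ := intermediate_value_Icc hm hc h3
    exact ⟨r, hr0, hr.1, hr.2⟩
  · have h2 : p.eval (m + 1) ≤ 0 := by
      by_contra h2
      exact h ⟨fun h3 => absurd h3 h1, fun h3 => absurd h3 h2⟩
    have h3 : (0 : ℝ) ∈ Set.Icc (p.eval (m + 1)) (p.eval m) := ⟨h2, (not_le.mp h1).le⟩
    obtain ⟨r, hr, hr0⟩ := intermediate_value_Icc' hm hc h3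
    exact ⟨r, hr0, hr.1, hr.2⟩

/-- the version with natural `m` (the statement of `chg` elaborates to the image of `range n` in `ℝ`) -/
theorem chg_nat (p : Polynomial ℝ) (hp : p ≠ 0) (n : ℕ) :
    (Finset.filter (fun m : ℕ => ¬ (p.eval (m : ℝ) ≤ 0 ↔ p.eval ((m : ℝ) + 1) ≤ 0)) (range n)).card ≤ 2 * p.natDegree := by
  set s := Finset.filter (fun m : ℕ => ¬ (p.eval (m : ℝ) ≤ 0 ↔ p.eval ((m : ℝ) + 1) ≤ 0)) (range n) with hs
  have hex : ∀ m : ℕ, ∃ r : ℝ, m ∈ s → (p.eval r = 0 ∧ (m : ℝ) ≤ r ∧ r ≤ (m : ℝ) + 1) := by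
    intro m
    by_cases hm : m ∈ s
    · obtain ⟨r, hr⟩ := chg_root p m (mem_filter.mp hm).2
      exact ⟨r, fun _ => hr⟩
    · exact ⟨0, fun h => absurd h hm⟩
  choose f hf using hex
  have hmap : ∀ m ∈ s, f m ∈ p.roots.toFinset := by
    intro m hm
    rw [Multiset.mem_toFinset, Polynomial.mem_roots hp]
    exact (hf m hm).1
  have hfib : ∀ r ∈ p.roots.toFinset, (s.filter (fun m => f m = r)).card ≤ 2 := by
    intro r _
    have hsub : s.filter (fun m => f m = r) ⊆ {⌊r⌋₊, ⌊r⌋₊ - 1} := by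
      intro m hm
      rw [mem_filter] at hm
      obtain ⟨_, h1, h2⟩ := hf m hm.1
      rw [hm.2] at h1 h2
      have h3 : m ≤ ⌊r⌋₊ := Nat.le_floor h1
      have h0 : (0 : ℝ) ≤ r := le_trans (Nat.cast_nonneg m) h1
      have h4 : ⌊r⌋₊ ≤ m + 1 := by
        have : ((⌊r⌋₊ : ℕ) : ℝ) ≤ ((m + 1 : ℕ) : ℝ) := by
          push_cast
          exact le_trans (Nat.floor_le h0) h2
        exact_mod_cast this
      rw [mem_insert, mem_singleton]
      omega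
    exact le_trans (card_le_card hsub) card_le_two
  have h1 := card_le_mul_card_image_of_maps_to hmap 2 hfib
  have h2 : p.roots.toFinset.card ≤ p.natDegree :=
    le_trans (Multiset.toFinset_card_le _) (Polynomial.card_roots' p)
  calc s.card ≤ 2 * p.roots.toFinset.card := h1
    _ ≤ 2 * p.natDegree := Nat.mul_le_mul_left 2 h2

/-- D8. If `p(m) ≤ 0` and `p(m+1) ≤ 0` are not equivalent then `p` has a root in `[m, m + 1]` (intermediate value theorem); a real number lies in at most two such intervals; `card_roots'`. -/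
theorem chg (p : Polynomial ℝ) (hp : p ≠ 0) (n : ℕ) :
    ((range n).filter (fun m => ¬ (p.eval (m : ℝ) ≤ 0 ↔ p.eval ((m : ℝ) + 1) ≤ 0))).card ≤ 2 * p.natDegree := by
  refine le_trans ?_ (chg_nat p hp n)
  refine le_trans (card_le_card (t := (Finset.filter (fun m : ℕ => ¬ (p.eval (m : ℝ) ≤ 0 ↔ p.eval ((m : ℝ) + 1) ≤ 0)) (range n)).image (fun m : ℕ => (m : ℝ))) ?_) card_image_le
  intro x hx
  rw [mem_filter] at hx
  obtain ⟨hx1, hx2⟩ := hx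
  have hx3 : ∃ a : ℕ, a ∈ range n ∧ (a : ℝ) = x := by
    simpa [Finset.bind_def, Finset.pure_def, mem_sup, eq_comm] using hx1
  obtain ⟨a, ha, rfl⟩ := hx3
  exact mem_image.mpr ⟨a, mem_filter.mpr ⟨ha, hx2⟩, rfl⟩
-- END chg

end Rnc
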