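import Pool.Agent.Mrd.Mu
import Pool.Agent.Mrd.Irr
import Pool.Agent.Mrd.Kbs
import Pool.Agent.Rnt.Defs

/-!
# Rnc INP: the three inputs from Mrd
-/

set_option autoImplicit false

namespace Rnc

open Finset Filter Topology Rnt

/-- `Pool.Agent.Mrd.mr_mu` -/
theorem mr_mu (l : ℂ) (q : ℕ) (hq : 1 ≤ q) (hl : l ^ q = 1) (ε : ℝ) (hε : 0 < ε) : ∃ H₀ : ℕ, ∀ H : ℕ,
    H₀ ≤ H → ∃ N₀ : ℕ, ∀ N : ℕ, N₀ ≤ N →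
      ∑ m ∈ range N, ‖∑ n ∈ Ioc m (m + H), l ^ n * ((ArithmeticFunction.moebius n : ℤ) : ℂ)‖ ≤
        ε * N * H :=
  Pool.Agent.Mrd.mr_mu l q hq hl ε hε

/-- `Pool.Agent.Mrd.irr` -/
theorem irr (l : ℂ) (hl : ‖l‖ = 1) (hn : ∀ q : ℕ, 1 ≤ q → l ^ q ≠ 1) (ε : ℝ) (hε : 0 < ε) :
    ∃ H₀ : ℕ, ∀ H : ℕ, H₀ ≤ H → ∃ N₀ : ℕ, ∀ N : ℕ, N₀ ≤ N →
      ∑ m ∈ range N, ‖∑ n ∈ Ioc m (m + H), l ^ n * ((ArithmeticFunction.moebius n : ℤ) : ℂ)‖ ≤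
        ε * N * H :=
  Pool.Agent.Mrd.irr l hl hn ε hε

/-- `Pool.Agent.Mrd.kbs` -/
theorem kbs (ε : ℝ) (hε : 0 < ε) : ∃ (P : Finset ℕ) (κ : ℝ) (N₀ : ℕ), (∀ p ∈ P, p.Prime) ∧ 0 < κ ∧
    ∀ (N : ℕ) (F : ℕ → ℂ), N₀ ≤ N → (∀ n, ‖F n‖ ≤ 1) →
    (∀ p ∈ P, ∀ p' ∈ P, p ≠ p' →
      ‖∑ m ∈ Icc 1 (N / max p p'), F (p * m) * (starRingEnd ℂ) (F (p' * m))‖ ≤ κ * N) →
    ‖∑ n ∈ Icc 1 N, ((ArithmeticFunction.moebius n : ℤ) : ℂ) * F n‖ ≤ ε * N :=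
  Pool.Agent.Mrd.kbs ε hε

/-- `|gg| ≤ 1` -/
theorem gg_le (M u : ℕ) (n₀ n : ℤ) : |gg M u n₀ n| ≤ 1 := by
  unfold gg mob
  split_ifs with h
  · have h1 : |ArithmeticFunction.moebius (n / u).natAbs| ≤ 1 := ArithmeticFunction.abs_moebius_le_one
    exact_mod_cast h1
  · simp

/-- correlations of a function supported in `[1, N]` -/
noncomputable def Cr (g : ℤ → ℝ) (N : ℕ) (h : ℤ) : ℝ := ∑ n ∈ Icc (1 : ℤ) N, g n * g (n + h)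

/-- the `Q`-th roots of unity -/
noncomputable def lr (Q a : ℕ) : ℂ := Complex.exp (2 * Real.pi * Complex.I * a / Q)

end Rnc
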